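import Pool.Agent.Helper97.O3.Defs
import Pool.Agent.Helper57.TOK.Lists

/-!
# The gadgets S1, S2, S3, S8, T3, E (section 3 of the note)
-/

set_option autoImplicit false

namespace Pool.Agent.Helper97.OT

open SimpleGraph Pool.Agent.Helper57.TOK

variable {V : Type*}

private lemma lw_one : ∀ (l : List V) (a : V), lw (fun _ => (1 : ZMod 2)) (a :: l) =
    (l.length : ZMod 2) := by
  intro l
  induction l with
  | nil => intro a; simp [lw]
  | cons b l ih =>
    intro a
    show (1 : ZMod 2) + lw (fun _ => (1 : ZMod 2)) (b :: l) = _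
    rw [ih b, List.length_cons]
    push_cast
    ring

private lemma even_cast {n : ℕ} (h : Even n) : (n : ZMod 2) = 0 := by
  rw [ZMod.natCast_eq_zero_iff]; exact h.two_dvd

private lemma odd_cast {n : ℕ} (h : Odd n) : (n : ZMod 2) = 1 := by
  obtain ⟨k, rfl⟩ := h
  push_cast
  rw [show (2 : ZMod 2) = 0 from rfl]
  simp

private lemma even_of_cast {n : ℕ} (h : (n : ZMod 2) = 0) : Even n := by
  rw [ZMod.natCast_eq_zero_iff] at h; exact (even_iff_two_dvd).2 h

private lemma of_fam {G : SimpleGraph V} (v : Fin 4 → V) (I : Fin 4 → Fin 4 → List V)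
    (hv : Function.Injective v)
    (hch : ∀ i j : Fin 4, i < j → List.IsChain G.Adj (v i :: (I i j ++ [v j])))
    (he : ∀ i j : Fin 4, i < j → Even (I i j).length)
    (hn : ∀ i j : Fin 4, i < j → (I i j).Nodup)
    (h1 : ∀ i j : Fin 4, i < j → ∀ x ∈ I i j, ∀ k, x ≠ v k)
    (h2 : ∀ i j k l : Fin 4, i < j → k < l → (i, j) ≠ (k, l) → ∀ x ∈ I i j, x ∉ I k l) :
    HasTOK4 G := by
  rw [hasTOK4_iff]
  refine HasTOK4s.of_lists v (fun i j => v i :: (I i j ++ [v j])) hv ?_ ?_
  · intro i j hij
    refine ⟨hch i j hij, rfl, ?_, ?_, ?_⟩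
    · rw [← List.cons_append, List.getLast?_append]
      simp
    · rw [List.nodup_cons, List.nodup_append]
      refine ⟨?_, hn i j hij, List.nodup_singleton _, ?_⟩
      · rw [List.mem_append, List.mem_singleton, not_or]
        exact ⟨fun h => h1 i j hij _ h i rfl, fun h => (hij.ne (hv h)).elim⟩
      · intro x hx y hy
        rw [List.mem_singleton] at hy
        rw [hy]
        exact h1 i j hij x hx j
    · rw [lw_one, List.length_append, List.length_singleton]
      push_cast
      rw [even_cast (he i j hij), zero_add]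
  · intro i j k l hij hkl hne x hx hx'
    simp only [List.mem_cons, List.mem_append, List.not_mem_nil, or_false] at hx hx'
    rcases hx with hx | hx | hx <;> rcases hx' with hx' | hx' | hx'
    · exact ⟨Or.inl hx, Or.inl hx'⟩
    · exact absurd hx (h1 k l hkl x hx' i)
    · exact ⟨Or.inl hx, Or.inr hx'⟩
    · exact absurd hx' (h1 i j hij x hx k)
    · exact absurd hx' (h2 i j k l hij hkl hne x hx)
    · exact absurd hx' (h1 i j hij x hx l)
    · exact ⟨Or.inr hx, Or.inl hx'⟩
    · exact absurd hx (h1 k l hkl x hx' j)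
    · exact ⟨Or.inr hx, Or.inr hx'⟩

/-- TOK4 from six lists of interior vertices. -/
theorem hasTOK4_of_nodup {G : SimpleGraph V} {a b c d : V} {L01 L02 L03 L12 L13 L23 : List V}
    (h01 : List.IsChain G.Adj (a :: (L01 ++ [b]))) (h02 : List.IsChain G.Adj (a :: (L02 ++ [c])))
    (h03 : List.IsChain G.Adj (a :: (L03 ++ [d]))) (h12 : List.IsChain G.Adj (b :: (L12 ++ [c])))
    (h13 : List.IsChain G.Adj (b :: (L13 ++ [d]))) (h23 : List.IsChain G.Adj (c :: (L23 ++ [d])))
    (e01 : Even L01.length) (e02 : Even L02.length) (e03 : Even L03.length)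
    (e12 : Even L12.length) (e13 : Even L13.length) (e23 : Even L23.length)
    (nd : ([a, b, c, d] ++ L01 ++ L02 ++ L03 ++ L12 ++ L13 ++ L23).Nodup) : HasTOK4 G := by
  classical
  let v : Fin 4 → V := ![a, b, c, d]
  let I : Fin 4 → Fin 4 → List V := ![![[], L01, L02, L03], ![[], [], L12, L13], ![[], [], [], L23],
    ![[], [], [], []]]
  rw [List.nodup_iff_count_le_one] at nd
  have key : ∀ x, List.count x [a, b, c, d] + List.count x L01 + List.count x L02 +
      List.count x L03 + List.count x L12 + List.count x L13 + List.count x L23 ≤ 1 := by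
    intro x
    have := nd x
    simpa only [List.count_append] using this
  have kv : ∀ k, 1 ≤ List.count (v k) [a, b, c, d] := by
    intro k
    rw [Nat.one_le_iff_ne_zero, ← Nat.pos_iff_ne_zero, List.count_pos_iff]
    fin_cases k <;> simp [v]
  have kI : ∀ (x : V) (L : List V), x ∈ L → 1 ≤ List.count x L := by
    intro x L hx
    rw [Nat.one_le_iff_ne_zero, ← Nat.pos_iff_ne_zero, List.count_pos_iff]
    exact hx
  have hn4 : ([a, b, c, d] : List V).Nodup := by
    rw [List.nodup_iff_count_le_one]
    intro x
    have := key x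
    omega
  have keyI : ∀ i j : Fin 4, i < j → ∀ x, List.count x [a, b, c, d] + List.count x (I i j) ≤ 1 := by
    intro i j hij x
    have := key x
    fin_cases i <;> fin_cases j <;>
      first
        | exact absurd hij (by decide)
        | (change List.count x [a, b, c, d] + List.count x L01 ≤ 1; omega)
        | (change List.count x [a, b, c, d] + List.count x L02 ≤ 1; omega)
        | (change List.count x [a, b, c, d] + List.count x L03 ≤ 1; omega)
        | (change List.count x [a, b, c, d] + List.count x L12 ≤ 1; omega)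
        | (change List.count x [a, b, c, d] + List.count x L13 ≤ 1; omega)
        | (change List.count x [a, b, c, d] + List.count x L23 ≤ 1; omega)
  have keyII : ∀ i j k l : Fin 4, i < j → k < l → (i, j) ≠ (k, l) → ∀ x,
      List.count x (I i j) + List.count x (I k l) ≤ 1 := by
    intro i j k l hij hkl hne x
    have := key x
    have c01 : List.count x (I 0 1) = List.count x L01 := rfl
    have c02 : List.count x (I 0 2) = List.count x L02 := rfl
    have c03 : List.count x (I 0 3) = List.count x L03 := rfl
    have c12 : List.count x (I 1 2) = List.count x L12 := rfl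
    have c13 : List.count x (I 1 3) = List.count x L13 := rfl
    have c23 : List.count x (I 2 3) = List.count x L23 := rfl
    have hI : ∀ i j : Fin 4, i < j → (i = 0 ∧ j = 1) ∨ (i = 0 ∧ j = 2) ∨ (i = 0 ∧ j = 3) ∨
      (i = 1 ∧ j = 2) ∨ (i = 1 ∧ j = 3) ∨ (i = 2 ∧ j = 3) := by decide
    rcases hI i j hij with ⟨rfl, rfl⟩ | ⟨rfl, rfl⟩ | ⟨rfl, rfl⟩ | ⟨rfl, rfl⟩ | ⟨rfl, rfl⟩ |
      ⟨rfl, rfl⟩ <;>
      rcases hI k l hkl with ⟨rfl, rfl⟩ | ⟨rfl, rfl⟩ | ⟨rfl, rfl⟩ | ⟨rfl, rfl⟩ | ⟨rfl, rfl⟩ |
      ⟨rfl, rfl⟩ <;>
      first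
        | exact absurd rfl hne
        | omega
  refine of_fam v I ?_ ?_ ?_ ?_ ?_ ?_
  · have h1 : v = fun i => ([a, b, c, d] : List V).get i := by
      funext i; fin_cases i <;> rfl
    rw [h1]
    exact List.nodup_iff_injective_get.1 hn4
  · intro i j hij
    fin_cases i <;> fin_cases j <;>
      first
        | exact absurd hij (by decide)
        | exact h01
        | exact h02
        | exact h03
        | exact h12
        | exact h13
        | exact h23
  · intro i j hij
    fin_cases i <;> fin_cases j <;>
      first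
        | exact absurd hij (by decide)
        | exact e01
        | exact e02
        | exact e03
        | exact e12
        | exact e13
        | exact e23
  · intro i j hij
    rw [List.nodup_iff_count_le_one]
    intro x
    have := keyI i j hij x
    omega
  · intro i j hij x hx k hk
    subst hk
    have h1 := keyI i j hij (v k)
    have h2 := kv k
    have h3 := kI _ _ hx
    omega
  · intro i j k l hij hkl hne x hx hx'
    have h1 := keyII i j k l hij hkl hne x
    have h3 := kI _ _ hx
    have h4 := kI _ _ hx'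
    omega

/-! ### Chains -/

private lemma ch_rev {G : SimpleGraph V} {a b : V} {L : List V}
    (h : List.IsChain G.Adj (a :: (L ++ [b]))) : List.IsChain G.Adj (b :: (L.reverse ++ [a])) := by
  have h1 : List.IsChain (flip G.Adj) (a :: (L ++ [b])).reverse := List.isChain_reverse.2 (by
    simpa [flip] using h)
  have h2 : (a :: (L ++ [b])).reverse = b :: (L.reverse ++ [a]) := by simp
  rw [h2] at h1
  exact h1.imp fun x y hxy => SimpleGraph.Adj.symm (show G.Adj y x from hxy)

private lemma ch_app {G : SimpleGraph V} {a b c : V} {L M : List V}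
    (h1 : List.IsChain G.Adj (a :: (L ++ [b]))) (h2 : List.IsChain G.Adj (b :: (M ++ [c]))) :
    List.IsChain G.Adj (a :: ((L ++ b :: M) ++ [c])) := by
  induction L generalizing a with
  | nil =>
    simp only [List.nil_append, List.isChain_cons_cons, List.isChain_singleton, and_true] at h1
    simp only [List.nil_append, List.cons_append]
    exact List.isChain_cons_cons.2 ⟨h1, h2⟩
  | cons x L ih =>
    rw [List.cons_append, List.isChain_cons_cons] at h1
    rw [List.cons_append, List.cons_append, List.isChain_cons_cons]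
    exact ⟨h1.1, ih h1.2⟩

private lemma ch_leg {G : SimpleGraph V} {a b c : V} {L M : List V}
    (h1 : List.IsChain G.Adj (a :: L)) (hl : (a :: L).getLast? = some b)
    (h2 : List.IsChain G.Adj (b :: (M ++ [c]))) :
    List.IsChain G.Adj (a :: ((L ++ M) ++ [c])) := by
  induction L generalizing a with
  | nil =>
    have : a = b := by simpa using hl
    subst this
    exact h2
  | cons x L ih =>
    rw [List.isChain_cons_cons] at h1
    rw [List.getLast?_cons_cons] at hl
    rw [List.cons_append, List.cons_append, List.isChain_cons_cons]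
    exact ⟨h1.1, ih h1.2 hl⟩

private lemma ch_leg' {G : SimpleGraph V} {a b c : V} {L M : List V}
    (h1 : List.IsChain G.Adj (a :: L)) (hl : (a :: L).getLast? = some b)
    (h2 : List.IsChain G.Adj (c :: (M ++ [b]))) :
    List.IsChain G.Adj (c :: ((M ++ L.reverse) ++ [a])) := by
  have h3 := ch_rev (ch_leg h1 hl (ch_rev h2))
  simpa using h3

private lemma ch_edge {G : SimpleGraph V} {a b : V} (h : G.Adj a b) :
    List.IsChain G.Adj (a :: (([] : List V) ++ [b])) := by
  simpa using h

/-- a nontrivial leg -/
private lemma leg_split {a b : V} {L : List V} (hl : (a :: L).getLast? = some b)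
    (hne : L ≠ []) : ∃ L', L = L' ++ [b] := by
  obtain ⟨L', x, rfl⟩ := List.eq_nil_or_concat L |>.resolve_left hne
  refine ⟨L', ?_⟩
  rw [List.concat_eq_append] at hl ⊢
  rw [← List.cons_append, List.getLast?_append] at hl
  have : x = b := by simpa using hl
  rw [this]

private lemma nd_of {l l' : List V} [DecidableEq V] (h : l'.Nodup)
    (hc : ∀ x, List.count x l ≤ List.count x l') : l.Nodup := by
  rw [List.nodup_iff_count_le_one] at h ⊢
  intro x
  exact (hc x).trans (h x)

private lemma nd_app {l l' : List V} (h : l.Nodup) (h' : l'.Nodup) (hd : ∀ x ∈ l', x ∉ l) :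
    (l ++ l').Nodup := by
  rw [List.nodup_append]
  refine ⟨h, h', fun x hx y hy hxy => hd y hy (hxy ▸ hx)⟩

section

variable {G : SimpleGraph V} {W : Set V} {p q b c y : V} {eb ec : ZMod 2}
  {lb ly lc : V} {A B C D Lb Lc Ly : List V}

/-- Exchange of `(p, lb, b)` and `(q, lc, c)`. -/
theorem Split.symm (h : Split G W p q b c y eb ec lb ly lc A B C D Lb Lc Ly) :
    Split G W q p c b y ec eb lc ly lb D.reverse C.reverse B.reverse A.reverse Lc Lb Ly := by
  classical
  refine ⟨ch_rev h.chD, ch_rev h.chC, ch_rev h.chB, ch_rev h.chA, h.chLc, h.lastLc, h.chLb,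
    h.lastLb, h.chLy, ?_, ?_, ?_, ?_, ?_, h.eLy, h.eLc, h.eLb, ?_⟩
  · refine nd_of h.nodup fun x => ?_
    simp only [List.count_append, List.count_cons, List.count_nil, List.count_reverse]
    omega
  · rw [List.length_reverse]; exact h.eD
  · rw [List.length_reverse]; exact h.eC
  · rw [List.length_reverse]; exact h.eB
  · rw [List.length_reverse]; exact h.eA
  · intro x hx
    have := h.mem x (by
      simp only [List.mem_append, List.mem_cons, List.mem_reverse, List.not_mem_nil,
        or_false] at hx ⊢
      tauto)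
    tauto

private lemma z2 (a : ZMod 2) : a + a = 0 := CharTwo.add_self_eq_zero a

/-- S2(b). -/
theorem Split.S2 (h : Split G W p q b c y eb ec lb ly lc A B C D Lb Lc Ly) (hpy : G.Adj p y)
    {R : Set V}
    (hR : ∀ x ∈ R, x ∉ [p, lb, ly, lc, q] ++ A ++ B ++ C ++ D ++ Lb ++ Ly ++ [y])
    {x : V} (hx : x ∈ R) {P1 P2 P3 : List V} (h1 : PathIn G R x p P1) (h2 : PathIn G R x q P2)
    (h3 : PathIn G R x b P3) (nd : (x :: (P1 ++ P2 ++ P3)).Nodup) (e1 : Even P1.length)
    (e2 : Even P2.length) (e3 : (P3.length : ZMod 2) = eb) : HasTOK4 G := by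
  classical
  have hbig : (([p, lb, ly, lc, q] ++ A ++ B ++ C ++ D ++ Lb ++ Ly ++ [y]) ++
      (x :: (P1 ++ P2 ++ P3))).Nodup := by
    refine nd_app ?_ nd ?_
    · refine nd_of h.nodup fun x => ?_
      simp only [List.count_append]
      omega
    · intro z hz
      refine hR z ?_
      simp only [List.mem_cons, List.mem_append] at hz
      rcases hz with rfl | (hz | hz) | hz
      · exact hx
      · exact h1.mem z hz
      · exact h2.mem z hz
      · exact h3.mem z hz
  refine hasTOK4_of_nodup (a := p) (b := lb) (c := ly) (d := x) (L01 := A)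
    (L02 := (Ly ++ [y]).reverse) (L03 := P1.reverse) (L12 := B) (L13 := Lb ++ P3.reverse)
    (L23 := C ++ lc :: (D ++ q :: P2.reverse)) h.chA ?_ (ch_rev h1.ch) h.chB
    (ch_leg h.chLb h.lastLb (ch_rev h3.ch)) (ch_app h.chC (ch_app h.chD (ch_rev h2.ch)))
    h.eA ?_ ?_ h.eB ?_ ?_ ?_
  · exact ch_rev (ch_app h.chLy (ch_edge hpy.symm))
  · rw [List.length_reverse, List.length_append, List.length_singleton]
    exact h.eLy.add_one
  · rw [List.length_reverse]; exact e1
  · apply even_of_cast
    rw [List.length_append, List.length_reverse]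
    push_cast
    rw [e3, h.eLb, z2]
  · apply even_of_cast
    simp only [List.length_append, List.length_cons, List.length_reverse]
    push_cast
    rw [even_cast h.eC, even_cast h.eD, even_cast e2]
    decide
  · refine nd_of hbig fun z => ?_
    simp only [List.count_append, List.count_cons, List.count_nil, List.count_reverse]
    omega

/-- S8 with `t = p`. -/
theorem Split.S8 (h : Split G W p q b c y eb ec lb ly lc A B C D Lb Lc Ly) (hpy : G.Adj p y)
    (hqy : G.Adj q y) {R : Set V}
    (hR : ∀ x ∈ R, x ∉ [p, lb, ly, lc, q] ++ A ++ B ++ C ++ D ++ Lb ++ Lc ++ Ly ++ [y])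
    {x : V} (hx : x ∈ R) {P1 Pb Pc : List V} (h1 : PathIn G R x p P1) (h2 : PathIn G R x b Pb)
    (h3 : PathIn G R x c Pc) (nd : (x :: (P1 ++ Pb ++ Pc)).Nodup) (e1 : Even P1.length)
    (e2 : (Pb.length : ZMod 2) = eb) (e3 : (Pc.length : ZMod 2) = ec) : HasTOK4 G := by
  classical
  have hbig : (([p, lb, ly, lc, q] ++ A ++ B ++ C ++ D ++ Lb ++ Lc ++ Ly ++ [y]) ++
      (x :: (P1 ++ Pb ++ Pc))).Nodup := by
    refine nd_app h.nodup nd ?_
    intro z hz
    refine hR z ?_
    simp only [List.mem_cons, List.mem_append] at hz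
    rcases hz with rfl | (hz | hz) | hz
    · exact hx
    · exact h1.mem z hz
    · exact h2.mem z hz
    · exact h3.mem z hz
  refine hasTOK4_of_nodup (a := p) (b := lb) (c := y) (d := x) (L01 := A)
    (L02 := []) (L03 := P1.reverse) (L12 := B ++ ly :: Ly) (L13 := Lb ++ Pb.reverse)
    (L23 := [] ++ q :: (D.reverse ++ lc :: (Lc ++ Pc.reverse))) h.chA (ch_edge hpy)
    (ch_rev h1.ch) (ch_app h.chB h.chLy)
    (ch_leg h.chLb h.lastLb (ch_rev h2.ch)) ?_
    h.eA Even.zero ?_ ?_ ?_ ?_ ?_
  · exact ch_app (ch_edge hqy.symm) (ch_app (ch_rev h.chD)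
      (ch_leg h.chLc h.lastLc (ch_rev h3.ch)))
  · rw [List.length_reverse]; exact e1
  · apply even_of_cast
    simp only [List.length_append, List.length_cons]
    push_cast
    rw [even_cast h.eB, odd_cast h.eLy]
    decide
  · apply even_of_cast
    rw [List.length_append, List.length_reverse]
    push_cast
    rw [e2, h.eLb, z2]
  · apply even_of_cast
    simp only [List.length_append, List.length_cons, List.length_reverse, List.length_nil]
    push_cast
    rw [even_cast h.eD, h.eLc, e3]
    generalize ec = e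
    revert e; decide
  · refine nd_of hbig fun z => ?_
    simp only [List.count_append, List.count_cons, List.count_nil, List.count_reverse]
    omega

/-- T3(c): the third leg ends in `q`. -/
theorem Split.T3 (h : Split G W p q b c y eb ec lb ly lc A B C D Lb Lc Ly)
    (hqy : G.Adj q y) {R : Set V}
    (hR : ∀ x ∈ R, x ∉ [p, lb, ly, lc, q] ++ A ++ B ++ C ++ D ++ Lb ++ Lc ++ Ly ++ [y])
    {x : V} (hx : x ∈ R) {P1 Pb Pc : List V} (h1 : PathIn G R x q P1) (h2 : PathIn G R x b Pb)
    (h3 : PathIn G R x c Pc) (nd : (x :: (P1 ++ Pb ++ Pc)).Nodup) (e1 : Even P1.length)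
    (e2 : (Pb.length : ZMod 2) = eb + 1) (e3 : (Pc.length : ZMod 2) = ec) : HasTOK4 G := by
  classical
  have hbig : (([p, lb, ly, lc, q] ++ A ++ B ++ C ++ D ++ Lb ++ Lc ++ Ly ++ [y]) ++
      (x :: (P1 ++ Pb ++ Pc))).Nodup := by
    refine nd_app h.nodup nd ?_
    intro z hz
    refine hR z ?_
    simp only [List.mem_cons, List.mem_append] at hz
    rcases hz with rfl | (hz | hz) | hz
    · exact hx
    · exact h1.mem z hz
    · exact h2.mem z hz
    · exact h3.mem z hz
  refine hasTOK4_of_nodup (a := q) (b := lc) (c := ly) (d := x) (L01 := D.reverse)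
    (L02 := (Ly ++ [y]).reverse) (L03 := P1.reverse) (L12 := C.reverse)
    (L13 := Lc ++ Pc.reverse) (L23 := B.reverse ++ lb :: (Lb ++ Pb.reverse)) (ch_rev h.chD) ?_
    (ch_rev h1.ch) (ch_rev h.chC) (ch_leg h.chLc h.lastLc (ch_rev h3.ch)) ?_
    ?_ ?_ ?_ ?_ ?_ ?_ ?_
  · exact ch_rev (ch_app h.chLy (ch_edge hqy.symm))
  · exact ch_app (ch_rev h.chB) (ch_leg h.chLb h.lastLb (ch_rev h2.ch))
  · rw [List.length_reverse]; exact h.eD
  · rw [List.length_reverse, List.length_append, List.length_singleton]
    exact h.eLy.add_one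
  · rw [List.length_reverse]; exact e1
  · rw [List.length_reverse]; exact h.eC
  · apply even_of_cast
    rw [List.length_append, List.length_reverse]
    push_cast
    rw [e3, h.eLc, z2]
  · apply even_of_cast
    simp only [List.length_append, List.length_cons, List.length_reverse]
    push_cast
    rw [even_cast h.eB, h.eLb, e2]
    generalize eb = e
    revert e; decide
  · refine nd_of hbig fun z => ?_
    simp only [List.count_append, List.count_cons, List.count_nil, List.count_reverse]
    omega

/-- S3(b): `eb = 1` means that `b` has the colour of `p`. -/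
theorem Split.S3 (h : Split G W p q b c y 1 ec lb ly lc A B C D Lb Lc Ly) (hpy : G.Adj p y)
    {R : Set V}
    (hR : ∀ x ∈ R, x ∉ [p, lb, ly, lc, q] ++ A ++ B ++ C ++ D ++ Lb ++ Ly ++ [y])
    {P1 P2 : List V} (h1 : PathIn G R b p P1) (h2 : PathIn G R b q P2)
    (nd : (P1 ++ P2).Nodup) (e1 : Even P1.length) (e2 : Even P2.length) : HasTOK4 G := by
  classical
  have hne : Lb ≠ [] := by
    rintro rfl
    have := h.eLb
    simp at this
  obtain ⟨L, rfl⟩ := leg_split h.lastLb hne
  have hL := h.eLb
  rw [List.length_append, List.length_singleton] at hL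
  push_cast at hL
  have hL' : (L.length : ZMod 2) = 0 := by
    generalize (L.length : ZMod 2) = e at *
    revert hL e; decide
  have hchL : List.IsChain G.Adj (lb :: (L ++ [b])) := h.chLb
  have hbig : (([p, lb, ly, lc, q] ++ A ++ B ++ C ++ D ++ (L ++ [b]) ++ Ly ++ [y]) ++
      (P1 ++ P2)).Nodup := by
    refine nd_app ?_ nd ?_
    · refine nd_of h.nodup fun x => ?_
      simp only [List.count_append]
      omega
    · intro z hz
      refine hR z ?_
      simp only [List.mem_append] at hz
      rcases hz with hz | hz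
      · exact h1.mem z hz
      · exact h2.mem z hz
  refine hasTOK4_of_nodup (a := b) (b := p) (c := lb) (d := ly) (L01 := P1)
    (L02 := L.reverse) (L03 := P2 ++ q :: (D.reverse ++ lc :: C.reverse)) (L12 := A)
    (L13 := (Ly ++ [y]).reverse) (L23 := B) h1.ch (ch_rev hchL)
    (ch_app h2.ch (ch_app (ch_rev h.chD) (ch_rev h.chC))) h.chA ?_ h.chB e1 ?_ ?_ h.eA ?_ h.eB ?_
  · exact ch_rev (ch_app h.chLy (ch_edge hpy.symm))
  · rw [List.length_reverse]; exact even_of_cast hL'
  · apply even_of_cast
    simp only [List.length_append, List.length_cons, List.length_reverse]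
    push_cast
    rw [even_cast h.eC, even_cast h.eD, even_cast e2]
    decide
  · rw [List.length_reverse, List.length_append, List.length_singleton]
    exact h.eLy.add_one
  · refine nd_of hbig fun z => ?_
    simp only [List.count_append, List.count_cons, List.count_nil, List.count_reverse]
    omega

/-- S1. -/
theorem Split.S1 (h : Split G W p q b c y eb ec lb ly lc A B C D Lb Lc Ly) (hpy : G.Adj p y)
    {R : Set V}
    (hR : ∀ x ∈ R, x ∉ [p, lb, ly, lc, q] ++ A ++ B ++ C ++ D ++ Lb ++ Lc ++ Ly ++ [y])
    {P1 P2 : List V} (h1 : PathIn G R p q P1) (h2 : PathIn G R b c P2)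
    (nd : (P1 ++ P2).Nodup) (e1 : Odd P1.length) (e2 : (P2.length : ZMod 2) = eb + ec) :
    HasTOK4 G := by
  classical
  have hbig : (([p, lb, ly, lc, q] ++ A ++ B ++ C ++ D ++ Lb ++ Lc ++ Ly ++ [y]) ++
      (P1 ++ P2)).Nodup := by
    refine nd_app h.nodup nd ?_
    intro z hz
    refine hR z ?_
    simp only [List.mem_append] at hz
    rcases hz with hz | hz
    · exact h1.mem z hz
    · exact h2.mem z hz
  refine hasTOK4_of_nodup (a := p) (b := lb) (c := ly) (d := lc) (L01 := A)
    (L02 := (Ly ++ [y]).reverse) (L03 := P1 ++ q :: D.reverse) (L12 := B)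
    (L13 := Lb ++ (P2 ++ Lc.reverse)) (L23 := C) h.chA ?_
    (ch_app h1.ch (ch_rev h.chD)) h.chB
    (ch_leg h.chLb h.lastLb (ch_leg' h.chLc h.lastLc h2.ch)) h.chC h.eA ?_ ?_ h.eB ?_ h.eC ?_
  · exact ch_rev (ch_app h.chLy (ch_edge hpy.symm))
  · rw [List.length_reverse, List.length_append, List.length_singleton]
    exact h.eLy.add_one
  · apply even_of_cast
    simp only [List.length_append, List.length_cons, List.length_reverse]
    push_cast
    rw [even_cast h.eD, odd_cast e1]
    decide
  · apply even_of_cast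
    simp only [List.length_append, List.length_reverse]
    push_cast
    rw [h.eLb, h.eLc, e2]
    generalize eb = e
    generalize ec = e'
    revert e e'; decide
  · refine nd_of hbig fun z => ?_
    simp only [List.count_append, List.count_cons, List.count_nil, List.count_reverse]
    omega

/-- E: `b` black (`eb = 1`), `c` white (`ec = 0`), `x` adjacent to `p, b, c`, and an odd path from
`p` to `b` (interior `M`) which may use `y` and `q`. -/
theorem Split.E (h : Split G W p q b c y 1 0 lb ly lc A B C D Lb Lc Ly)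
    {x : V} (hxp : G.Adj x p) (hxb : G.Adj x b) (hxc : G.Adj x c) {M : List V}
    (hM : List.IsChain G.Adj (p :: (M ++ [b]))) (ndM : M.Nodup) (eM : Even M.length)
    (hMx : x ∉ M) (hx : x ∉ [p, lb, ly, lc, q] ++ A ++ B ++ C ++ D ++ Lb ++ Lc ++ Ly ++ [y])
    (hd : ∀ z ∈ M, z ∉ [p, lb, ly, lc] ++ A ++ B ++ C ++ Lb ++ Lc) : HasTOK4 G := by
  classical
  have hne : Lb ≠ [] := by
    rintro rfl
    have := h.eLb
    simp at this
  obtain ⟨L, rfl⟩ := leg_split h.lastLb hne
  have hL := h.eLb
  rw [List.length_append, List.length_singleton] at hL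
  push_cast at hL
  have hL' : (L.length : ZMod 2) = 0 := by
    generalize (L.length : ZMod 2) = e at *
    revert hL e; decide
  have hchL : List.IsChain G.Adj (lb :: (L ++ [b])) := h.chLb
  have hbig : (([p, lb, ly, lc] ++ A ++ B ++ C ++ (L ++ [b]) ++ Lc) ++ (x :: M)).Nodup := by
    refine nd_app ?_ (List.nodup_cons.2 ⟨hMx, ndM⟩) ?_
    · refine nd_of h.nodup fun x => ?_
      simp only [List.count_append, List.count_cons, List.count_nil]
      omega
    · intro z hz
      rw [List.mem_cons] at hz
      rcases hz with rfl | hz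
      · intro hz
        apply hx
        simp only [List.mem_append, List.mem_cons, List.not_mem_nil, or_false] at hz ⊢
        tauto
      · exact hd z hz
  refine hasTOK4_of_nodup (a := lb) (b := p) (c := b) (d := x) (L01 := A.reverse)
    (L02 := L) (L03 := B ++ ly :: (C ++ lc :: (Lc ++ []))) (L12 := M)
    (L13 := []) (L23 := []) (ch_rev h.chA) hchL
    (ch_app h.chB (ch_app h.chC (ch_leg h.chLc h.lastLc (ch_edge hxc.symm)))) hM
    (ch_edge hxp.symm) (ch_edge hxb.symm) ?_ (even_of_cast hL') ?_ eM Even.zero Even.zero ?_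
  · rw [List.length_reverse]; exact h.eA
  · apply even_of_cast
    simp only [List.length_append, List.length_cons, List.length_nil]
    push_cast
    rw [even_cast h.eB, even_cast h.eC, h.eLc]
    decide
  · refine nd_of hbig fun z => ?_
    simp only [List.count_append, List.count_cons, List.count_nil, List.count_reverse]
    omega

end

end Pool.Agent.Helper97.OT
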