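import Pool.Agent.Helper97.O3.Fan2
import Pool.Agent.Helper97.O3.Gadgets

/-!
# O3: the rest is bipartite (F3 of the note)
-/

set_option autoImplicit false

namespace Pool.Agent.Helper97.OT

open SimpleGraph Pool.Agent.Helper57.TOK Pool.Agent.Helper57.TD Pool.Agent.Helper82.TK
  Pool.Agent.Helper51.GX

variable {V : Type*} {G : SimpleGraph V} {U W : Set V} {κ : V → ZMod 2} {p q r b c y : V}

/-- parity of the walks of a properly coloured graph -/
private lemma o37_parity {H : SimpleGraph V} {l : V → ZMod 2} (hl : ∀ u v, H.Adj u v → l u ≠ l v)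
    {a b : V} (w : H.Walk a b) : (w.length : ZMod 2) = l a + l b := by
  induction w with
  | nil =>
    rw [Walk.length_nil, Nat.cast_zero, CharTwo.add_self_eq_zero]
  | @cons u v w' h p ih =>
    rw [Walk.length_cons, Nat.cast_add, ih, Nat.cast_one]
    have h1 := hl u v h
    generalize l u = x at h1 ⊢
    generalize l v = y at h1 ⊢
    generalize l w' = z
    revert x y z
    decide

/-- the interior of a walk -/
private lemma o37_interior {H : SimpleGraph V} {a b : V} (w : H.Walk a b) (hab : a ≠ b) :
    ∃ L : List V, w.support = a :: (L ++ [b]) ∧ L.length + 1 = w.length := by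
  cases w with
  | nil => exact absurd rfl hab
  | @cons _ v _ h p =>
    refine ⟨p.support.dropLast, ?_, ?_⟩
    · rw [Walk.support_cons]
      congr 1
      have h1 := List.dropLast_append_getLast p.support_ne_nil
      rw [Walk.getLast_support] at h1
      exact h1.symm
    · rw [List.length_dropLast, Walk.length_support, Walk.length_cons]
      rfl

/-- a walk stays in a set which contains all ends of edges -/
private lemma o37_mem {H : SimpleGraph V} {S : Set V} (hS : ∀ x y, H.Adj x y → y ∈ S) {a b : V}
    (p : H.Walk a b) (ha : a ∈ S) : ∀ x ∈ p.support, x ∈ S := by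
  induction p with
  | nil =>
    intro x hx
    rw [Walk.support_nil, List.mem_singleton] at hx
    rwa [hx]
  | cons h q ih =>
    intro x hx
    rw [Walk.support_cons, List.mem_cons] at hx
    rcases hx with rfl | hx
    · exact ha
    · exact ih (hS _ _ h) x hx

/-- two legs -/
private lemma o37_legs {H : SimpleGraph V} {r p q : V} (hr : r ∉ ({p, q} : Set V)) (hpq : p ≠ q)
    (h : Fan H r {p, q} 2) : ∃ (P : H.Walk r p) (Q : H.Walk r q), P.IsPath ∧ Q.IsPath ∧
      q ∉ P.support ∧ p ∉ Q.support ∧ ∀ x, x ∈ P.support → x ∈ Q.support → x = r := by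
  obtain ⟨b', P, h1, h2, h3⟩ := h
  have hinj : Function.Injective b' := Fan.injective_end hr (fun i => (h1 i).1) h3
  have hne : b' 0 ≠ b' 1 := fun hh => absurd (hinj hh) (by decide)
  have h0 := (h1 0).1
  have h1' := (h1 1).1
  rw [Set.mem_insert_iff, Set.mem_singleton_iff] at h0 h1'
  rcases h0 with h0 | h0 <;> rcases h1' with h1' | h1'
  · exact absurd (h0.trans h1'.symm) hne
  · refine ⟨(P 0).copy rfl h0, (P 1).copy rfl h1', ?_, ?_, ?_, ?_, ?_⟩
    · rw [Walk.isPath_copy]; exact (h1 0).2
    · rw [Walk.isPath_copy]; exact (h1 1).2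
    · rw [Walk.support_copy]
      intro hh
      exact hpq ((h2 0 q hh (by simp)).trans h0).symm
    · rw [Walk.support_copy]
      intro hh
      exact hpq ((h2 1 p hh (by simp)).trans h1')
    · intro x hx hx'
      rw [Walk.support_copy] at hx hx'
      exact h3 0 1 (by decide) x hx hx'
  · refine ⟨(P 1).copy rfl h1', (P 0).copy rfl h0, ?_, ?_, ?_, ?_, ?_⟩
    · rw [Walk.isPath_copy]; exact (h1 1).2
    · rw [Walk.isPath_copy]; exact (h1 0).2
    · rw [Walk.support_copy]
      intro hh
      exact hpq ((h2 1 q hh (by simp)).trans h1').symm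
    · rw [Walk.support_copy]
      intro hh
      exact hpq ((h2 0 p hh (by simp)).trans h0)
    · intro x hx hx'
      rw [Walk.support_copy] at hx hx'
      exact h3 1 0 (by decide) x hx hx'
  · exact absurd (h0.trans h1'.symm) hne

/-- a leg as a list -/
private lemma o37_leg [Finite V] (h : O3 G U κ W p q r b c y) {t : V} (ht : κ t = κ p) (hrt : r ≠ t)
    (P : (delG (atG G W) {y}).Walk r t) (hP : P.IsPath) :
    ∃ L : List V, List.IsChain G.Adj (r :: (L ++ [t])) ∧ Even L.length ∧ L.Nodup ∧
      (∀ x ∈ L, x ∈ P.support ∧ x ≠ r ∧ x ≠ t ∧ x ≠ y ∧ x ∉ Rs G U W) := by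
  obtain ⟨L, hL1, hL2⟩ := o37_interior P hrt
  have hyW : y ∉ W := by
    have : y ∈ Nb G W := by rw [h.NW]; simp
    exact this.1
  have hry : r ∉ ({y} : Set V) := by
    rw [Set.mem_singleton_iff]
    rintro rfl
    exact hyW h.rW
  have hnd : (r :: (L ++ [t])).Nodup := by
    rw [← hL1]
    exact hP.support_nodup
  rw [List.nodup_cons, List.nodup_append] at hnd
  obtain ⟨hr1, hr2, -, hr3⟩ := hnd
  refine ⟨L, ?_, ?_, hr2, ?_⟩
  · rw [← hL1]
    exact (P.isChain_adj_support).imp fun a b hab => hab.1.1
  · have h1 : ((P.length : ℕ) : ZMod 2) = κ r + κ t := by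
      apply o37_parity (l := κ) _ P
      rintro u v ⟨⟨h1, h2⟩, -⟩
      rcases h2 with h2 | h2
      · exact h.bal u v h2 h1
      · exact (h.bal v u h2 h1.symm).symm
    have h2 : κ r ≠ κ t := by
      rw [ht]
      exact h.κr
    have h3 : κ r + κ t = 1 := by
      generalize κ r = x at h2 ⊢
      generalize κ t = z at h2 ⊢
      revert x z
      decide
    rw [h3, ZMod.natCast_eq_one_iff_odd, ← hL2] at h1
    rcases Nat.even_or_odd L.length with h4 | h4
    · exact h4
    · exact absurd h4.add_one (Nat.not_even_iff_odd.2 h1)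
  · intro x hx
    have hxs : x ∈ P.support := by
      rw [hL1]
      simp [hx]
    refine ⟨hxs, ?_, ?_, ?_, ?_⟩
    · rintro rfl
      exact hr1 (List.mem_append.2 (Or.inl hx))
    · rintro rfl
      exact hr3 x hx x (List.mem_singleton.2 rfl) rfl
    · rintro rfl
      exact notMem_of_mem_support_delG P hry x hxs rfl
    · have hmem : x ∈ W ∪ Nb G W := by
        refine o37_mem (S := W ∪ Nb G W) ?_ P (Or.inl h.rW) x hxs
        rintro u v ⟨⟨h1, h2⟩, -⟩
        by_cases hv : v ∈ W
        · exact Or.inl hv
        · rcases h2 with h2 | h2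
          · exact Or.inr ⟨hv, u, h2, h1⟩
          · exact absurd h2 hv
      exact fun hR => hR.2 hmem

/-- No odd path from `p` to `q` through the rest: TOK4 `{y, r, p, q}` otherwise. -/
theorem O3.noodd [Finite V] (h : O3 G U κ W p q r b c y) {L : List V}
    (hL : PathIn G (Rs G U W) p q L) : Odd L.length := by
  by_contra hcon
  rw [Nat.not_odd_iff_even] at hcon
  have hpN : p ∈ Nb G W := by rw [h.NW]; simp
  have hqN : q ∈ Nb G W := by rw [h.NW]; simp
  have hyN : y ∈ Nb G W := by rw [h.NW]; simp
  have hrp : r ≠ p := fun hh => hpN.1 (hh ▸ h.rW)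
  have hrq : r ≠ q := fun hh => hqN.1 (hh ▸ h.rW)
  have hyr : y ≠ r := fun hh => hyN.1 (hh ▸ h.rW)
  have ayp : G.Adj y p := by
    have : p ∈ G.neighborSet y := by rw [h.Ny]; simp
    exact this
  have ayq : G.Adj y q := by
    have : q ∈ G.neighborSet y := by rw [h.Ny]; simp
    exact this
  have ayr : G.Adj y r := by
    have : r ∈ G.neighborSet y := by rw [h.Ny]; simp
    exact this
  have hrn : r ∉ ({p, q} : Set V) := by
    rw [Set.mem_insert_iff, Set.mem_singleton_iff]
    rintro (hh | hh)
    · exact hrp hh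
    · exact hrq hh
  obtain ⟨P, Q, hP, hQ, hqP, hpQ, hPQ⟩ := o37_legs hrn h.pq h.fan2
  obtain ⟨Lp, p1, p2, p3, p4⟩ := o37_leg h rfl hrp P hP
  obtain ⟨Lq, q1, q2, q3, q4⟩ := o37_leg h h.κpq.symm hrq Q hQ
  have hR : ∀ x ∈ L, x ≠ y ∧ x ≠ r ∧ x ≠ p ∧ x ≠ q := by
    intro x hx
    have h1 := (hL.mem x hx).2
    refine ⟨?_, ?_, ?_, ?_⟩
    · rintro rfl; exact h1 (Or.inr hyN)
    · rintro rfl; exact h1 (Or.inl h.rW)
    · rintro rfl; exact h1 (Or.inr hpN)
    · rintro rfl; exact h1 (Or.inr hqN)
  refine h.base.noT (hasTOK4_of_nodup (G := G) (a := y) (b := r) (c := p) (d := q) (L01 := [])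
    (L02 := []) (L03 := []) (L12 := Lp) (L13 := Lq) (L23 := L) ?_ ?_ ?_ p1 q1 hL.ch ?_ ?_ ?_ p2 q2
    hcon ?_)
  · simpa using ayr
  · simpa using ayp
  · simpa using ayq
  · simp
  · simp
  · simp
  · have hLp : ∀ x ∈ Lp, x ≠ q := by
      rintro x hx rfl
      exact hqP (p4 x hx).1
    have hLq : ∀ x ∈ Lq, x ≠ p := by
      rintro x hx rfl
      exact hpQ (q4 x hx).1
    simp only [List.append_nil]
    rw [List.nodup_append, List.nodup_append, List.nodup_append]
    refine ⟨⟨⟨?_, p3, ?_⟩, q3, ?_⟩, hL.nd, ?_⟩
    · simp only [List.nodup_cons, List.mem_cons, List.not_mem_nil, or_false, not_or,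
        List.nodup_nil, and_true, not_false_eq_true]
      exact ⟨⟨hyr, ayp.ne, ayq.ne⟩, ⟨hrp, hrq⟩, h.pq⟩
    · intro x hx x' hx'
      rintro rfl
      simp only [List.mem_cons, List.not_mem_nil, or_false] at hx
      obtain ⟨-, h2, h3, h4, -⟩ := p4 x hx'
      rcases hx with hx | hx | hx | hx
      · exact h4 hx
      · exact h2 hx
      · exact h3 hx
      · exact hLp x hx' hx
    · intro x hx x' hx'
      rintro rfl
      obtain ⟨h1, h2, h3, h4, -⟩ := q4 x hx'
      rw [List.mem_append] at hx
      simp only [List.mem_cons, List.not_mem_nil, or_false] at hx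
      rcases hx with (hx | hx | hx | hx) | hx
      · exact h4 hx
      · exact h2 hx
      · exact hLq x hx' hx
      · exact h3 hx
      · exact h2 (hPQ x (p4 x hx).1 h1)
    · intro x hx x' hx'
      rintro rfl
      obtain ⟨h1, h2, h3, h4⟩ := hR x hx'
      rw [List.mem_append, List.mem_append] at hx
      simp only [List.mem_cons, List.not_mem_nil, or_false] at hx
      rcases hx with ((hx | hx | hx | hx) | hx) | hx
      · exact h1 hx
      · exact h2 hx
      · exact h3 hx
      · exact h4 hx
      · exact (p4 x hx).2.2.2.2 (hL.mem x hx')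
      · exact (q4 x hx).2.2.2.2 (hL.mem x hx')

/-- bypass preserves the parity if all cycles are even -/
private lemma o37_bypass [DecidableEq V] {H : SimpleGraph V}
    (hc : ∀ (z : V) (c : H.Walk z z), c.IsCycle → Even c.length) {a b : V} (w : H.Walk a b) :
    (w.length : ZMod 2) = (w.bypass.length : ZMod 2) := by
  induction w with
  | nil => rfl
  | @cons u v w' h p ih =>
    rw [Walk.length_cons, Nat.cast_add, ih, Nat.cast_one]
    have hbp : p.bypass.IsPath := Walk.bypass_isPath p
    by_cases hu : u ∈ p.bypass.support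
    · have h1 : (Walk.cons h p).bypass = p.bypass.dropUntil u hu := by
        simp only [Walk.bypass, dif_pos hu]
      rw [h1]
      have h2 : (p.bypass.takeUntil u hu).length + (p.bypass.dropUntil u hu).length =
          p.bypass.length := by
        rw [← Walk.length_append, Walk.take_spec]
      rw [← h2, Nat.cast_add]
      have h3 : Even ((p.bypass.takeUntil u hu).length + 1) := by
        have ht : (p.bypass.takeUntil u hu).IsPath := hbp.takeUntil hu
        by_cases he : s(u, v) ∈ (p.bypass.takeUntil u hu).edges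
        · have h4 : (p.bypass.takeUntil u hu).length = 1 := by
            have h5 := ht
            generalize p.bypass.takeUntil u hu = t at he h5
            cases t with
            | nil => simp at he
            | @cons _ x _ hx t' =>
              rw [Walk.cons_isPath_iff] at h5
              rw [Walk.edges_cons, List.mem_cons] at he
              rcases he with he | he
              · have hxu : x = u := by
                  rw [Sym2.eq_iff] at he
                  rcases he with ⟨h6, -⟩ | ⟨h6, -⟩
                  · exact absurd h6 h.ne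
                  · exact h6.symm
                subst hxu
                cases t' with
                | nil => rfl
                | cons hy t'' =>
                  exfalso
                  have h8 := h5.1
                  rw [Walk.cons_isPath_iff] at h8
                  exact h8.2 t''.end_mem_support
              · exact absurd (Walk.snd_mem_support_of_mem_edges t' he) h5.2
          rw [h4]
          exact ⟨1, rfl⟩
        · have h5 := hc u (Walk.cons h (p.bypass.takeUntil u hu))
            ((Walk.cons_isCycle_iff _ h).2 ⟨ht, he⟩)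
          rwa [Walk.length_cons] at h5
      obtain ⟨k, hk⟩ := h3
      have h4 : (((p.bypass.takeUntil u hu).length + 1 : ℕ) : ZMod 2) = 0 := by
        rw [hk, Nat.cast_add, CharTwo.add_self_eq_zero]
      rw [Nat.cast_add, Nat.cast_one] at h4
      calc ((p.bypass.takeUntil u hu).length : ZMod 2) + ((p.bypass.dropUntil u hu).length : ZMod 2) +
            1 = (((p.bypass.takeUntil u hu).length : ZMod 2) + 1) +
              ((p.bypass.dropUntil u hu).length : ZMod 2) := by ring
        _ = ((p.bypass.dropUntil u hu).length : ZMod 2) := by rw [h4, zero_add]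
    · have h1 : (Walk.cons h p).bypass = Walk.cons h p.bypass := by
        simp only [Walk.bypass, dif_neg hu]
      rw [h1, Walk.length_cons, Nat.cast_add, Nat.cast_one]

/-- the graph `G[R + p + q]` -/
private def o37H (G : SimpleGraph V) (S : Set V) : SimpleGraph V where
  Adj u v := G.Adj u v ∧ u ∈ S ∧ v ∈ S
  symm := ⟨fun _ _ h => ⟨h.1.symm, h.2.2, h.2.1⟩⟩
  loopless := ⟨fun _ h => h.1.ne rfl⟩

/-- paths of `G[R + p + q]` from `p` to `q` are even -/
private lemma o37_even [Finite V] (h : O3 G U κ W p q r b c y)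
    (w : (o37H G (Rs G U W ∪ {p, q})).Walk p q) (hw : w.IsPath) : Even w.length := by
  obtain ⟨L, hL1, hL2⟩ := o37_interior w h.pq
  have hnd : (p :: (L ++ [q])).Nodup := by
    rw [← hL1]
    exact hw.support_nodup
  rw [List.nodup_cons, List.nodup_append] at hnd
  obtain ⟨hr1, hr2, -, hr3⟩ := hnd
  have hPI : PathIn G (Rs G U W) p q L := by
    refine ⟨?_, hr2, ?_⟩
    · rw [← hL1]
      exact (w.isChain_adj_support).imp fun a b hab => hab.1
    · intro x hx
      have h1 : x ∈ Rs G U W ∪ {p, q} := by
        refine o37_mem (S := Rs G U W ∪ {p, q}) (fun u v (huv : (o37H G (Rs G U W ∪ {p, q})).Adj u v) => huv.2.2) w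
          (Or.inr (by simp)) x ?_
        rw [hL1]
        simp [hx]
      rcases h1 with h1 | h1
      · exact h1
      · rw [Set.mem_insert_iff, Set.mem_singleton_iff] at h1
        rcases h1 with rfl | rfl
        · exact absurd (List.mem_append.2 (Or.inl hx)) hr1
        · exact absurd rfl (hr3 x hx x (List.mem_singleton.2 rfl))
  rw [← hL2]
  exact (h.noodd hPI).add_one

/-- `G[R + p + q]` has no odd cycle -/
private lemma o37_cycle [Finite V] (h : O3 G U κ W p q r b c y) (z : V)
    (C : (o37H G (Rs G U W ∪ {p, q})).Walk z z) (hC : C.IsCycle) : Even C.length := by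
  classical
  by_contra hodd
  rw [Nat.not_even_iff_odd] at hodd
  have hpN : p ∈ Nb G W := by rw [h.NW]; simp
  have hqN : q ∈ Nb G W := by rw [h.NW]; simp
  have hpq := h.pq
  -- the vertices of the cycle
  have hCS : ∀ x ∈ C.support, x ∈ Rs G U W ∪ {p, q} := by
    have hz : z ∈ Rs G U W ∪ {p, q} := by
      cases C with
      | nil => exact absurd rfl hC.ne_nil
      | cons hh _ => exact hh.2.1
    exact o37_mem (S := Rs G U W ∪ {p, q}) (fun u v (huv : (o37H G (Rs G U W ∪ {p, q})).Adj u v) => huv.2.2) C hz
  have hcard : 3 ≤ {x | x ∈ C.support}.ncard := by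
    have h1 : C.support.tail.toFinset.card = C.length := by
      rw [List.toFinset_card_of_nodup hC.support_nodup, List.length_tail, Walk.length_support]
      rfl
    have h2 : (C.support.tail.toFinset : Set V) ⊆ {x | x ∈ C.support} := by
      intro x hx
      exact List.mem_of_mem_tail (by simpa using hx)
    have h3 := Set.ncard_le_ncard h2 (Set.toFinite _)
    rw [Set.ncard_coe_finset, h1] at h3
    exact hC.three_le_length.trans h3
  by_cases hl : Linked (o37H G (Rs G U W ∪ {p, q})) {p, q} {x | x ∈ C.support} 2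
  · obtain ⟨a, o, P, h1, hA, hB, h2⟩ := Linked.trim hl
    have hane : a 0 ≠ a 1 := fun hh => absurd (injective_start h2 hh) (by decide)
    have hone : o 0 ≠ o 1 := fun hh => absurd (injective_end h2 hh) (by decide)
    have ho0 : o 0 ∈ C.support := (h1 0).2.1
    have ho1 : o 1 ∈ C.support := (h1 1).2.1
    set D := C.rotate (o 0) ho0 with hD
    have hDc : D.IsCycle := hC.rotate ho0
    have hDl : D.length = C.length := Walk.length_rotate _ _ _
    have hDs : ∀ x, x ∈ D.support ↔ x ∈ C.support := fun x => Walk.mem_support_rotate_iff _ _ _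
    have ho1D : o 1 ∈ D.support := (hDs _).2 ho1
    have ht : (D.takeUntil (o 1) ho1D).IsPath := hDc.isPath_takeUntil ho1D
    have htn : ¬ (D.takeUntil (o 1) ho1D).Nil := Walk.not_nil_of_ne hone
    have hd : (D.dropUntil (o 1) ho1D).IsPath := by
      apply Walk.IsCycle.isPath_of_append_right htn
      rw [Walk.take_spec]
      exact hDc
    have hlen : (D.takeUntil (o 1) ho1D).length + (D.dropUntil (o 1) ho1D).length = C.length := by
      rw [← Walk.length_append, Walk.take_spec, hDl]
    -- the arc with the right parity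
    obtain ⟨A, hAp, hAs, hApar⟩ : ∃ A : (o37H G (Rs G U W ∪ {p, q})).Walk (o 0) (o 1), A.IsPath ∧
        (∀ x ∈ A.support, x ∈ C.support) ∧ Odd ((P 0).length + A.length + (P 1).length) := by
      by_cases hpar : Odd ((P 0).length + (D.takeUntil (o 1) ho1D).length + (P 1).length)
      · exact ⟨_, ht, fun x hx => (hDs x).1 (Walk.support_takeUntil_subset_support _ _ hx), hpar⟩
      · refine ⟨(D.dropUntil (o 1) ho1D).reverse, hd.reverse, ?_, ?_⟩
        · intro x hx
          rw [Walk.support_reverse, List.mem_reverse] at hx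
          exact (hDs x).1 (Walk.support_dropUntil_subset_support _ _ hx)
        · rw [Walk.length_reverse]
          rw [← hlen] at hodd
          rw [Nat.not_odd_iff_even] at hpar
          rcases hpar with ⟨k, hk⟩
          rcases hodd with ⟨l, hl'⟩
          rw [Nat.odd_iff]
          omega
    -- the long path
    have hW1 : ((P 0).append A).IsPath := by
      apply isPath_append_of _ _ (h1 0).2.2 hAp
      intro x hx hx'
      exact hB 0 x hx (hAs x hx')
    have hW2 : (((P 0).append A).append (P 1).reverse).IsPath := by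
      apply isPath_append_of _ _ hW1 (h1 1).2.2.reverse
      intro x hx hx'
      rw [Walk.support_reverse, List.mem_reverse] at hx'
      rw [Walk.mem_support_append_iff] at hx
      rcases hx with hx | hx
      · exact absurd hx' (h2 0 1 (by decide) x hx)
      · exact hB 1 x hx' (hAs x hx)
    have hWl : Odd (((P 0).append A).append (P 1).reverse).length := by
      rw [Walk.length_append, Walk.length_append, Walk.length_reverse]
      exact hApar
    have ha0 := (h1 0).1
    have ha1 := (h1 1).1
    rw [Set.mem_insert_iff, Set.mem_singleton_iff] at ha0 ha1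
    rcases ha0 with ha0 | ha0 <;> rcases ha1 with ha1 | ha1
    · exact hane (ha0.trans ha1.symm)
    · have h3 := o37_even h ((((P 0).append A).append (P 1).reverse).copy ha0 ha1)
        (by rw [Walk.isPath_copy]; exact hW2)
      rw [Walk.length_copy] at h3
      exact (Nat.not_even_iff_odd.2 hWl) h3
    · have h3 := o37_even h ((((P 0).append A).append (P 1).reverse).reverse.copy ha1 ha0)
        (by rw [Walk.isPath_copy]; exact hW2.reverse)
      rw [Walk.length_copy, Walk.length_reverse] at h3
      exact (Nat.not_even_iff_odd.2 hWl) h3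
    · exact hane (ha0.trans ha1.symm)
  · have hns : ∃ S : Finset V, S.card < 2 ∧ Sep (o37H G (Rs G U W ∪ {p, q})) {p, q} {x | x ∈ C.support} (S : Set V) := by
      by_contra hcon
      push Not at hcon
      exact hl (menger (o37H G (Rs G U W ∪ {p, q})) _ _ 2 fun S hS => hcon S hS)
    obtain ⟨S, hS, hsep⟩ := hns
    set M := Reach (o37H G (Rs G U W ∪ {p, q})) {x | x ∈ C.support} (S : Set V) with hM
    have hMS : M ⊆ Rs G U W ∪ {p, q} := by
      rintro x ⟨a, ha, w, -⟩
      exact o37_mem (S := Rs G U W ∪ {p, q}) (fun u v (huv : (o37H G (Rs G U W ∪ {p, q})).Adj u v) => huv.2.2) w (hCS a ha) x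
        w.end_mem_support
    have hMpq : ∀ x ∈ M, x ∉ ({p, q} : Set V) := by
      rintro x ⟨a, ha, w, hw⟩ hx
      obtain ⟨v, hv, hvS⟩ := hsep.symm a ha x hx w
      exact hw v hv hvS
    have hMR : M ⊆ Rs G U W := by
      intro x hx
      rcases hMS hx with h1 | h1
      · exact h1
      · exact absurd h1 (hMpq x hx)
    have hNb : Nb G M ⊆ (S : Set V) ∪ {b, c} := by
      rintro v ⟨hv, u, hu, huv⟩
      have huR := hMR hu
      rcases h.adj_R huR huv with h1 | h1 | h1 | h1 | h1
      · left
        by_contra hvS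
        exact hv (reach_adj hu (show (o37H G (Rs G U W ∪ {p, q})).Adj u v from ⟨huv, Or.inl huR, Or.inl h1⟩) hvS)
      · left
        by_contra hvS
        exact hv (reach_adj hu (show (o37H G (Rs G U W ∪ {p, q})).Adj u v from
          ⟨huv, Or.inl huR, Or.inr (by rw [h1]; simp)⟩) hvS)
      · left
        by_contra hvS
        exact hv (reach_adj hu (show (o37H G (Rs G U W ∪ {p, q})).Adj u v from
          ⟨huv, Or.inl huR, Or.inr (by rw [h1]; simp)⟩) hvS)
      · right; rw [h1]; simp
      · right; rw [h1]; simp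
    have hN3 : (Nb G M).ncard ≤ 3 := by
      have h1 := Set.ncard_le_ncard hNb (Set.toFinite _)
      have h2 := Set.ncard_union_le (S : Set V) {b, c}
      rw [Set.ncard_coe_finset] at h2
      have h3 : ({b, c} : Set V).ncard ≤ 2 := by
        rw [Set.ncard_pair h.bc]
      omega
    have hM1 := h.small hMR hN3
    have hsub : {x | x ∈ C.support} \ (S : Set V) ⊆ M := by
      rintro x ⟨hx, hxS⟩
      exact reach_of_mem hx hxS
    have h3 := Set.ncard_le_ncard hsub (Set.toFinite _)
    have h4 := Set.le_ncard_sdiff (S : Set V) {x | x ∈ C.support} (Set.toFinite _)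
    rw [Set.ncard_coe_finset] at h4
    omega

/-- F3. -/
theorem O3.col [Finite V] (h : O3 G U κ W p q r b c y) : ∃ l, Col G κ W p q r b c y l := by
  classical
  set H := o37H G (Rs G U W ∪ {p, q}) with hH
  have hpN : p ∈ Nb G W := by rw [h.NW]; simp
  have hqN : q ∈ Nb G W := by rw [h.NW]; simp
  have hyN : y ∈ Nb G W := by rw [h.NW]; simp
  have hbN : b ∈ Nb G W := by rw [h.NW]; simp
  have hcN : c ∈ Nb G W := by rw [h.NW]; simp
  have ayp : G.Adj y p := by
    have : p ∈ G.neighborSet y := by rw [h.Ny]; simp
    exact this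
  have ayq : G.Adj y q := by
    have : q ∈ G.neighborSet y := by rw [h.Ny]; simp
    exact this
  have hby : ∀ a b' : V, ∀ w : H.Walk a b', (w.length : ZMod 2) = (w.bypass.length : ZMod 2) :=
    fun a b' w => o37_bypass (o37_cycle h) w
  -- closed walks are even
  have hloop : ∀ u, ∀ w : H.Walk u u, Even w.length := by
    intro u w
    have h1 := hby _ _ w
    have h2 : w.bypass.length = 0 := by
      exact Walk.nil_iff_length_eq.1 (Walk.isPath_iff_nil.1 (Walk.bypass_isPath w))
    rw [h2, Nat.cast_zero] at h1
    exact (ZMod.natCast_eq_zero_iff_even).1 h1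
  have hpq2 : ∀ w : H.Walk p q, Even w.length := by
    intro w
    have h1 := hby _ _ w
    have h2 := o37_even h w.bypass (Walk.bypass_isPath w)
    rw [(ZMod.natCast_eq_zero_iff_even).2 h2] at h1
    exact (ZMod.natCast_eq_zero_iff_even).1 h1
  obtain ⟨g⟩ := two_colorable_iff_forall_loop_even.2 hloop
  -- a colouring with values in `ZMod 2`
  obtain ⟨m, hm⟩ : ∃ m : V → ZMod 2, ∀ u v, H.Adj u v → m u ≠ m v :=
    ⟨fun v => (g v : Fin 2), fun u v huv => g.valid huv⟩
  set l0 : V → ZMod 2 := fun x => if H.Reachable p x then m x + (m p + κ p)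
    else m x + (m q + κ p) with hl0
  have hl0a : ∀ u v, H.Adj u v → l0 u ≠ l0 v := by
    intro u v huv
    have h1 := hm u v huv
    have h2 : H.Reachable p u ↔ H.Reachable p v :=
      ⟨fun hh => hh.trans huv.reachable, fun hh => hh.trans huv.symm.reachable⟩
    simp only [hl0]
    by_cases hu : H.Reachable p u
    · rw [if_pos hu, if_pos (h2.1 hu)]
      exact fun hh => h1 (add_right_cancel hh)
    · rw [if_neg hu, if_neg (fun hh => hu (h2.2 hh))]
      exact fun hh => h1 (add_right_cancel hh)
  have hl0p : l0 p = κ p := by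
    simp only [hl0]
    rw [if_pos (SimpleGraph.Reachable.refl p), ← add_assoc, CharTwo.add_self_eq_zero, zero_add]
  have hl0q : l0 q = κ p := by
    simp only [hl0]
    by_cases hq : H.Reachable p q
    · rw [if_pos hq]
      obtain ⟨w⟩ := hq
      have h1 := o37_parity hm w
      rw [(ZMod.natCast_eq_zero_iff_even).2 (hpq2 w)] at h1
      have h2 : m q = m p := by
        generalize m p = x at h1 ⊢
        generalize m q = x' at h1 ⊢
        revert x x'
        decide
      rw [h2, ← add_assoc, CharTwo.add_self_eq_zero, zero_add]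
    · rw [if_neg hq, ← add_assoc, CharTwo.add_self_eq_zero, zero_add]
  set l : V → ZMod 2 := fun x => if x ∈ Rs G U W then l0 x else if x = y then κ p + 1 else κ x
    with hl
  have hlR : ∀ x, x ∈ Rs G U W → l x = l0 x := fun x hx => if_pos hx
  have hlN : ∀ x, x ∉ Rs G U W → x ≠ y → l x = κ x := by
    intro x hx hxy
    simp only [hl]
    rw [if_neg hx, if_neg hxy]
  have hyR : y ∉ Rs G U W := fun hh => hh.2 (Or.inr hyN)
  have hly : l y = κ p + 1 := by
    change (if y ∈ Rs G U W then l0 y else if y = y then κ p + 1 else κ y) = κ p + 1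
    rw [if_neg hyR, if_pos rfl]
  have hWR : ∀ x ∈ W, x ∉ Rs G U W := fun x hx hh => hh.2 (Or.inl hx)
  have hNR : ∀ x ∈ Nb G W, x ∉ Rs G U W := fun x hx hh => hh.2 (Or.inr hx)
  have hlp : l p = κ p := hlN p (hNR p hpN) ayp.ne.symm
  have hlq : l q = κ p := (hlN q (hNR q hqN) ayq.ne.symm).trans h.κpq.symm
  have hlyne : l y ≠ κ p := by
    rw [hly]
    generalize κ p = x
    revert x
    decide
  have hlW : ∀ x ∈ W, l x = κ x := fun x hx => hlN x (hWR x hx) (fun hh => hyN.1 (hh ▸ hx))
  -- the main claim, one side in `W`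
  have key1 : ∀ u v, u ∈ W → G.Adj u v → v ≠ b → v ≠ c → s(u, v) ≠ s(y, r) → l u ≠ l v := by
    intro u v hu huv hvb hvc hs
    rw [hlW u hu]
    by_cases hv : v ∈ W
    · rw [hlW v hv]
      exact h.bal u v hu huv
    · have hvN : v ∈ Nb G W := ⟨hv, u, hu, huv⟩
      rw [h.NW] at hvN
      simp only [Set.mem_insert_iff, Set.mem_singleton_iff] at hvN
      rcases hvN with h1 | h1 | h1 | h1 | h1
      · subst h1
        rw [hlp]
        exact h.bal u v hu huv
      · subst h1
        rw [hlq, h.κpq]
        exact h.bal u v hu huv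
      · exact absurd h1 hvb
      · exact absurd h1 hvc
      · subst h1
        exfalso
        have h2 : u ∈ G.neighborSet v := huv.symm
        rw [h.Ny] at h2
        simp only [Set.mem_insert_iff, Set.mem_singleton_iff] at h2
        rcases h2 with h2 | h2 | h2
        · exact hpN.1 (h2 ▸ hu)
        · exact hqN.1 (h2 ▸ hu)
        · apply hs
          rw [h2, Sym2.eq_swap]
  -- outside `W`
  have hcls : ∀ u v, G.Adj u v → u ∉ W → u ≠ b → u ≠ c → u ∈ Rs G U W ∨ u = p ∨ u = q ∨ u = y := by
    intro u v huv hu hub huc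
    by_cases hR : u ∈ Rs G U W
    · exact Or.inl hR
    · right
      have h1 : u ∈ W ∪ Nb G W := by
        by_contra hcon
        exact hR ⟨h.base.edge_mem u v huv, hcon⟩
      rcases h1 with h1 | h1
      · exact absurd h1 hu
      · rw [h.NW] at h1
        simp only [Set.mem_insert_iff, Set.mem_singleton_iff] at h1
        rcases h1 with h1 | h1 | h1 | h1 | h1
        · exact Or.inl h1
        · exact Or.inr (Or.inl h1)
        · exact absurd h1 hub
        · exact absurd h1 huc
        · exact Or.inr (Or.inr h1)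
  have key2 : ∀ v, G.Adj y v → v ∉ W → v ≠ b → v ≠ c → l y ≠ l v := by
    intro v hv hvW hvb hvc
    have h1 : v ∈ G.neighborSet y := hv
    rw [h.Ny] at h1
    simp only [Set.mem_insert_iff, Set.mem_singleton_iff] at h1
    rcases h1 with h1 | h1 | h1
    · rw [h1, hlp]; exact hlyne
    · rw [h1, hlq]; exact hlyne
    · exact absurd (h1 ▸ h.rW) hvW
  have hval : ∀ u, u ∈ Rs G U W ∨ u = p ∨ u = q → l u = l0 u := by
    rintro u (h1 | h1 | h1)
    · exact hlR u h1
    · rw [h1, hlp, hl0p]
    · rw [h1, hlq, hl0q]
  refine ⟨l, hlW, hlp, hlq, hlN b (hNR b hbN) h.yb.symm, hlN c (hNR c hcN) h.yc.symm, hlyne, ?_⟩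
  intro u v huv hub huc hvb hvc hs
  by_cases hu : u ∈ W
  · exact key1 u v hu huv hvb hvc hs
  by_cases hv : v ∈ W
  · exact (key1 v u hv huv.symm hub huc (by rwa [Sym2.eq_swap])).symm
  by_cases huy : u = y
  · subst huy
    exact key2 v huv hv hvb hvc
  by_cases hvy : v = y
  · subst hvy
    exact (key2 u huv.symm hu hub huc).symm
  have hu' : u ∈ Rs G U W ∨ u = p ∨ u = q := by
    rcases hcls u v huv hu hub huc with h1 | h1 | h1 | h1
    · exact Or.inl h1
    · exact Or.inr (Or.inl h1)
    · exact Or.inr (Or.inr h1)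
    · exact absurd h1 huy
  have hv' : v ∈ Rs G U W ∨ v = p ∨ v = q := by
    rcases hcls v u huv.symm hv hvb hvc with h1 | h1 | h1 | h1
    · exact Or.inl h1
    · exact Or.inr (Or.inl h1)
    · exact Or.inr (Or.inr h1)
    · exact absurd h1 hvy
  rw [hval u hu', hval v hv']
  apply hl0a
  refine ⟨huv, ?_, ?_⟩
  · rcases hu' with h1 | h1 | h1
    · exact Or.inl h1
    · right; rw [h1]; simp
    · right; rw [h1]; simp
  · rcases hv' with h1 | h1 | h1
    · exact Or.inl h1
    · right; rw [h1]; simp
    · right; rw [h1]; simp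

end Pool.Agent.Helper97.OT
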