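import Pool.Agent.Helper97.O3.Defs
import Pool.Agent.Helper57.TD.TheoremD
import Pool.Agent.Helper82.TK.Index2
import Pool.Agent.Helper73.O3.SplitEdge

/-!
# VEE-LITE (section 5 of the note)

`G - z - {gh, kl}` is balanced, `z` is not adjacent to `g, h`: contradiction.
Society: `z` split by colours, `T = {z', z'', g, h}`, the two edges deleted.
-/

set_option autoImplicit false

namespace Pool.Agent.Helper97.OT

open SimpleGraph Pool.Agent.Helper57.TOK Pool.Agent.Helper57.TD Pool.Agent.Helper82.TK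
  Pool.Agent.Helper51.GX

variable {V : Type*}

/-- The graph without the two edges. -/
def dG (G : SimpleGraph V) (g h k l : V) : SimpleGraph V where
  Adj u v := G.Adj u v ∧ s(u, v) ≠ s(g, h) ∧ s(u, v) ≠ s(k, l)
  symm := ⟨fun u v hh => ⟨hh.1.symm, by rw [Sym2.eq_swap]; exact hh.2.1,
    by rw [Sym2.eq_swap]; exact hh.2.2⟩⟩
  loopless := ⟨fun _ hh => hh.1.ne rfl⟩

lemma dG_adj {G : SimpleGraph V} {g h k l u v : V} : (dG G g h k l).Adj u v ↔
    G.Adj u v ∧ s(u, v) ≠ s(g, h) ∧ s(u, v) ≠ s(k, l) := Iff.rfl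

lemma dG_le (G : SimpleGraph V) (g h k l : V) : dG G g h k l ≤ G := fun _ _ hh => hh.1

lemma dG_swap (G : SimpleGraph V) (g h k l : V) : dG G g h k l = dG G g h l k := by
  ext u v
  rw [dG_adj, dG_adj, Sym2.eq_swap (a := k)]

/-- The data of VEE-LITE. -/
structure VD (G : SimpleGraph V) (U : Set V) (κ : V → ZMod 2) (z g h k l : V) : Prop where
  base : Base G U
  gh : G.Adj g h
  kl : G.Adj k l
  zg : z ≠ g
  zh : z ≠ h
  zk : z ≠ k
  zl : z ≠ l
  gk : g ≠ k
  gl : g ≠ l
  hk : h ≠ k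
  hl : h ≠ l
  nzg : ¬ G.Adj z g
  nzh : ¬ G.Adj z h
  hx : ∀ x, G.neighborSet x ≠ {z, g, h}
  hκ : ∀ u v, G.Adj u v → u ≠ z → v ≠ z → s(u, v) ≠ s(g, h) → s(u, v) ≠ s(k, l) → κ u ≠ κ v

/-- The split graph. -/
abbrev ZG (G : SimpleGraph V) (κ : V → ZMod 2) (z g h k l : V) : SimpleGraph (V × ZMod 2) :=
  spG (dG G g h k l) (fun _ => 1) κ {z}

section

variable {G : SimpleGraph V} {U : Set V} {κ : V → ZMod 2} {z g h k l : V}

lemma VD.swap (hV : VD G U κ z g h k l) : VD G U κ z g h l k where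
  base := hV.base
  gh := hV.gh
  kl := hV.kl.symm
  zg := hV.zg
  zh := hV.zh
  zk := hV.zl
  zl := hV.zk
  gk := hV.gl
  gl := hV.gk
  hk := hV.hl
  hl := hV.hk
  nzg := hV.nzg
  nzh := hV.nzh
  hx := hV.hx
  hκ := by
    intro u v huv hu hv h1 h2
    refine hV.hκ u v huv hu hv h1 ?_
    rw [Sym2.eq_swap (a := k)]
    exact h2

lemma one_eq_add {a b : ZMod 2} (hab : a ≠ b) : 1 = a + b := by
  revert a b; decide

lemma eq_add_one_of_ne {a b : ZMod 2} (hab : a ≠ b) : b = a + 1 := by
  revert a b; decide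

lemma ne_add_one_vee (a : ZMod 2) : a ≠ a + 1 := by
  revert a; decide

lemma VD.off (hV : VD G U κ z g h k l) : BalOff (dG G g h k l) (fun _ => 1) {z} κ := by
  intro u v hu hv huv
  exact one_eq_add (hV.hκ u v huv.1 hu hv huv.2.1 huv.2.2)

lemma mem_left {a b c d : V} (hh : s(a, b) = s(c, d)) : (a = c ∧ b = d) ∨ (a = d ∧ b = c) := by
  rwa [Sym2.eq_iff] at hh

lemma VD.kgh (hV : VD G U κ z g h k l) : κ g = κ h := by
  by_contra hne
  refine hV.base.ind3 z k κ ?_
  intro u v hu hv huv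
  by_cases h1 : s(u, v) = s(g, h)
  · rcases mem_left h1 with ⟨rfl, rfl⟩ | ⟨rfl, rfl⟩
    · exact hne
    · exact fun hh => hne hh.symm
  · refine hV.hκ u v huv (fun hh => hu (Or.inl hh)) (fun hh => hv (Or.inl hh)) h1 ?_
    intro h2
    rcases mem_left h2 with ⟨h3, -⟩ | ⟨-, h3⟩
    · exact hu (Or.inr h3)
    · exact hv (Or.inr h3)

lemma VD.zU (hV : VD G U κ z g h k l) : z ∈ U := by
  by_contra hz
  refine hV.base.ind3 g k κ ?_
  intro u v hu hv huv
  have hu' : u ≠ z := fun hh => hz (hh ▸ hV.base.edge_mem u v huv)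
  have hv' : v ≠ z := fun hh => hz (hh ▸ hV.base.edge_mem v u huv.symm)
  refine hV.hκ u v huv hu' hv' ?_ ?_
  · intro h2
    rcases mem_left h2 with ⟨h3, -⟩ | ⟨-, h3⟩
    · exact hu (Or.inl h3)
    · exact hv (Or.inl h3)
  · intro h2
    rcases mem_left h2 with ⟨h3, -⟩ | ⟨-, h3⟩
    · exact hu (Or.inr h3)
    · exact hv (Or.inr h3)

lemma VD.gU (hV : VD G U κ z g h k l) : g ∈ U := hV.base.edge_mem g h hV.gh
lemma VD.hU (hV : VD G U κ z g h k l) : h ∈ U := hV.base.edge_mem h g hV.gh.symm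
lemma VD.kU (hV : VD G U κ z g h k l) : k ∈ U := hV.base.edge_mem k l hV.kl
lemma VD.lU (hV : VD G U κ z g h k l) : l ∈ U := hV.base.edge_mem l k hV.kl.symm

/-- An edge of `G` at a vertex outside `{z, g, h}` which is not `kl` is an edge of `dG`. -/
lemma VD.adj (_ : VD G U κ z g h k l) {u v : V} (hu : u ∉ ({z, g, h} : Set V))
    (huv : G.Adj u v) (h1 : s(u, v) ≠ s(k, l)) : (dG G g h k l).Adj u v := by
  refine ⟨huv, ?_, h1⟩
  intro h2
  rcases mem_left h2 with ⟨h3, -⟩ | ⟨h3, -⟩
  · exact hu (Or.inr (Or.inl h3))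
  · exact hu (Or.inr (Or.inr h3))

/-- Small boundary in `G`: all four terminals are seen. -/
lemma VD.small [Finite V] (hV : VD G U κ z g h k l) {Y : Set V} (hY : Y ⊆ U \ {z, g, h})
    (h2 : 2 ≤ Y.ncard) (h3 : (Nb G Y).ncard ≤ 3) :
    4 ≤ (Nb (ZG G κ z g h k l) (lft κ '' Y)).ncard := by
  classical
  have hR := hV.base.I4 Y (hY.trans Set.sdiff_subset) h2 h3
  have hYz : ∀ x ∈ ({z, g, h} : Set V), x ∉ Y := fun x hx hxY => (hY hxY).2 hx
  have hTU : ∀ x ∈ ({z, g, h} : Set V), x ∈ U := by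
    rintro x (rfl | rfl | hx)
    · exact hV.zU
    · exact hV.gU
    · rw [Set.mem_singleton_iff] at hx; rw [hx]; exact hV.hU
  have huniq : ∀ x ∈ U, x ∉ Y → x ∉ Nb G Y → ∀ x' ∈ U, x' ∉ Y → x' ∉ Nb G Y → x = x' := by
    intro s h1 h3 h4 s' h1' h3' h4'
    exact (Set.ncard_le_one (Set.toFinite _)).1 hR s ⟨h1, fun hh => hh.elim h3 h4⟩ s'
      ⟨h1', fun hh => hh.elim h3' h4'⟩
  have hNx : ∀ x ∈ U, x ∉ Y → x ∉ Nb G Y → G.neighborSet x = Nb G Y := by
    intro x hx hxY hxN
    apply Set.eq_of_subset_of_ncard_le _ _ (Set.toFinite _)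
    · intro v hv
      have hv' : G.Adj x v := hv
      by_contra hvN
      have hvY : v ∉ Y := fun hvY => hxN ⟨hxY, v, hvY, hv'.symm⟩
      exact hv'.ne (huniq x hx hxY hxN v (hV.base.edge_mem v x hv'.symm) hvY hvN)
    · have := hV.base.deg3 x hx
      omega
  have hsub : ({z, g, h} : Set V) ⊆ Nb G Y := by
    intro x hx
    by_contra hxN
    have hN := hNx x (hTU x hx) (hYz x hx) hxN
    have hoth : ∀ x' ∈ ({z, g, h} : Set V), x' ≠ x → G.Adj x x' := by
      intro x' hx' hne
      have : x' ∈ Nb G Y := by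
        by_contra hn
        exact hne (huniq x' (hTU x' hx') (hYz x' hx') hn x (hTU x hx) (hYz x hx) hxN)
      rw [← hN] at this
      exact this
    rcases hx with rfl | rfl | hx
    · exact hV.nzg (hoth g (by simp) hV.zg.symm)
    · exact hV.nzg (hoth z (by simp) hV.zg).symm
    · rw [Set.mem_singleton_iff] at hx
      subst hx
      exact hV.nzh (hoth z (by simp) hV.zh).symm
  have hTc : ({z, g, h} : Set V).ncard = 3 := by
    rw [Set.ncard_insert_of_notMem, Set.ncard_pair hV.gh.ne]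
    rintro (hh | hh)
    · exact hV.zg hh
    · exact hV.zh hh
  have hNY : ({z, g, h} : Set V) = Nb G Y :=
    Set.eq_of_subset_of_ncard_le hsub (by omega) (Set.toFinite _)
  have hcov : ∀ x ∈ U, x ∉ ({z, g, h} : Set V) → x ∈ Y := by
    intro x hx hxT
    by_contra hxY
    have := hNx x hx hxY (by rw [← hNY]; exact hxT)
    exact hV.hx x (this.trans hNY.symm)
  have hdY : Disjoint Y ({z} : Set V) := by
    rw [Set.disjoint_left]
    intro x hxY hxz
    rw [Set.mem_singleton_iff] at hxz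
    exact hYz x (Or.inl hxz) hxY
  -- g and h
  have hgh : ∀ x, (x = g ∨ x = h) → lft κ x ∈ Nb (ZG G κ z g h k l) (lft κ '' Y) := by
    intro x hx
    have hxT : x ∈ ({z, g, h} : Set V) := Or.inr hx
    have hxN : x ∈ Nb G Y := hNY ▸ hxT
    have hxz : x ≠ z := by
      rcases hx with rfl | rfl
      · exact hV.zg.symm
      · exact hV.zh.symm
    have hxk : x ≠ k := by
      rcases hx with rfl | rfl
      · exact hV.gk
      · exact hV.hk
    have hxl : x ≠ l := by
      rcases hx with rfl | rfl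
      · exact hV.gl
      · exact hV.hl
    obtain ⟨hxY, u, hu, hux⟩ := hxN
    have hu' : u ∉ ({z, g, h} : Set V) := fun hh => hYz u hh hu
    have hadj : (dG G g h k l).Adj u x := by
      apply hV.adj hu' hux
      intro h4
      rcases mem_left h4 with ⟨-, h5⟩ | ⟨-, h5⟩
      · exact hxl h5
      · exact hxk h5
    rw [mem_Nb_lft hV.off hdY]
    refine ⟨hxY, u, hu, hadj, ?_⟩
    exact eq_add_one_of_ne (hV.hκ u x hux (fun hh => hu' (Or.inl hh)) hxz hadj.2.1 hadj.2.2)
  have hzz : ∀ i : ZMod 2, (z, i) ∈ Nb (ZG G κ z g h k l) (lft κ '' Y) := by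
    intro i
    rw [mem_Nb_lft hV.off hdY]
    refine ⟨hYz z (Or.inl rfl), ?_⟩
    by_contra hcon
    push Not at hcon
    refine hV.base.ind3 g k (fun v => if v = z then i + 1 else κ v) ?_
    have hzcase : ∀ v, G.Adj z v → v ≠ g → κ v = i := by
      intro v hzv hvg
      have hvh : v ≠ h := fun hh => hV.nzh (hh ▸ hzv)
      have hvT : v ∉ ({z, g, h} : Set V) := by
        rintro (hh | hh | hh)
        · exact hzv.ne hh.symm
        · exact hvg hh
        · exact hvh hh
      have hvY := hcov v (hV.base.edge_mem v z hzv.symm) hvT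
      have hadj : (dG G g h k l).Adj v z := by
        apply hV.adj hvT hzv.symm
        intro h4
        rcases mem_left h4 with ⟨-, h5⟩ | ⟨-, h5⟩
        · exact hV.zl h5
        · exact hV.zk h5
      have h5 := hcon v hvY hadj
      have h6 : i ≠ κ v + 1 := h5
      clear * - h6
      generalize κ v = a at *
      revert a i
      decide
    intro u v hu hv huv
    have hug : u ≠ g := fun hh => hu (Or.inl hh)
    have hvg : v ≠ g := fun hh => hv (Or.inl hh)
    have huk : u ≠ k := fun hh => hu (Or.inr hh)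
    have hvk : v ≠ k := fun hh => hv (Or.inr hh)
    by_cases huz : u = z
    · subst huz
      have hvz : v ≠ u := huv.ne.symm
      simp only [if_true, if_neg hvz]
      rw [hzcase v huv hvg]
      exact (ne_add_one_vee i).symm
    · by_cases hvz : v = z
      · subst hvz
        simp only [if_true, if_neg huz]
        rw [hzcase u huv.symm hug]
        exact ne_add_one_vee i
      · simp only [if_neg huz, if_neg hvz]
        refine hV.hκ u v huv huz hvz ?_ ?_
        · intro h4
          rcases mem_left h4 with ⟨h5, -⟩ | ⟨-, h5⟩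
          · exact hug h5
          · exact hvg h5
        · intro h4
          rcases mem_left h4 with ⟨h5, -⟩ | ⟨-, h5⟩
          · exact huk h5
          · exact hvk h5
  have hfin : ({(z, 0), (z, 1), lft κ g, lft κ h} : Set (V × ZMod 2)) ⊆
      Nb (ZG G κ z g h k l) (lft κ '' Y) := by
    rintro x (rfl | rfl | rfl | hx)
    · exact hzz 0
    · exact hzz 1
    · exact hgh g (Or.inl rfl)
    · rw [Set.mem_singleton_iff] at hx
      rw [hx]; exact hgh h (Or.inr rfl)
  have := Set.ncard_le_ncard hfin (Set.toFinite _)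
  rw [Pool.Agent.Helper51.TDC.ncard4] at this
  · exact this
  · intro hh; exact zero_ne_one (congrArg Prod.snd hh)
  · intro hh; exact hV.zg (congrArg Prod.fst hh)
  · intro hh; exact hV.zh (congrArg Prod.fst hh)
  · intro hh; exact hV.zg (congrArg Prod.fst hh)
  · intro hh; exact hV.zh (congrArg Prod.fst hh)
  · intro hh; exact hV.gh.ne (congrArg Prod.fst hh)

/-- The case that `k ∈ Y`, `l ∉ Y`. -/
lemma VD.key_aux [Finite V] (hV : VD G U κ z g h k l) {Y : Set V} (hY : Y ⊆ U \ {z, g, h})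
    (hG4 : 4 ≤ (Nb G Y).ncard)
    (hN3 : (Nb (ZG G κ z g h k l) (lft κ '' Y)).ncard ≤ 3) (hk : k ∈ Y) (hl : l ∉ Y) :
    3 ≤ (Nb (ZG G κ z g h k l) (lft κ '' Y)).ncard ∧
      fden (odG (dG G g h k l) (fun _ => 1)) Y ≤
        beta Prod.snd (Nb (ZG G κ z g h k l) (lft κ '' Y)) := by
  classical
  have hYz : ∀ x ∈ ({z, g, h} : Set V), x ∉ Y := fun x hx hxY => (hY hxY).2 hx
  have hdY : Disjoint Y ({z} : Set V) := by
    rw [Set.disjoint_left]
    intro x hxY hxz
    rw [Set.mem_singleton_iff] at hxz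
    exact hYz x (Or.inl hxz) hxY
  have hadj : ∀ u v, u ∈ Y → G.Adj u v → (u ≠ k ∨ v ≠ l) → (dG G g h k l).Adj u v := by
    intro u v hu huv h1
    apply hV.adj (fun hh => hYz u hh hu) huv
    intro h4
    rcases mem_left h4 with ⟨h5, h6⟩ | ⟨h5, h6⟩
    · rcases h1 with h1 | h1
      · exact h1 h5
      · exact h1 h6
    · exact hl (h5 ▸ hu)
  set N := Nb (ZG G κ z g h k l) (lft κ '' Y) with hNdef
  have himg : Prod.fst '' N = Nb (dG G g h k l) Y := fst_image_Nb hV.off hdY
  have hsub : Nb G Y ⊆ insert l (Nb (dG G g h k l) Y) := by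
    rintro v ⟨hvY, u, hu, huv⟩
    by_cases h1 : v = l
    · exact Or.inl h1
    · exact Or.inr ⟨hvY, u, hu, hadj u v hu huv (Or.inr h1)⟩
  have hc1 : (Nb (dG G g h k l) Y).ncard ≤ N.ncard := by
    rw [← himg]; exact Set.ncard_image_le (Set.toFinite _)
  have hc2 := Set.ncard_le_ncard hsub (Set.toFinite _)
  have hc3 := Set.ncard_insert_le l (Nb (dG G g h k l) Y)
  have hlN : l ∉ Nb (dG G g h k l) Y := by
    intro hh
    rw [Set.insert_eq_of_mem hh] at hc2
    omega
  have e1 : (Nb (dG G g h k l) Y).ncard = 3 := by omega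
  have e2 : N.ncard = 3 := by omega
  have eN : Nb G Y = insert l (Nb (dG G g h k l) Y) :=
    Set.eq_of_subset_of_ncard_le hsub (by omega) (Set.toFinite _)
  have e4 : (Nb G Y).ncard = 4 := by omega
  have hinj : Set.InjOn Prod.fst N := by
    rw [← Set.ncard_image_iff (Set.toFinite _), himg, e1, e2]
  let κ' : V → ZMod 2 := fun v => if v ∈ Y then κ v else
    if v = l then κ k + 1 else if (v, (1 : ZMod 2)) ∈ N then 1 else 0
  have kY : ∀ v, v ∈ Y → κ' v = κ v := fun v hv => if_pos hv
  have kl' : κ' l = κ k + 1 := by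
    show (if l ∈ Y then κ l else if l = l then κ k + 1 else _) = _
    rw [if_neg hl, if_pos rfl]
  have hκN : ∀ y ∈ N, κ' y.1 = y.2 := by
    intro y hy
    have hyY : y.1 ∉ Y := ((mem_Nb_lft hV.off hdY).1 hy).1
    have hyl : y.1 ≠ l := by
      intro hh
      apply hlN
      rw [← himg, ← hh]
      exact ⟨y, hy, rfl⟩
    show (if y.1 ∈ Y then κ y.1 else if y.1 = l then κ k + 1 else _) = _
    rw [if_neg hyY, if_neg hyl]
    obtain ⟨a, i⟩ := y
    rcases zmod2_cases i with rfl | rfl
    · rw [if_neg]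
      intro h3
      have := hinj hy h3 rfl
      rw [Prod.mk.injEq] at this
      exact zero_ne_one this.2
    · rw [if_pos hy]
  have hbal : Bal G κ' Y := by
    intro u v hu huv
    rw [kY u hu]
    by_cases hv : v ∈ Y
    · rw [kY v hv]
      have h5 := hadj u v hu huv (Or.inr (fun hh => hl (hh ▸ hv)))
      exact hV.hκ u v huv (fun hh => hYz u (Or.inl hh) hu) (fun hh => hYz v (Or.inl hh) hv)
        h5.2.1 h5.2.2
    · by_cases h6 : u = k ∧ v = l
      · rw [h6.1, h6.2, kl']
        exact ne_add_one_vee _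
      · have h5 : (dG G g h k l).Adj u v := by
          apply hadj u v hu huv
          by_contra hcon
          push Not at hcon
          exact h6 hcon
        have hmem : (v, κ u + 1) ∈ N := by
          rw [hNdef, mem_Nb_lft hV.off hdY]
          exact ⟨hv, u, hu, h5, rfl⟩
        have e5 : κ' v = κ u + 1 := hκN _ hmem
        rw [e5]
        exact ne_add_one_vee _
  have hP2 := hV.base.P2 Y (hY.trans Set.sdiff_subset) κ' hbal e4
  have hb1 : beta κ' (Nb G Y) ≤ beta κ' (Nb (dG G g h k l) Y) + 1 := by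
    rw [eN]; exact beta_insert_le
  have hb2 : beta κ' (Nb (dG G g h k l) Y) = beta Prod.snd N := by
    have hm : Mono κ' (Nb (dG G g h k l) Y) ↔ Mono Prod.snd N := by
      rw [← himg]
      constructor
      · intro hm x hx y hy
        rw [← hκN x hx, ← hκN y hy]
        exact hm _ ⟨x, hx, rfl⟩ _ ⟨y, hy, rfl⟩
      · rintro hm _ ⟨x, hx, rfl⟩ _ ⟨y, hy, rfl⟩
        rw [hκN x hx, hκN y hy]
        exact hm x hx y hy
    by_cases h3 : Mono κ' (Nb (dG G g h k l) Y)
    · rw [beta_of_mono h3, beta_of_mono (hm.1 h3), e1, e2]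
    · rw [beta_of_not_mono h3, beta_of_not_mono (fun h4 => h3 (hm.2 h4)), e1, e2]
  have hf : fden (odG (dG G g h k l) (fun _ => 1)) Y + 1 = fden G Y := by
    have hE : EAt (odG (dG G g h k l) (fun _ => 1)) Y = EAt G Y \ {s(k, l)} := by
      ext e
      induction e using Sym2.ind with
      | _ u v =>
        rw [Set.mem_sdiff, mem_EAt, mem_EAt, Set.mem_singleton_iff, odG_adj, dG_adj]
        constructor
        · rintro ⟨⟨⟨h1, h2, h3⟩, -⟩, h4⟩
          exact ⟨⟨h1, h4⟩, h3⟩
        · rintro ⟨⟨h1, h4⟩, h3⟩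
          refine ⟨⟨⟨h1, ?_, h3⟩, rfl⟩, h4⟩
          intro h5
          rcases mem_left h5 with ⟨h6, h7⟩ | ⟨h6, h7⟩ <;> rcases h4 with h4 | h4
          · exact hYz u (Or.inr (Or.inl h6)) h4
          · exact hYz v (Or.inr (Or.inr h7)) h4
          · exact hYz u (Or.inr (Or.inr h6)) h4
          · exact hYz v (Or.inr (Or.inl h7)) h4
    have hmem : s(k, l) ∈ EAt G Y := by
      rw [mem_EAt]; exact ⟨hV.kl, Or.inl hk⟩
    unfold fden rho
    rw [hE]
    have := Set.ncard_sdiff_singleton_add_one hmem (Set.toFinite _)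
    have : ((EAt G Y \ {s(k, l)}).ncard : ℤ) + 1 = (EAt G Y).ncard := by exact_mod_cast this
    linarith
  exact ⟨by omega, by linarith⟩

/-- Sets of at least two vertices. -/
lemma VD.key [Finite V] (hV : VD G U κ z g h k l) {Y : Set V} (hY : Y ⊆ U \ {z, g, h})
    (h2 : 2 ≤ Y.ncard) :
    3 ≤ (Nb (ZG G κ z g h k l) (lft κ '' Y)).ncard ∧
      ((Nb (ZG G κ z g h k l) (lft κ '' Y)).ncard ≤ 3 →
      fden (odG (dG G g h k l) (fun _ => 1)) Y ≤
        beta Prod.snd (Nb (ZG G κ z g h k l) (lft κ '' Y))) := by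
  by_cases hN4 : 4 ≤ (Nb (ZG G κ z g h k l) (lft κ '' Y)).ncard
  · exact ⟨by omega, fun hh => absurd hh (by omega)⟩
  have hN3 : (Nb (ZG G κ z g h k l) (lft κ '' Y)).ncard ≤ 3 := by omega
  have hG4 : 4 ≤ (Nb G Y).ncard := by
    by_contra hlt
    exact hN4 (hV.small hY h2 (by omega))
  by_cases hk : k ∈ Y
  · by_cases hl : l ∈ Y
    · exfalso
      have hYz : ∀ x ∈ ({z, g, h} : Set V), x ∉ Y := fun x hx hxY => (hY hxY).2 hx
      have hdY : Disjoint Y ({z} : Set V) := by
        rw [Set.disjoint_left]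
        intro x hxY hxz
        rw [Set.mem_singleton_iff] at hxz
        exact hYz x (Or.inl hxz) hxY
      have himg : Prod.fst '' Nb (ZG G κ z g h k l) (lft κ '' Y) = Nb (dG G g h k l) Y :=
        fst_image_Nb hV.off hdY
      have hsub : Nb G Y ⊆ Nb (dG G g h k l) Y := by
        rintro v ⟨hvY, u, hu, huv⟩
        refine ⟨hvY, u, hu, hV.adj (fun hh => hYz u hh hu) huv ?_⟩
        intro h4
        rcases mem_left h4 with ⟨-, h5⟩ | ⟨-, h5⟩
        · exact hvY (h5 ▸ hl)
        · exact hvY (h5 ▸ hk)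
      rw [← himg] at hsub
      have h5 := Set.ncard_le_ncard hsub (Set.toFinite _)
      have h6 := Set.ncard_image_le (f := Prod.fst)
        (Set.toFinite (Nb (ZG G κ z g h k l) (lft κ '' Y)))
      omega
    · have := hV.key_aux hY hG4 hN3 hk hl
      exact ⟨this.1, fun _ => this.2⟩
  · by_cases hl : l ∈ Y
    · have e : ZG G κ z g h k l = ZG G κ z g h l k := by
        show spG (dG G g h k l) _ _ _ = spG (dG G g h l k) _ _ _
        rw [dG_swap]
      rw [e] at hN3
      rw [e, dG_swap G g h k l]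
      have := hV.swap.key_aux hY hG4 hN3 hl hk
      exact ⟨this.1, fun _ => this.2⟩
    · exfalso
      have hYz : ∀ x ∈ ({z, g, h} : Set V), x ∉ Y := fun x hx hxY => (hY hxY).2 hx
      have hdY : Disjoint Y ({z} : Set V) := by
        rw [Set.disjoint_left]
        intro x hxY hxz
        rw [Set.mem_singleton_iff] at hxz
        exact hYz x (Or.inl hxz) hxY
      have himg : Prod.fst '' Nb (ZG G κ z g h k l) (lft κ '' Y) = Nb (dG G g h k l) Y :=
        fst_image_Nb hV.off hdY
      have hsub : Nb G Y ⊆ Nb (dG G g h k l) Y := by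
        rintro v ⟨hvY, u, hu, huv⟩
        refine ⟨hvY, u, hu, hV.adj (fun hh => hYz u hh hu) huv ?_⟩
        intro h4
        rcases mem_left h4 with ⟨h5, -⟩ | ⟨h5, -⟩
        · exact hk (h5 ▸ hu)
        · exact hl (h5 ▸ hu)
      rw [← himg] at hsub
      have h5 := Set.ncard_le_ncard hsub (Set.toFinite _)
      have h6 := Set.ncard_image_le (f := Prod.fst)
        (Set.toFinite (Nb (ZG G κ z g h k l) (lft κ '' Y)))
      omega

/-- The split graph is a dense society. -/
theorem VD.soc [Finite V] (hV : VD G U κ z g h k l) :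
    Soc false (ZG G κ z g h k l) Prod.snd (lft κ '' (U \ {z, g, h}))
      {(z, 0), (z, 1), lft κ g, lft κ h} := by
  classical
  have hTc : ({z, g, h} : Set V).ncard = 3 := by
    rw [Set.ncard_insert_of_notMem, Set.ncard_pair hV.gh.ne]
    rintro (hh | hh)
    · exact hV.zg hh
    · exact hV.zh hh
  have hTU : ({z, g, h} : Set V) ⊆ U := by
    rintro x (rfl | rfl | hx)
    · exact hV.zU
    · exact hV.gU
    · rw [Set.mem_singleton_iff] at hx; rw [hx]; exact hV.hU
  have hT4 : ({(z, 0), (z, 1), lft κ g, lft κ h} : Set (V × ZMod 2)).ncard = 4 := by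
    apply Pool.Agent.Helper51.TDC.ncard4
    · intro hh; exact zero_ne_one (congrArg Prod.snd hh)
    · intro hh; exact hV.zg (congrArg Prod.fst hh)
    · intro hh; exact hV.zh (congrArg Prod.fst hh)
    · intro hh; exact hV.zg (congrArg Prod.fst hh)
    · intro hh; exact hV.zh (congrArg Prod.fst hh)
    · intro hh; exact hV.gh.ne (congrArg Prod.fst hh)
  have hdS : Disjoint (U \ {z, g, h}) ({z} : Set V) := by
    rw [Set.disjoint_left]
    intro x hx hxz
    rw [Set.mem_singleton_iff] at hxz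
    exact hx.2 (Or.inl hxz)
  have hlift : ∀ Y' ⊆ lft κ '' (U \ {z, g, h}), ∃ Y ⊆ U \ ({z, g, h} : Set V), Y' = lft κ '' Y ∧
      Y.ncard = Y'.ncard := by
    intro Y' hY'
    obtain ⟨Y, hY, hYY⟩ := (Set.subset_image_iff).1 hY'
    exact ⟨Y, hY, hYY.symm, by rw [← hYY, Set.ncard_image_of_injective _ (lft_injective κ)]⟩
  have hdeg : ∀ s ∈ lft κ '' (U \ {z, g, h}), 2 ≤ ((ZG G κ z g h k l).neighborSet s).ncard := by
    rintro _ ⟨u, hu, rfl⟩
    have h1 := hV.base.deg3 u hu.1
    have huz : u ∉ ({z} : Set V) := fun hh => hu.2 (Or.inl (Set.mem_singleton_iff.1 hh))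
    have h3 : G.neighborSet u ⊆ insert (if u = k then l else k)
        (Prod.fst '' (ZG G κ z g h k l).neighborSet (lft κ u)) := by
      intro v hv
      have hv' : G.Adj u v := hv
      by_cases h4 : s(u, v) = s(k, l)
      · left
        rcases mem_left h4 with ⟨h5, h6⟩ | ⟨h5, h6⟩
        · rw [if_pos h5, h6]
        · rw [if_neg (by rw [h5]; exact hV.kl.ne.symm), h6]
      · right
        refine ⟨(v, κ u + 1), ?_, rfl⟩
        rw [SimpleGraph.mem_neighborSet, spG_adj_lft hV.off huz]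
        exact ⟨hV.adj hu.2 hv' h4, rfl⟩
    have h4 := Set.ncard_le_ncard h3 (Set.toFinite _)
    have h5 := Set.ncard_insert_le (if u = k then l else k)
      (Prod.fst '' (ZG G κ z g h k l).neighborSet (lft κ u))
    have h6 := Set.ncard_image_le (f := Prod.fst)
      (Set.toFinite ((ZG G κ z g h k l).neighborSet (lft κ u)))
    omega
  refine ⟨hT4, ?_, ?_, ?_, ?_, ?_, ?_, hdeg, ?_⟩
  · rw [Set.disjoint_left]
    rintro _ ⟨u, hu, rfl⟩ hT
    apply hu.2
    rcases hT with hT | hT | hT | hT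
    · exact Or.inl (congrArg Prod.fst hT)
    · exact Or.inl (congrArg Prod.fst hT)
    · exact Or.inr (Or.inl (congrArg Prod.fst hT))
    · exact Or.inr (Or.inr (congrArg Prod.fst (Set.mem_singleton_iff.1 hT)))
  · intro x y hxy
    by_cases hxz : x.1 = z
    · right
      obtain ⟨a, i⟩ := x
      simp only at hxz
      subst hxz
      rcases zmod2_cases i with rfl | rfl
      · exact Or.inl rfl
      · exact Or.inr (Or.inl rfl)
    · have hx2 : x = lft κ x.1 := by
        rw [Prod.ext_iff]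
        exact ⟨rfl, hxy.2.2.1 hxz⟩
      by_cases hxg : x.1 = g
      · right; right; right; left
        rw [hx2, hxg]
      · by_cases hxh : x.1 = h
        · right; right; right; right
          rw [Set.mem_singleton_iff, hx2, hxh]
        · left
          refine ⟨x.1, ⟨hV.base.edge_mem _ _ hxy.1.1, ?_⟩, hx2.symm⟩
          rintro (hh | hh | hh)
          · exact hxz hh
          · exact hxg hh
          · exact hxh hh
  · intro x y hxy
    have hin : ∀ x y, (ZG G κ z g h k l).Adj x y → x.1 ∉ ({z, g, h} : Set V) →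
        x ∈ lft κ '' (U \ {z, g, h}) := by
      intro x y hxy hx
      refine ⟨x.1, ⟨hV.base.edge_mem _ _ hxy.1.1, hx⟩, ?_⟩
      rw [Prod.ext_iff]
      exact ⟨rfl, (hxy.2.2.1 (fun hh => hx (Or.inl (Set.mem_singleton_iff.1 hh)))).symm⟩
    by_cases hx : x.1 ∈ ({z, g, h} : Set V)
    · by_cases hy : y.1 ∈ ({z, g, h} : Set V)
      · exfalso
        have h1 := hxy.1
        have h3 := h1.1
        rcases hx with hx | hx | hx <;> rcases hy with hy | hy | hy
        · exact h3.ne (hx.trans hy.symm)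
        · rw [hx, hy] at h3; exact hV.nzg h3
        · rw [hx, Set.mem_singleton_iff.1 hy] at h3; exact hV.nzh h3
        · rw [hx, hy] at h3; exact hV.nzg h3.symm
        · exact h3.ne (hx.trans hy.symm)
        · exact h1.2.1 (by rw [hx, Set.mem_singleton_iff.1 hy])
        · rw [Set.mem_singleton_iff.1 hx, hy] at h3; exact hV.nzh h3.symm
        · exact h1.2.1 (by rw [Set.mem_singleton_iff.1 hx, hy, Sym2.eq_swap])
        · exact h3.ne (hx.trans hy.symm)
      · exact Or.inr (hin y x hxy.symm hy)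
    · exact Or.inl (hin x y hxy hx)
  · -- M1
    rw [fO_lft hV.off hdS]
    have hnm : ¬ Mono Prod.snd ({(z, 0), (z, 1), lft κ g, lft κ h} : Set (V × ZMod 2)) := by
      intro hm
      have := hm (z, 0) (Or.inl rfl) (z, 1) (Or.inr (Or.inl rfl))
      exact zero_ne_one this
    show beta _ _ + 1 ≤ _
    rw [beta_of_not_mono hnm, hT4]
    have h1 : (U \ ({z, g, h} : Set V)).ncard + 3 = U.ncard := by
      have := Set.ncard_sdiff_add_ncard_of_subset hTU (Set.toFinite _)
      rw [hTc] at this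
      exact this
    have h3 : G.edgeSet ⊆ EAt (odG (dG G g h k l) (fun _ => 1)) (U \ {z, g, h}) ∪
        {s(g, h), s(k, l)} := by
      intro e
      induction e using Sym2.ind with
      | _ u v =>
        intro he
        rw [SimpleGraph.mem_edgeSet] at he
        by_cases h4 : s(u, v) = s(g, h)
        · exact Or.inr (Or.inl h4)
        · by_cases h5 : s(u, v) = s(k, l)
          · exact Or.inr (Or.inr h5)
          · left
            rw [mem_EAt]
            refine ⟨⟨⟨he, h4, h5⟩, rfl⟩, ?_⟩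
            by_contra hcon
            push Not at hcon
            have hu : u ∈ ({z, g, h} : Set V) := by
              by_contra hn
              exact hcon.1 ⟨hV.base.edge_mem u v he, hn⟩
            have hv : v ∈ ({z, g, h} : Set V) := by
              by_contra hn
              exact hcon.2 ⟨hV.base.edge_mem v u he.symm, hn⟩
            rcases hu with hx | hx | hx <;> rcases hv with hy | hy | hy
            · exact he.ne (hx.trans hy.symm)
            · rw [hx, hy] at he; exact hV.nzg he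
            · rw [hx, Set.mem_singleton_iff.1 hy] at he; exact hV.nzh he
            · rw [hx, hy] at he; exact hV.nzg he.symm
            · exact he.ne (hx.trans hy.symm)
            · exact h4 (by rw [hx, Set.mem_singleton_iff.1 hy])
            · rw [Set.mem_singleton_iff.1 hx, hy] at he; exact hV.nzh he.symm
            · exact h4 (by rw [Set.mem_singleton_iff.1 hx, hy, Sym2.eq_swap])
            · exact he.ne (hx.trans hy.symm)
    have h4 := Set.ncard_le_ncard h3 (Set.toFinite _)
    have h5 := Set.ncard_union_le (EAt (odG (dG G g h k l) (fun _ => 1)) (U \ {z, g, h}))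
      {s(g, h), s(k, l)}
    have h6 : ({s(g, h), s(k, l)} : Set (Sym2 V)).ncard ≤ 2 := by
      have h7 := Set.ncard_insert_le s(g, h) ({s(k, l)} : Set (Sym2 V))
      rw [Set.ncard_singleton] at h7
      omega
    have h7 := hV.base.dens
    unfold fden rho
    push_cast
    omega
  · intro hh
    exact absurd hh (by simp)
  · -- M2
    intro Y' hY' hne hN
    obtain ⟨Y, hY, rfl, hcard⟩ := hlift Y' hY'
    have hdY := hdS.mono_left hY
    by_cases h2 : 2 ≤ Y.ncard
    · rw [fO_lft hV.off hdY]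
      exact (hV.key hY h2).2 hN
    · have h1 : (lft κ '' Y).ncard = 1 := by
        have := (Set.ncard_pos (Set.toFinite _)).2 hne
        omega
      obtain ⟨s, hs⟩ := Set.ncard_eq_one.1 h1
      rw [hs]
      apply fO_singleton_le
      rw [← Set.ncard_pos (Set.toFinite _)]
      have := hdeg s (hY' (by rw [hs]; rfl))
      omega
  · -- C2
    intro Y' hY' h2
    obtain ⟨Y, hY, rfl, hcard⟩ := hlift Y' hY'
    exact (hV.key hY (by omega)).1

end

theorem vee [Finite V] {G : SimpleGraph V} {U : Set V} (hB : Base G U) {κ : V → ZMod 2}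
    {z g h k l : V} (hgh : G.Adj g h) (hkl : G.Adj k l) (hzg : z ≠ g) (hzh : z ≠ h) (hzk : z ≠ k)
    (hzl : z ≠ l) (hgk : g ≠ k) (hgl : g ≠ l) (hhk : h ≠ k) (hhl : h ≠ l)
    (nzg : ¬ G.Adj z g) (nzh : ¬ G.Adj z h) (hx : ∀ x, G.neighborSet x ≠ {z, g, h})
    (hκ : ∀ u v, G.Adj u v → u ≠ z → v ≠ z → s(u, v) ≠ s(g, h) → s(u, v) ≠ s(k, l) →
      κ u ≠ κ v) : False := by
  have hV : VD G U κ z g h k l :=
    ⟨hB, hgh, hkl, hzg, hzh, hzk, hzl, hgk, hgl, hhk, hhl, nzg, nzh, hx, hκ⟩
  have hF := theoremD _ _ _ _ hV.soc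
  have hfr := hF (z, 0) (by simp) (z, 1) (by simp) (lft κ g) (by simp) (lft κ h) (by simp)
    (fun hh => zero_ne_one (congrArg Prod.snd hh)) (fun hh => hzg (congrArg Prod.fst hh))
    (fun hh => hzh (congrArg Prod.fst hh)) (fun hh => hzg (congrArg Prod.fst hh))
    (fun hh => hzh (congrArg Prod.fst hh)) (fun hh => hgh.ne (congrArg Prod.fst hh))
  apply hB.noT
  rw [hasTOK4_iff]
  exact Pool.Agent.Helper73.O3.tok_of_split_edge (dG_le G g h k l) hzg hzh hgh hV.kgh hfr

end Pool.Agent.Helper97.OT
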