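import Pool.Agent.Helper97.O3.Unpack
import Pool.Agent.Helper97.O3.Color
import Pool.Agent.Helper97.O3.Vee

/-!
# O3: case analysis (section 4 of the note)
-/

set_option autoImplicit false

namespace Pool.Agent.Helper97.OT

open SimpleGraph Pool.Agent.Helper57.TOK Pool.Agent.Helper57.TD Pool.Agent.Helper82.TK
  Pool.Agent.Helper51.GX

variable {V : Type*} {G : SimpleGraph V} {U W : Set V} {κ : V → ZMod 2} {p q r b c y : V}

/-- Colouring, split structure and obstacle. -/
structure CD (G : SimpleGraph V) (U : Set V) (κ : V → ZMod 2) (W : Set V) (p q r b c y : V)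
    (l : V → ZMod 2) (lb ly lc : V) (A B C D Lb Lc Ly : List V) : Prop where
  o3 : O3 G U κ W p q r b c y
  col : Col G κ W p q r b c y l
  sp : Split G W p q b c y (κ p + 1 + κ b) (κ p + 1 + κ c) lb ly lc A B C D Lb Lc Ly

/-- Inconsistent neighbours. -/
def Inc (G : SimpleGraph V) (U W : Set V) (p q : V) (l : V → ZMod 2) (b z : V) : Prop :=
  G.Adj b z ∧ (z ∈ Rs G U W ∨ z = p ∨ z = q) ∧ l z = l b

section

variable {l : V → ZMod 2} {lb ly lc : V} {A B C D Lb Lc Ly : List V}

theorem CD.symm (h : CD G U κ W p q r b c y l lb ly lc A B C D Lb Lc Ly) :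
    CD G U κ W q p r c b y l lc ly lb D.reverse C.reverse B.reverse A.reverse Lc Lb Ly where
  o3 := h.o3.symm_pq.symm_bc
  col :=
    { agW := h.col.agW
      agp := by rw [h.col.agq, h.o3.κpq]
      agq := by rw [h.col.agp, h.o3.κpq]
      agb := h.col.agc
      agc := h.col.agb
      agy := by rw [← h.o3.κpq]; exact h.col.agy
      prop := fun u v huv h1 h2 h3 h4 h5 => h.col.prop u v huv h2 h1 h4 h3 h5 }
  sp := by rw [← h.o3.κpq]; exact h.sp.symm

lemma Inc.symm {z : V} (h : Inc G U W p q l b z) : Inc G U W q p l b z :=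
  ⟨h.1, h.2.1.imp_right (fun h => h.symm), h.2.2⟩

lemma O3.yN (h : O3 G U κ W p q r b c y) {v : V} (hv : G.Adj y v) : v = p ∨ v = q ∨ v = r := by
  have h1 : v ∈ G.neighborSet y := hv
  rw [h.Ny] at h1
  exact h1

/-- Where the vertices are. -/
lemma O3.where_ (h : O3 G U κ W p q r b c y) {v w : V} (hv : G.Adj v w) :
    v ∈ W ∨ v ∈ Rs G U W ∨ v = p ∨ v = q ∨ v = b ∨ v = c ∨ v = y := by
  by_cases h1 : v ∈ W
  · exact Or.inl h1
  · by_cases h2 : v ∈ Nb G W
    · rw [h.NW] at h2
      exact Or.inr (Or.inr h2)
    · refine Or.inr (Or.inl ⟨h.base.edge_mem v w hv, ?_⟩)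
      rintro (h3 | h3)
      · exact h1 h3
      · exact h2 h3

/-- The inconsistent edges. -/
lemma bad_edge (h : O3 G U κ W p q r b c y) (hl : Col G κ W p q r b c y l) {x z : V}
    (hxz : G.Adj x z) (he : l x = l z) : s(x, z) = s(y, r) ∨ s(x, z) = s(b, c) ∨
      (x = b ∧ Inc G U W p q l b z) ∨ (z = b ∧ Inc G U W p q l b x) ∨
      (x = c ∧ Inc G U W p q l c z) ∨ (z = c ∧ Inc G U W p q l c x) := by
  obtain ⟨hpW, hqW, hbW, hcW, hyW⟩ := h.notW
  have key : ∀ {t z : V}, (t = b ∨ t = c) → G.Adj t z → l t = l z → s(t, z) = s(b, c) ∨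
      Inc G U W p q l t z := by
    intro t z ht htz hlt
    rcases h.where_ htz.symm with h1 | h1 | h1 | h1 | h1 | h1 | h1
    · exfalso
      have h2 : l t = κ t := by
        rcases ht with rfl | rfl
        · exact hl.agb
        · exact hl.agc
      rw [h2, hl.agW z h1] at hlt
      exact h.bal z t h1 htz.symm hlt.symm
    · exact Or.inr ⟨htz, Or.inl h1, hlt.symm⟩
    · exact Or.inr ⟨htz, Or.inr (Or.inl h1), hlt.symm⟩
    · exact Or.inr ⟨htz, Or.inr (Or.inr h1), hlt.symm⟩
    · subst h1
      rcases ht with rfl | rfl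
      · exact absurd rfl htz.ne
      · exact Or.inl Sym2.eq_swap
    · subst h1
      rcases ht with rfl | rfl
      · exact Or.inl rfl
      · exact absurd rfl htz.ne
    · exfalso
      subst h1
      rcases h.yN htz.symm with h2 | h2 | h2
      · rcases ht with rfl | rfl
        · exact h.pb h2.symm
        · exact h.pc h2.symm
      · rcases ht with rfl | rfl
        · exact h.qb h2.symm
        · exact h.qc h2.symm
      · rcases ht with rfl | rfl
        · exact hbW (h2 ▸ h.rW)
        · exact hcW (h2 ▸ h.rW)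
  by_cases h1 : x = b
  · subst h1
    rcases key (Or.inl rfl) hxz he with h2 | h2
    · exact Or.inr (Or.inl h2)
    · exact Or.inr (Or.inr (Or.inl ⟨rfl, h2⟩))
  · by_cases h2 : x = c
    · subst h2
      rcases key (Or.inr rfl) hxz he with h3 | h3
      · exact Or.inr (Or.inl h3)
      · exact Or.inr (Or.inr (Or.inr (Or.inr (Or.inl ⟨rfl, h3⟩))))
    · by_cases h3 : z = b
      · subst h3
        rcases key (Or.inl rfl) hxz.symm he.symm with h4 | h4
        · exact Or.inr (Or.inl (Sym2.eq_swap.trans h4))
        · exact Or.inr (Or.inr (Or.inr (Or.inl ⟨rfl, h4⟩)))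
      · by_cases h4 : z = c
        · subst h4
          rcases key (Or.inr rfl) hxz.symm he.symm with h5 | h5
          · exact Or.inr (Or.inl (Sym2.eq_swap.trans h5))
          · exact Or.inr (Or.inr (Or.inr (Or.inr (Or.inr ⟨rfl, h5⟩))))
        · left
          by_contra h5
          exact hl.prop x z hxz h1 h2 h3 h4 h5 he

/-- `G` without two vertices which meet all inconsistent edges. -/
lemma ind (h : O3 G U κ W p q r b c y) (hl : Col G κ W p q r b c y l) (z1 z2 : V)
    (h1 : y = z1 ∨ y = z2 ∨ r = z1 ∨ r = z2)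
    (h2 : G.Adj b c → b = z1 ∨ b = z2 ∨ c = z1 ∨ c = z2 ∨ l b ≠ l c)
    (h3 : ∀ z, Inc G U W p q l b z → b = z1 ∨ b = z2 ∨ z = z1 ∨ z = z2)
    (h4 : ∀ z, Inc G U W p q l c z → c = z1 ∨ c = z2 ∨ z = z1 ∨ z = z2) : False := by
  refine h.base.ind3 z1 z2 l ?_
  intro u v hu hv huv he
  simp only [Set.mem_insert_iff, Set.mem_singleton_iff, not_or] at hu hv
  have key : ∀ {s t : V}, s(u, v) = s(s, t) → (s = z1 ∨ s = z2 ∨ t = z1 ∨ t = z2) → False := by
    intro s t hs ht
    rw [Sym2.eq_iff] at hs
    rcases hs with ⟨rfl, rfl⟩ | ⟨rfl, rfl⟩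
    · rcases ht with ht | ht | ht | ht
      · exact hu.1 ht
      · exact hu.2 ht
      · exact hv.1 ht
      · exact hv.2 ht
    · rcases ht with ht | ht | ht | ht
      · exact hv.1 ht
      · exact hv.2 ht
      · exact hu.1 ht
      · exact hu.2 ht
  rcases bad_edge h hl huv he with k | k | k | k | k | k
  · exact key k h1
  · have hbc : G.Adj b c := by
      rw [Sym2.eq_iff] at k
      rcases k with ⟨k1, k2⟩ | ⟨k1, k2⟩
      · rw [← k1, ← k2]; exact huv
      · rw [← k1, ← k2]; exact huv.symm
    have hlbc : l b = l c := by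
      rw [Sym2.eq_iff] at k
      rcases k with ⟨k1, k2⟩ | ⟨k1, k2⟩
      · rw [← k1, ← k2]; exact he
      · rw [← k1, ← k2]; exact he.symm
    rcases h2 hbc with k1 | k1 | k1 | k1 | k1
    · exact key k (Or.inl k1)
    · exact key k (Or.inr (Or.inl k1))
    · exact key k (Or.inr (Or.inr (Or.inl k1)))
    · exact key k (Or.inr (Or.inr (Or.inr k1)))
    · exact k1 hlbc
  · obtain ⟨rfl, k⟩ := k
    exact key rfl (h3 _ k)
  · obtain ⟨rfl, k⟩ := k
    exact key Sym2.eq_swap (h3 _ k)
  · obtain ⟨rfl, k⟩ := k
    exact key rfl (h4 _ k)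
  · obtain ⟨rfl, k⟩ := k
    exact key Sym2.eq_swap (h4 _ k)

/-- The graph `R' = G[R + p + q]`. -/
abbrev RG (G : SimpleGraph V) (W : Set V) (b c y : V) : SimpleGraph V := delG G (W ∪ {b, c, y})

lemma RG_prop (hl : Col G κ W p q r b c y l) {u v : V} (huv : (RG G W b c y).Adj u v) :
    l u ≠ l v := by
  obtain ⟨h1, h2, h3⟩ := delG_adj.1 huv
  simp only [Set.mem_union, Set.mem_insert_iff, Set.mem_singleton_iff, not_or] at h2 h3
  refine hl.prop u v h1 h2.2.1 h2.2.2.1 h3.2.1 h3.2.2.1 ?_
  intro h4
  rw [Sym2.eq_iff] at h4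
  rcases h4 with ⟨h4, -⟩ | ⟨-, h4⟩
  · exact h2.2.2.2 h4
  · exact h3.2.2.2 h4

/-- Walks of `R'` as lists. -/
lemma walk_list (h : O3 G U κ W p q r b c y) (hl : Col G κ W p q r b c y l) {u t : V}
    (hu : u ∉ W ∪ ({b, c, y} : Set V)) (ht : t = p ∨ t = q) (hut : u ≠ t)
    (P : (RG G W b c y).Walk u t) (hP : P.IsPath)
    (hpq : ∀ x ∈ P.support, x ≠ u → x = p ∨ x = q → x = t) :
    ∃ L, P.support = u :: (L ++ [t]) ∧ PathIn G (Rs G U W) u t L ∧
      ((L.length : ZMod 2) + 1 = l u + l t) := by
  obtain ⟨L, h1, h2, h3⟩ := exists_list_of_walk' P hP hut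
  refine ⟨L, h1, ⟨?_, ?_, ?_⟩, ?_⟩
  · exact h2.imp (fun _ _ hab => hab.1)
  · rw [List.nodup_cons, List.nodup_append] at h3
    exact h3.2.1
  · intro x hx
    have hxs : x ∈ P.support := by rw [h1]; simp [hx]
    have hxn := notMem_of_mem_support_delG P hu x hxs
    have hxu : x ≠ u := by
      rintro rfl
      exact (List.nodup_cons.1 h3).1 (by simp [hx])
    have hxt : x ≠ t := by
      rw [List.nodup_cons, List.nodup_append] at h3
      exact h3.2.2.2 x hx t (by simp)
    obtain ⟨z', hz'⟩ := chain_nbr (L ++ [t]) u h2 (by simp) x (by simp [hx])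
    have hadj : ∃ w, G.Adj x w := by
      rcases hz' with h4 | h4
      · exact ⟨_, h4.1⟩
      · exact ⟨_, h4.1.symm⟩
    obtain ⟨w, hw⟩ := hadj
    simp only [Set.mem_union, Set.mem_insert_iff, Set.mem_singleton_iff, not_or] at hxn
    rcases h.where_ hw with h5 | h5 | h5 | h5 | h5 | h5 | h5
    · exact absurd h5 hxn.1
    · exact h5
    · exact absurd (hpq x hxs hxu (Or.inl h5)) hxt
    · exact absurd (hpq x hxs hxu (Or.inr h5)) hxt
    · exact absurd h5 hxn.2.1
    · exact absurd h5 hxn.2.2.1
    · exact absurd h5 hxn.2.2.2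
  · have h4 := chain_parity (κ := l) (L ++ [t]) u t (h2.imp (fun _ _ hab => RG_prop hl hab))
      (by rw [← List.cons_append]; exact List.getLast?_concat)
    rw [List.length_append, List.length_singleton, Nat.cast_add, Nat.cast_one] at h4
    exact h4

lemma Rs_notin' (h : O3 G U κ W p q r b c y) {x : V} (hx : x ∈ Rs G U W) :
    x ∉ W ∪ ({b, c, y} : Set V) := by
  obtain ⟨h1, -, -, h4, h5, h6⟩ := h.Rs_notin hx
  simp only [Set.mem_union, Set.mem_insert_iff, Set.mem_singleton_iff, not_or]
  exact ⟨h1, h4, h5, h6⟩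

/-- Neighbours of a set in the rest. -/
lemma Nb_RG [Finite V] (h : O3 G U κ W p q r b c y) {Y : Set V} (hY : Y ⊆ Rs G U W) :
    Nb G Y ⊆ Nb (RG G W b c y) Y ∪ {b, c} := by
  rintro v ⟨h1, u, hu, huv⟩
  rcases h.adj_R (hY hu) huv with h2 | h2 | h2 | h2 | h2
  · exact Or.inl ⟨h1, u, hu, huv, Rs_notin' h (hY hu), Rs_notin' h h2⟩
  · refine Or.inl ⟨h1, u, hu, huv, Rs_notin' h (hY hu), ?_⟩
    simp only [Set.mem_union, Set.mem_insert_iff, Set.mem_singleton_iff, not_or]
    rw [h2]
    exact ⟨h.notW.1, h.pb, h.pc, h.yadj.1.ne.symm⟩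
  · refine Or.inl ⟨h1, u, hu, huv, Rs_notin' h (hY hu), ?_⟩
    simp only [Set.mem_union, Set.mem_insert_iff, Set.mem_singleton_iff, not_or]
    rw [h2]
    exact ⟨h.notW.2.1, h.qb, h.qc, h.yadj.2.1.ne.symm⟩
  · exact Or.inr (Or.inl h2)
  · exact Or.inr (Or.inr h2)

lemma ncard_le_of_RG [Finite V] (h : O3 G U κ W p q r b c y) {Y : Set V} (hY : Y ⊆ Rs G U W)
    {k : ℕ} (hk : (Nb (RG G W b c y) Y).ncard ≤ k) : (Nb G Y).ncard ≤ k + 2 := by
  refine (Set.ncard_le_ncard (Nb_RG h hY) (Set.toFinite _)).trans ?_
  refine (Set.ncard_union_le _ _).trans ?_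
  have := ncard_pair_le' b c
  omega

/-- A walk of `R'` inside a set without `p, q`. -/
lemma sub_Rs (h : O3 G U κ W p q r b c y) {Y : Set V} (hYpq : Disjoint Y {p, q}) {u : V}
    (hu : u ∈ Rs G U W) (hY : ∀ x ∈ Y, ∃ P : (RG G W b c y).Walk u x, ∀ z ∈ P.support, z ∈ Y) :
    Y ⊆ Rs G U W := by
  intro x hx
  obtain ⟨P, hP⟩ := hY x hx
  by_cases hux : u = x
  · rw [← hux]; exact hu
  · obtain ⟨z, hz, -⟩ := exists_last_edge P hux
    have hxn := notMem_of_mem_support_delG P (Rs_notin' h hu) x P.end_mem_support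
    simp only [Set.mem_union, Set.mem_insert_iff, Set.mem_singleton_iff, not_or] at hxn
    rcases h.where_ (delG_adj.1 hz).1.symm with h5 | h5 | h5 | h5 | h5 | h5 | h5
    · exact absurd h5 hxn.1
    · exact h5
    · exact absurd (Or.inl h5) (Set.disjoint_left.1 hYpq hx)
    · exact absurd (Or.inr h5) (Set.disjoint_left.1 hYpq hx)
    · exact absurd h5 hxn.2.1
    · exact absurd h5 hxn.2.2.1
    · exact absurd h5 hxn.2.2.2

/-- Two-fan from a vertex of the rest to `p, q`, or the vertex is cubic. -/
lemma fan_or [Finite V] (h : O3 G U κ W p q r b c y) (hl : Col G κ W p q r b c y l) {u : V}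
    (hu : u ∈ Rs G U W) :
    (∃ P1 P2, PathIn G (Rs G U W) u p P1 ∧ PathIn G (Rs G U W) u q P2 ∧
      (u :: (P1 ++ P2)).Nodup ∧ (P1.length : ZMod 2) + 1 = l u + l p ∧
      (P2.length : ZMod 2) + 1 = l u + l q) ∨
    (∃ s, G.neighborSet u = {s, b, c} ∧ s ≠ b ∧ s ≠ c) := by
  have hup : u ≠ p := (h.Rs_notin hu).2.1
  have huq : u ≠ q := (h.Rs_notin hu).2.2.1
  have hun : u ∉ ({p, q} : Set V) := by
    simp only [Set.mem_insert_iff, Set.mem_singleton_iff, not_or]
    exact ⟨hup, huq⟩
  rcases fan_or_set (G := RG G W b c y) (k := 2) hun with hf | ⟨Y, h1, h2, h3, h4⟩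
  · left
    obtain ⟨e, P, g1, g2, g3⟩ := hf
    have hne : e 0 ≠ e 1 := by
      intro hh
      have := g3 0 1 (by decide) (e 0) (P 0).end_mem_support (by rw [hh]; exact (P 1).end_mem_support)
      exact hun (this ▸ (g1 0).1)
    have main : ∀ i : Fin 2, ∃ L, (P i).support = u :: (L ++ [e i]) ∧
        PathIn G (Rs G U W) u (e i) L ∧ ((L.length : ZMod 2) + 1 = l u + l (e i)) := by
      intro i
      refine walk_list h hl (Rs_notin' h hu) (g1 i).1 ?_ (P i) (g1 i).2 ?_
      · intro hh; exact hun (hh ▸ (g1 i).1)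
      · intro x hx _ hxpq
        exact g2 i x hx hxpq
    obtain ⟨L0, a1, a2, a3⟩ := main 0
    obtain ⟨L1, b1, b2, b3⟩ := main 1
    have hn0 := (g1 0).2.support_nodup
    have hn1 := (g1 1).2.support_nodup
    rw [a1] at hn0
    rw [b1] at hn1
    have hd : ∀ x ∈ L0, x ∉ L1 := by
      intro x hx hx'
      have := g3 0 1 (by decide) x (by rw [a1]; simp [hx]) (by rw [b1]; simp [hx'])
      rw [List.nodup_cons] at hn0
      exact hn0.1 (by rw [← this]; simp [hx])
    have hnd : (u :: (L0 ++ L1)).Nodup := by
      rw [List.nodup_cons, List.nodup_append] at hn0 hn1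
      rw [List.nodup_cons, List.nodup_append]
      refine ⟨?_, hn0.2.1, hn1.2.1, fun x hx x' hx' hxx => hd x hx (hxx ▸ hx')⟩
      intro hh
      rw [List.mem_append] at hh
      rcases hh with hh | hh
      · exact hn0.1 (by simp [hh])
      · exact hn1.1 (by simp [hh])
    have hnd' : (u :: (L1 ++ L0)).Nodup := by
      have : (u :: (L1 ++ L0)).Perm (u :: (L0 ++ L1)) := List.Perm.cons _ List.perm_append_comm
      exact this.nodup_iff.2 hnd
    rcases (g1 0).1 with h0 | h0
    · rcases (g1 1).1 with h5 | h5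
      · exact absurd (h0.trans h5.symm) hne
      · rw [Set.mem_singleton_iff] at h5
        rw [h0] at a2 a3
        rw [h5] at b2 b3
        exact ⟨L0, L1, a2, b2, hnd, a3, b3⟩
    · rw [Set.mem_singleton_iff] at h0
      rcases (g1 1).1 with h5 | h5
      · rw [h0] at a2 a3
        rw [h5] at b2 b3
        exact ⟨L1, L0, b2, a2, hnd', b3, a3⟩
      · rw [Set.mem_singleton_iff] at h5
        exact absurd (h0.trans h5.symm) hne
  · right
    have hYR := sub_Rs h h2 hu h4
    have h5 := ncard_le_of_RG h hYR (k := 1) (by omega)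
    have h6 := h.small hYR h5
    have hYu : Y = {u} := by
      apply Set.eq_singleton_iff_unique_mem.2
      exact ⟨h1, fun x hx => (Set.ncard_le_one (Set.toFinite _)).1 h6 x hx u h1⟩
    subst hYu
    have h7 := Nb_RG h hYR
    rw [Nb_singleton] at h7
    have h8 := h.base.deg3 u hu.1
    have hs1 : (Nb (RG G W b c y) {u}).ncard ≤ 1 := by omega
    rcases Set.ncard_le_one_iff_eq (Set.toFinite _) |>.1 hs1 with h9 | ⟨s, h9⟩
    · rw [h9, Set.empty_union] at h7
      have := (Set.ncard_le_ncard h7 (Set.toFinite _)).trans (ncard_pair_le' b c)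
      omega
    · rw [h9] at h7
      have h10 : ({s} : Set V) ∪ {b, c} = {s, b, c} := rfl
      rw [h10] at h7
      have h11 : ({s, b, c} : Set V).ncard ≤ 3 := by
        have := Set.ncard_insert_le s ({b, c} : Set V)
        have := ncard_pair_le' b c
        omega
      have h12 : G.neighborSet u = {s, b, c} := Set.eq_of_subset_of_ncard_le h7 (by omega)
        (Set.toFinite _)
      refine ⟨s, h12, ?_, ?_⟩
      · rintro rfl
        have : ({s, s, c} : Set V) = {s, c} := by simp
        rw [h12, this] at h8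
        have := ncard_pair_le' s c
        omega
      · rintro rfl
        have : ({s, b, s} : Set V) = {b, s} := by
          ext x; simp
        rw [h12, this] at h8
        have := ncard_pair_le' b s
        omega

/-- A path from a vertex of the rest to `p` or `q`. -/
lemma path_pq [Finite V] (h : O3 G U κ W p q r b c y) (hl : Col G κ W p q r b c y l) {u : V}
    (hu : u ∈ Rs G U W) :
    ∃ t, (t = p ∨ t = q) ∧ ∃ P1, PathIn G (Rs G U W) u t P1 ∧ (u :: P1).Nodup ∧
      (P1.length : ZMod 2) + 1 = l u + l t := by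
  have hun : u ∉ ({p, q} : Set V) := by
    simp only [Set.mem_insert_iff, Set.mem_singleton_iff, not_or]
    exact ⟨(h.Rs_notin hu).2.1, (h.Rs_notin hu).2.2.1⟩
  rcases fan_or_set (G := RG G W b c y) (k := 1) hun with hf | ⟨Y, h1, h2, h3, h4⟩
  · obtain ⟨e, P, g1, g2, g3⟩ := hf
    obtain ⟨L, a1, a2, a3⟩ := walk_list h hl (Rs_notin' h hu) (g1 0).1
      (fun hh => hun (hh ▸ (g1 0).1)) (P 0) (g1 0).2 (fun x hx _ hxpq => g2 0 x hx hxpq)
    refine ⟨e 0, (g1 0).1, L, a2, ?_, a3⟩
    have hn0 := (g1 0).2.support_nodup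
    rw [a1, List.nodup_cons, List.nodup_append] at hn0
    rw [List.nodup_cons]
    exact ⟨fun hh => hn0.1 (by simp [hh]), hn0.2.1⟩
  · exfalso
    have hYR := sub_Rs h h2 hu h4
    have h5 := ncard_le_of_RG h hYR (k := 0) (by omega)
    have h6 := h.small hYR (by omega)
    have hYu : Y = {u} := by
      apply Set.eq_singleton_iff_unique_mem.2
      exact ⟨h1, fun x hx => (Set.ncard_le_one (Set.toFinite _)).1 h6 x hx u h1⟩
    subst hYu
    rw [Nb_singleton] at h5
    have h8 := h.base.deg3 u hu.1
    omega

lemma CD.notin (h : CD G U κ W p q r b c y l lb ly lc A B C D Lb Lc Ly) :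
    ∀ x ∈ Rs G U W, x ∉ [p, lb, ly, lc, q] ++ A ++ B ++ C ++ D ++ Lb ++ Lc ++ Ly ++ [y] := by
  intro x hx hh
  obtain ⟨g1, g2, g3, g4, g5, g6⟩ := h.o3.Rs_notin hx
  rcases h.sp.mem x hh with k | k | k | k | k | k
  · exact g1 k
  · exact g2 k
  · exact g3 k
  · exact g4 k
  · exact g5 k
  · exact g6 k

lemma CD.notin' (h : CD G U κ W p q r b c y l lb ly lc A B C D Lb Lc Ly) :
    ∀ x ∈ Rs G U W, x ∉ [p, lb, ly, lc, q] ++ A ++ B ++ C ++ D ++ Lb ++ Ly ++ [y] := by
  intro x hx hh
  apply h.notin x hx
  simp only [List.mem_append] at hh ⊢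
  clear * - hh
  tauto

lemma zne1 {a b : ZMod 2} (h : a ≠ b) : a + b = 1 := by
  revert a b; decide

lemma even_of_par {n : ℕ} {a b : ZMod 2} (h : (n : ZMod 2) + 1 = a + b) (hab : a ≠ b) :
    Even n := by
  apply zmod2_even
  rw [zne1 hab] at h
  revert h
  generalize (n : ZMod 2) = m
  revert m
  decide

lemma pathIn_nil {R : Set V} {a b : V} (h : G.Adj a b) : PathIn G R a b [] :=
  ⟨by simpa using h, List.nodup_nil, by simp⟩

lemma zpc {a b : ZMod 2} (h : b ≠ a) : a + 1 + b = 0 := by
  revert a b; decide

lemma zpc' {a b : ZMod 2} (h : b = a) : a + 1 + b = 1 := by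
  revert a b; decide

/-- WW, with an inconsistent neighbour `u` of `b` in the rest. -/
lemma WWu [Finite V] (h : CD G U κ W p q r b c y l lb ly lc A B C D Lb Lc Ly)
    (hb : κ b ≠ κ p) (hc : κ c ≠ κ p) {u : V} (hu : u ∈ Rs G U W) (hbu : G.Adj b u)
    (hlu : l u = l b) : False := by
  have o := h.o3
  have hlup : l u ≠ l p := by rw [hlu, h.col.agb, h.col.agp]; exact hb
  have hlqp : l q = l p := by rw [h.col.agq, h.col.agp]
  rcases fan_or o h.col hu with ⟨P1, P2, a1, a2, a3, a4, a5⟩ | ⟨s, a1, -, -⟩
  · refine o.base.noT (h.sp.S2 o.yadj.1.symm h.notin' hu a1 a2 (pathIn_nil hbu.symm) ?_ ?_ ?_ ?_)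
    · simpa using a3
    · exact even_of_par a4 hlup
    · exact even_of_par a5 (by rw [hlqp]; exact hlup)
    · rw [zpc hb]; simp
  · have huc : G.Adj u c := by
      have : c ∈ G.neighborSet u := by rw [a1]; simp
      exact this
    obtain ⟨t, ht, P1, b1, b2, b3⟩ := path_pq o h.col hu
    rcases ht with rfl | rfl
    · refine o.base.noT (h.sp.S8 o.yadj.1.symm o.yadj.2.1.symm h.notin hu b1
        (pathIn_nil hbu.symm) (pathIn_nil huc) ?_ ?_ ?_ ?_)
      · simpa using b2
      · exact even_of_par b3 hlup
      · rw [zpc hb]; simp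
      · rw [zpc hc]; simp
    · have h' := h.symm
      refine o.base.noT (h'.sp.S8 o.yadj.2.1.symm o.yadj.1.symm h'.notin hu b1
        (pathIn_nil huc) (pathIn_nil hbu.symm) ?_ ?_ ?_ ?_)
      · simpa using b2
      · exact even_of_par b3 (by rw [hlqp]; exact hlup)
      · rw [← o.κpq, zpc hc]; simp
      · rw [← o.κpq, zpc hb]; simp

lemma inc_white {b' : V} (hl : Col G κ W p q r b c y l) {z : V} (hz : Inc G U W p q l b' z)
    (hb : l b' ≠ κ p) : z ∈ Rs G U W := by
  rcases hz.2.1 with h1 | h1 | h1
  · exact h1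
  · exfalso; apply hb; rw [← hz.2.2, h1, hl.agp]
  · exfalso; apply hb; rw [← hz.2.2, h1, hl.agq]

/-- WW. -/
lemma WW [Finite V] (h : CD G U κ W p q r b c y l lb ly lc A B C D Lb Lc Ly)
    (hb : κ b ≠ κ p) (hc : κ c ≠ κ p) : False := by
  have o := h.o3
  refine ind o h.col y b (Or.inl rfl) (fun _ => Or.inr (Or.inl rfl))
    (fun z _ => Or.inr (Or.inl rfl)) ?_
  intro z hz
  exfalso
  have h' := h.symm
  have hzR := inc_white h.col hz (by rw [h.col.agc]; exact hc)
  exact WWu h' (by rw [← o.κpq]; exact hc) (by rw [← o.κpq]; exact hb) hzR hz.1 hz.2.2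

/-- BW. -/
lemma BW [Finite V] (h : CD G U κ W p q r b c y l lb ly lc A B C D Lb Lc Ly)
    (hb : κ b = κ p) (hc : κ c ≠ κ p) : False := by
  have o := h.o3
  have h' := h.symm
  have hlqp : l q = l p := by rw [h.col.agq, h.col.agp]
  have hnbc : G.Adj b c → l b ≠ l c := by
    intro _
    rw [h.col.agb, h.col.agc, hb]
    exact hc.symm
  -- an inconsistent neighbour of c
  by_cases hw : ∃ w, Inc G U W p q l c w
  swap
  · push Not at hw
    exact ind o h.col y b (Or.inl rfl) (fun _ => Or.inr (Or.inl rfl))
      (fun z _ => Or.inr (Or.inl rfl)) (fun z hz => absurd hz (hw z))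
  obtain ⟨w, hw⟩ := hw
  have key : ∀ w, Inc G U W p q l c w → w ∈ Rs G U W ∧ (∃ s, G.neighborSet w = {s, b, c} ∧
      s ≠ b ∧ s ≠ c) := by
    intro w hw
    have hwR := inc_white h.col hw (by rw [h.col.agc]; exact hc)
    refine ⟨hwR, ?_⟩
    have hlwp : l w ≠ l p := by rw [hw.2.2, h.col.agc, h.col.agp]; exact hc
    rcases fan_or o h.col hwR with ⟨P1, P2, a1, a2, a3, a4, a5⟩ | a
    · exfalso
      refine o.base.noT (h'.sp.S2 o.yadj.2.1.symm h'.notin' hwR a2 a1 (pathIn_nil hw.1.symm)
        ?_ ?_ ?_ ?_)
      · have : (w :: (P2 ++ P1 ++ [])).Perm (w :: (P1 ++ P2)) := by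
          rw [List.append_nil]
          exact List.Perm.cons _ List.perm_append_comm
        exact this.nodup_iff.2 a3
      · exact even_of_par a5 (by rw [hlqp]; exact hlwp)
      · exact even_of_par a4 hlwp
      · rw [← o.κpq, zpc hc]; simp
    · exact a
  obtain ⟨hwR, s, hNw, hsb, hsc⟩ := key w hw
  have hwb : G.Adj w b := by
    have : b ∈ G.neighborSet w := by rw [hNw]; simp
    exact this
  by_cases hpath : ∃ L, PathIn G (Rs G U W) p q L
  · -- S1
    obtain ⟨L, hL⟩ := hpath
    have hwL : w ∉ L := by
      intro hh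
      obtain ⟨L1, L2, rfl⟩ := List.append_of_mem hh
      -- two different neighbours of w on the path
      have hch : List.IsChain G.Adj ((p :: L1) ++ (w :: (L2 ++ [q]))) := by
        have := hL.ch
        simpa using this
      rw [List.isChain_append] at hch
      obtain ⟨c1, c2, c3⟩ := hch
      rw [List.isChain_cons] at c2
      obtain ⟨x1, hx1⟩ : ∃ x1, (p :: L1).getLast? = some x1 := by
        rw [List.getLast?_eq_some_getLast (List.cons_ne_nil _ _)]
        exact ⟨_, rfl⟩
      obtain ⟨x2, hx2⟩ : ∃ x2, (L2 ++ [q]).head? = some x2 := by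
        cases L2 with
        | nil => exact ⟨q, rfl⟩
        | cons a L2 => exact ⟨a, rfl⟩
      have e1 : G.Adj x1 w := c3 x1 (by rw [hx1]; rfl) w (by simp)
      have e2 : G.Adj w x2 := c2.1 x2 (by rw [hx2]; rfl)
      have m1 : x1 ∈ p :: L1 := List.mem_of_getLast? hx1
      have m2 : x2 ∈ L2 ++ [q] := List.mem_of_mem_head? hx2
      have hnd := hL.nd
      have r1 : x1 = p ∨ x1 ∈ Rs G U W := by
        rw [List.mem_cons] at m1
        exact m1.imp_right (fun m => hL.mem x1 (by simp [m]))
      have r2 : x2 = q ∨ x2 ∈ Rs G U W := by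
        rw [List.mem_append, List.mem_singleton] at m2
        exact m2.symm.imp_right (fun m => hL.mem x2 (by simp [m]))
      have hne : x1 ≠ x2 := by
        rintro rfl
        rw [List.mem_cons] at m1
        rw [List.mem_append, List.mem_singleton] at m2
        rcases m1 with m1 | m1
        · rcases m2 with m2 | m2
          · exact (o.Rs_notin (hL.mem x1 (by simp [m2]))).2.1 m1
          · exact o.pq (m1.symm.trans m2)
        · rcases m2 with m2 | m2
          · rw [List.nodup_append] at hnd
            exact hnd.2.2 x1 m1 x1 (by simp [m2]) rfl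
          · exact (o.Rs_notin (hL.mem x1 (by simp [m1]))).2.2.1 m2
      have hx : ∀ x, G.Adj w x → (x = p ∨ x = q ∨ x ∈ Rs G U W) → x = s := by
        intro x hx hx'
        have h1 : x ∈ G.neighborSet w := hx
        rw [hNw] at h1
        rcases h1 with h1 | h1 | h1
        · exact h1
        · exfalso
          rw [h1] at hx'
          rcases hx' with k | k | k
          · exact o.pb k.symm
          · exact o.qb k.symm
          · exact (o.Rs_notin k).2.2.2.1 rfl
        · exfalso
          rw [Set.mem_singleton_iff] at h1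
          rw [h1] at hx'
          rcases hx' with k | k | k
          · exact o.pc k.symm
          · exact o.qc k.symm
          · exact (o.Rs_notin k).2.2.2.2.1 rfl
      have f1 := hx x1 e1.symm (by
        rcases r1 with k | k
        · exact Or.inl k
        · exact Or.inr (Or.inr k))
      have f2 := hx x2 e2 (by
        rcases r2 with k | k
        · exact Or.inr (Or.inl k)
        · exact Or.inr (Or.inr k))
      exact hne (f1.trans f2.symm)
    refine o.base.noT (h.sp.S1 o.yadj.1.symm h.notin hL (P2 := [w]) ⟨?_, by simp, ?_⟩ ?_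
      (o.noodd hL) ?_)
    · simp only [List.cons_append, List.nil_append, List.isChain_cons_cons, List.isChain_singleton,
        and_true]
      exact ⟨hwb.symm, hw.1.symm⟩
    · intro x hx
      rw [List.mem_singleton] at hx
      rw [hx]; exact hwR
    · rw [List.nodup_append]
      refine ⟨hL.nd, by simp, ?_⟩
      rintro x hx x' hx' rfl
      rw [List.mem_singleton] at hx'
      exact hwL (hx' ▸ hx)
    · rw [zpc' hb, zpc hc]; simp
  · -- p and q are not connected
    push Not at hpath
    -- T3 : no vertex with neighbours q, b, c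
    have hq : ∀ x ∈ Rs G U W, G.neighborSet x ≠ {q, b, c} := by
      intro x hx hN
      have e1 : G.Adj x q := by
        have : q ∈ G.neighborSet x := by rw [hN]; simp
        exact this
      have e2 : G.Adj x b := by
        have : b ∈ G.neighborSet x := by rw [hN]; simp
        exact this
      have e3 : G.Adj x c := by
        have : c ∈ G.neighborSet x := by rw [hN]; simp
        exact this
      refine o.base.noT (h.sp.T3 o.yadj.2.1.symm h.notin hx (pathIn_nil e1) (pathIn_nil e2)
        (pathIn_nil e3) (by simp) (by simp) ?_ ?_)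
      · rw [zpc' hb]; simp only [List.length_nil, Nat.cast_zero]; decide
      · rw [zpc hc]; simp
    have hall : ∀ x ∈ Rs G U W, G.neighborSet x = {p, b, c} := by
      intro x hx
      rcases o.F4 hpath hx with k | k
      · exact k
      · exact absurd k (hq x hx)
    have huniq : ∀ x ∈ Rs G U W, x = w := by
      intro x hx
      have hsub : ({x, w} : Set V) ⊆ Rs G U W := by
        rintro z (rfl | hz)
        · exact hx
        · rw [Set.mem_singleton_iff] at hz; rw [hz]; exact hwR
      have hN : Nb G {x, w} ⊆ {p, b, c} := by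
        rintro v ⟨-, z, hz, hzv⟩
        rw [← hall z (hsub hz)]
        exact hzv
      have h3 : ({p, b, c} : Set V).ncard ≤ 3 := by
        have := Set.ncard_insert_le p ({b, c} : Set V)
        have := ncard_pair_le' b c
        omega
      have h4 := o.small hsub ((Set.ncard_le_ncard hN (Set.toFinite _)).trans h3)
      exact (Set.ncard_le_one (Set.toFinite _)).1 h4 x (Or.inl rfl) w (Or.inr rfl)
    have hwp : G.Adj w p := by
      have : p ∈ G.neighborSet w := by rw [hall w hwR]; simp
      exact this
    -- b is adjacent to p or q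
    have hbpq : G.Adj b p ∨ G.Adj b q := by
      by_contra hcon
      rw [not_or] at hcon
      refine ind o h.col y c (Or.inl rfl) (fun _ => Or.inr (Or.inr (Or.inr (Or.inl rfl)))) ?_
        (fun z _ => Or.inr (Or.inl rfl))
      intro z hz
      exfalso
      rcases hz.2.1 with k | k | k
      · have k1 := huniq z k
        have k2 := hz.2.2
        rw [k1, hw.2.2, h.col.agc, h.col.agb, hb] at k2
        exact hc k2
      · exact hcon.1 (k ▸ hz.1)
      · exact hcon.2 (k ▸ hz.1)
    have nd := h.sp.nodup
    have e0 : κ p + 1 + κ b = 1 := zpc' hb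
    have e00 : κ p + 1 + κ c = 0 := zpc hc
    have sp := h.sp
    rw [e0, e00] at sp
    rcases hbpq with k | k
    · exact o.base.noT (sp.E hwp hwb hw.1.symm (M := []) (by simpa using k.symm) (by simp) (by simp)
        (by simp) (h.notin w hwR) (by simp))
    · refine o.base.noT (sp.E hwp hwb hw.1.symm (M := [y, q]) ?_ ?_ (by simp) ?_
        (h.notin w hwR) ?_)
      · simp only [List.cons_append, List.nil_append, List.isChain_cons_cons,
          List.isChain_singleton, and_true]
        exact ⟨o.yadj.1.symm, o.yadj.2.1, k.symm⟩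
      · simp only [List.nodup_cons, List.mem_singleton, List.not_mem_nil, not_false_eq_true,
          List.nodup_nil, and_true]
        exact o.yadj.2.1.ne
      · simp only [List.mem_cons, List.not_mem_nil, or_false, not_or]
        exact ⟨(o.Rs_notin hwR).2.2.2.2.2, (o.Rs_notin hwR).2.2.1⟩
      · have hp1 : ([y, q] ++ ([p, lb, ly, lc] ++ A ++ B ++ C ++ Lb ++ Lc) ++ (D ++ Ly)).Perm
            ([p, lb, ly, lc, q] ++ A ++ B ++ C ++ D ++ Lb ++ Lc ++ Ly ++ [y]) := by
          rw [← Multiset.coe_eq_coe]
          simp only [← Multiset.coe_add, ← Multiset.cons_coe, ← Multiset.singleton_add,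
            Multiset.coe_nil]
          abel
        have hn := (List.nodup_append.1 (hp1.nodup_iff.2 nd)).1
        intro z hz hz'
        exact (List.nodup_append.1 hn).2.2 z hz z hz' rfl


/-- Walks of `R'` from an inconsistent neighbour of `b` as lists. -/
lemma walk_list_b (h : O3 G U κ W p q r b c y) (hl : Col G κ W p q r b c y l) {a t : V}
    (hba : G.Adj b a) (ha : a ∈ Rs G U W ∨ a = p ∨ a = q)
    (P : (RG G W b c y).Walk a t) (hP : P.IsPath)
    (hpq : ∀ x ∈ P.support, x = p ∨ x = q → x = t) (hla : l a = l t) :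
    ∃ L, P.support = L ++ [t] ∧ PathIn G (Rs G U W) b t L ∧ Even L.length := by
  have hau : a ∉ W ∪ ({b, c, y} : Set V) := by
    rcases ha with h1 | h1 | h1
    · exact Rs_notin' h h1
    · simp only [Set.mem_union, Set.mem_insert_iff, Set.mem_singleton_iff, not_or]
      rw [h1]
      exact ⟨h.notW.1, h.pb, h.pc, h.yadj.1.ne.symm⟩
    · simp only [Set.mem_union, Set.mem_insert_iff, Set.mem_singleton_iff, not_or]
      rw [h1]
      exact ⟨h.notW.2.1, h.qb, h.qc, h.yadj.2.1.ne.symm⟩
  have hs : P.support = P.support.dropLast ++ [t] := by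
    have h1 := List.dropLast_append_getLast (P.support_ne_nil)
    rw [P.getLast_support] at h1
    exact h1.symm
  have hnd := hP.support_nodup
  have hch : List.IsChain (RG G W b c y).Adj P.support := P.isChain_adj_support
  have hlen : P.support.dropLast.length = P.length := by
    rw [List.length_dropLast, Walk.length_support]
    rfl
  generalize hL : P.support.dropLast = L at *
  have hchG : List.IsChain G.Adj (b :: (L ++ [t])) := by
    rw [← hs, List.isChain_cons]
    refine ⟨?_, hch.imp (fun _ _ hab => hab.1)⟩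
    intro x hx
    rw [P.support_eq_cons] at hx
    simp only [List.head?_cons, Option.mem_def, Option.some.injEq] at hx
    rw [← hx]; exact hba
  refine ⟨L, hs, ⟨hchG, ?_, ?_⟩, ?_⟩
  · rw [hs, List.nodup_append] at hnd
    exact hnd.1
  · intro x hx
    have hxs : x ∈ P.support := by rw [hs]; simp [hx]
    have hxn := notMem_of_mem_support_delG P hau x hxs
    have hxt : x ≠ t := by
      rw [hs, List.nodup_append] at hnd
      exact hnd.2.2 x hx t (by simp)
    obtain ⟨z', hz'⟩ := chain_nbr (L ++ [t]) b hchG (by simp) x (by simp [hx])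
    have hadj : ∃ w, G.Adj x w := by
      rcases hz' with h4 | h4
      · exact ⟨_, h4⟩
      · exact ⟨_, h4.symm⟩
    obtain ⟨w, hw⟩ := hadj
    simp only [Set.mem_union, Set.mem_insert_iff, Set.mem_singleton_iff, not_or] at hxn
    rcases h.where_ hw with h5 | h5 | h5 | h5 | h5 | h5 | h5
    · exact absurd h5 hxn.1
    · exact h5
    · exact absurd (hpq x hxs (Or.inl h5)) hxt
    · exact absurd (hpq x hxs (Or.inr h5)) hxt
    · exact absurd h5 hxn.2.1
    · exact absurd h5 hxn.2.2.1
    · exact absurd h5 hxn.2.2.2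
  · by_cases hat : a = t
    · subst hat
      have h1 : P.length = 0 := by
        rw [Walk.isPath_iff_eq_nil] at hP
        rw [hP]; rfl
      rw [hlen, h1]; exact Even.zero
    · obtain ⟨M, h1, h2, h3⟩ := exists_list_of_walk' P hP hat
      have h4 := chain_parity (κ := l) (M ++ [t]) a t (h2.imp (fun _ _ hab => RG_prop hl hab))
        (by rw [← List.cons_append]; exact List.getLast?_concat)
      have h5 : L.length = (M ++ [t]).length := by
        have h6 := congrArg List.length h1
        rw [hs] at h6
        simp only [List.length_append, List.length_cons, List.length_nil] at h6 ⊢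
        omega
      rw [h5]
      apply zmod2_even
      rw [h4, hla]
      generalize l t = e
      revert e; decide

/-- The set of inconsistent neighbours of `b`, as a separated vertex. -/
lemma sep_aux [Finite V] (h : O3 G U κ W p q r b c y) {S : Finset V} (hS : S.card < 2) {u : V}
    (hu : u ∈ Rs G U W ∨ u = p ∨ u = q) (huS : u ∉ S)
    (hsep : ∀ x, x = p ∨ x = q → ∀ w : (RG G W b c y).Walk u x, ∃ z ∈ w.support, z ∈ S) :
    u ∈ Rs G U W ∧ ∃ s, S = {s} ∧ G.neighborSet u = {s, b, c} ∧ s ≠ b ∧ s ≠ c ∧
      (RG G W b c y).Adj u s := by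
  classical
  have hup : u ≠ p := by
    rintro rfl
    obtain ⟨z, hz, hzS⟩ := hsep u (Or.inl rfl) Walk.nil
    rw [Walk.support_nil, List.mem_singleton] at hz
    exact huS (hz ▸ hzS)
  have huq : u ≠ q := by
    rintro rfl
    obtain ⟨z, hz, hzS⟩ := hsep u (Or.inr rfl) Walk.nil
    rw [Walk.support_nil, List.mem_singleton] at hz
    exact huS (hz ▸ hzS)
  have huR : u ∈ Rs G U W := by
    rcases hu with k | k | k
    · exact k
    · exact absurd k hup
    · exact absurd k huq
  set Y : Set V := Reach (RG G W b c y) {u} (S : Set V) with hY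
  have huY : u ∈ Y := reach_of_mem rfl (by simpa using huS)
  have hYpq : Disjoint Y {p, q} := by
    rw [Set.disjoint_left]
    rintro x ⟨a, ha, w, hw⟩ hx
    rw [Set.mem_singleton_iff] at ha
    subst ha
    obtain ⟨z, hz, hzS⟩ := hsep x hx w
    exact hw z hz hzS
  have hYw : ∀ x ∈ Y, ∃ P : (RG G W b c y).Walk u x, ∀ z ∈ P.support, z ∈ Y := by
    rintro x ⟨a, ha, w, hw⟩
    rw [Set.mem_singleton_iff] at ha
    subst ha
    refine ⟨w, ?_⟩
    intro z hz
    exact ⟨a, rfl, w.takeUntil z hz,
      fun z' hz' => hw z' (Walk.support_takeUntil_subset_support _ _ hz')⟩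
  have hYR := sub_Rs h hYpq huR hYw
  have hNS : Nb (RG G W b c y) Y ⊆ (S : Set V) := by
    rintro v ⟨hv, u', hu', huv⟩
    by_contra hvS
    exact hv (reach_adj hu' huv hvS)
  have hN1 : (Nb (RG G W b c y) Y).ncard ≤ 1 := by
    have := Set.ncard_le_ncard hNS (Set.toFinite _)
    rw [Set.ncard_coe_finset] at this
    omega
  have h6 := h.small hYR (ncard_le_of_RG h hYR hN1)
  have hYu : Y = {u} := by
    apply Set.eq_singleton_iff_unique_mem.2
    exact ⟨huY, fun x hx => (Set.ncard_le_one (Set.toFinite _)).1 h6 x hx u huY⟩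
  have h7 := Nb_RG h hYR
  rw [hYu] at h7 hNS hN1
  rw [Nb_singleton] at h7
  have h8 := h.base.deg3 u huR.1
  have h9 := (h7.trans (Set.union_subset_union_left _ hNS))
  have hne : (Nb (RG G W b c y) {u}).Nonempty := by
    by_contra hcon
    rw [Set.not_nonempty_iff_eq_empty] at hcon
    rw [hcon, Set.empty_union] at h7
    have := (Set.ncard_le_ncard h7 (Set.toFinite _)).trans (ncard_pair_le' b c)
    omega
  obtain ⟨s, hs⟩ := hne
  have hsS : s ∈ S := by simpa using hNS hs
  have hSs : S = {s} := by
    have h10 : S.card ≤ 1 := by omega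
    rw [Finset.card_le_one] at h10
    exact Finset.eq_singleton_iff_unique_mem.2 ⟨hsS, fun x hx => h10 x hx s hsS⟩
  rw [hSs, Finset.coe_singleton] at h9
  have h10 : ({s} : Set V) ∪ {b, c} = {s, b, c} := rfl
  rw [h10] at h9
  have h11 : ({s, b, c} : Set V).ncard ≤ 3 := by
    have := Set.ncard_insert_le s ({b, c} : Set V)
    have := ncard_pair_le' b c
    omega
  have h12 : G.neighborSet u = {s, b, c} := Set.eq_of_subset_of_ncard_le h9 (by omega)
    (Set.toFinite _)
  have hus : (RG G W b c y).Adj u s := by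
    obtain ⟨-, u', hu', hus⟩ := hs
    rw [Set.mem_singleton_iff] at hu'
    rw [← hu']; exact hus
  have hsn := (delG_adj.1 hus).2.2
  simp only [Set.mem_union, Set.mem_insert_iff, Set.mem_singleton_iff, not_or] at hsn
  exact ⟨huR, s, hSs, h12, hsn.2.1, hsn.2.2.1, hus⟩

/-- Two inconsistent neighbours of the black vertex `b`. -/
lemma MMa [Finite V] (h : CD G U κ W p q r b c y l lb ly lc A B C D Lb Lc Ly)
    (hb : κ b = κ p) {z z' : V} (hz : Inc G U W p q l b z) (hz' : Inc G U W p q l b z')
    (hne : z ≠ z') : False := by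
  classical
  have o := h.o3
  have hlqp : l q = l p := by rw [h.col.agq, h.col.agp]
  have hlbp : l b = l p := by rw [h.col.agb, h.col.agp, hb]
  by_cases hlk : Linked (RG G W b c y) {x | Inc G U W p q l b x} {p, q} 2
  · obtain ⟨a, t, P, g1, gA, gB, g2⟩ := Linked.trim hlk
    have hane : t 0 ≠ t 1 := fun hh => absurd (injective_end g2 hh) (by decide)
    have main : ∀ i : Fin 2, ∃ L, (P i).support = L ++ [t i] ∧
        PathIn G (Rs G U W) b (t i) L ∧ Even L.length := by
      intro i
      have hIa : Inc G U W p q l b (a i) := (g1 i).1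
      refine walk_list_b o h.col hIa.1 hIa.2.1 (P i) (g1 i).2.2
        (fun x hx hxpq => gB i x hx hxpq) ?_
      rw [hIa.2.2, hlbp]
      rcases (g1 i).2.1 with k | k
      · rw [k]
      · rw [Set.mem_singleton_iff] at k; rw [k, hlqp]
    obtain ⟨L0, a1, a2, a3⟩ := main 0
    obtain ⟨L1, b1, b2, b3⟩ := main 1
    have hd : ∀ x ∈ L0, ∀ x' ∈ L1, x ≠ x' := by
      rintro x hx x' hx' rfl
      exact g2 0 1 (by decide) x (by rw [a1]; simp [hx]) (by rw [b1]; simp [hx'])
    have sp := h.sp
    rw [zpc' hb] at sp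
    have fin : ∀ P1 P2, PathIn G (Rs G U W) b p P1 → PathIn G (Rs G U W) b q P2 →
        (∀ x ∈ P1, ∀ x' ∈ P2, x ≠ x') → Even P1.length → Even P2.length → False := by
      intro P1 P2 k1 k2 k3 k4 k5
      exact o.base.noT (sp.S3 o.yadj.1.symm h.notin' k1 k2
        (List.nodup_append.2 ⟨k1.nd, k2.nd, k3⟩) k4 k5)
    rcases (g1 0).2.1 with h0 | h0
    · rcases (g1 1).2.1 with h5 | h5
      · exact hane (h0.trans h5.symm)
      · rw [Set.mem_singleton_iff] at h5
        rw [h0] at a2
        rw [h5] at b2
        exact fin L0 L1 a2 b2 hd a3 b3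
    · rw [Set.mem_singleton_iff] at h0
      rcases (g1 1).2.1 with h5 | h5
      · rw [h0] at a2
        rw [h5] at b2
        exact fin L1 L0 b2 a2 (fun x hx x' hx' hh => hd x' hx' x hx hh.symm) b3 a3
      · rw [Set.mem_singleton_iff] at h5
        exact hane (h0.trans h5.symm)
  · have hns : ∃ S : Finset V, S.card < 2 ∧
        Sep (RG G W b c y) {x | Inc G U W p q l b x} {p, q} (S : Set V) := by
      by_contra hcon
      push Not at hcon
      exact hlk (menger (RG G W b c y) _ _ 2 fun S hS => hcon S hS)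
    obtain ⟨S, hS, hsep⟩ := hns
    have key : ∀ u, Inc G U W p q l b u → u ∉ S → u ∈ Rs G U W ∧ ∃ s, S = {s} ∧
        G.neighborSet u = {s, b, c} ∧ s ≠ b ∧ s ≠ c ∧ (RG G W b c y).Adj u s := by
      intro u hu huS
      exact sep_aux o hS hu.2.1 huS (fun x hx w => hsep u hu x hx w)
    have main : ∀ u u', Inc G U W p q l b u → Inc G U W p q l b u' → u ≠ u' → u ∉ S → False := by
      intro u u' hu hu' huu huS
      obtain ⟨k1, s, k2, k3, k4, k5, k6⟩ := key u hu huS
      by_cases hus : u' = s
      · refine RG_prop h.col k6 ?_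
        rw [← hus, hu.2.2, hu'.2.2]
      · obtain ⟨m1, s', m2, m3, m4, m5, m6⟩ := key u' hu' (by rw [k2]; simpa using hus)
        have hss : s' = s := by
          rw [k2, Finset.singleton_inj] at m2
          exact m2.symm
        rw [hss] at m3
        have hsub : ({u, u'} : Set V) ⊆ Rs G U W := by
          rintro x (rfl | hx)
          · exact k1
          · rw [Set.mem_singleton_iff] at hx; rw [hx]; exact m1
        have hN : Nb G {u, u'} ⊆ {s, b, c} := by
          rintro v ⟨-, x, hx, hxv⟩
          rcases hx with hx | hx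
          · rw [← k3, ← hx]; exact hxv
          · rw [Set.mem_singleton_iff] at hx
            rw [← m3, ← hx]; exact hxv
        have h3 : ({s, b, c} : Set V).ncard ≤ 3 := by
          have := Set.ncard_insert_le s ({b, c} : Set V)
          have := ncard_pair_le' b c
          omega
        have h4 := o.small hsub ((Set.ncard_le_ncard hN (Set.toFinite _)).trans h3)
        exact huu ((Set.ncard_le_one (Set.toFinite _)).1 h4 u (Or.inl rfl) u' (Or.inr rfl))
    by_cases hzS : z ∈ S
    · refine main z' z hz' hz hne.symm ?_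
      intro hz'S
      have h10 : S.card ≤ 1 := by omega
      rw [Finset.card_le_one] at h10
      exact hne (h10 z hzS z' hz'S)
    · exact main z z' hz hz' hne hzS

/-- Black vertices of the rest in the case of two components. -/
lemma F4_white [Finite V] (h : CD G U κ W p q r b c y l lb ly lc A B C D Lb Lc Ly)
    (hpath : ∀ L, ¬ PathIn G (Rs G U W) p q L) {x : V} (hx : x ∈ Rs G U W) : l x ≠ κ p := by
  have o := h.o3
  have key : ∀ t, t = p ∨ t = q → G.Adj x t → l x ≠ κ p := by
    intro t ht hxt
    have hlt : l t = κ p := by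
      rcases ht with k | k
      · rw [k, h.col.agp]
      · rw [k, h.col.agq]
    rw [← hlt]
    obtain ⟨k1, k2, k3, k4, k5, k6⟩ := o.Rs_notin hx
    refine h.col.prop x t hxt k4 k5 ?_ ?_ ?_
    · rcases ht with k | k
      · rw [k]; exact o.pb
      · rw [k]; exact o.qb
    · rcases ht with k | k
      · rw [k]; exact o.pc
      · rw [k]; exact o.qc
    · intro hh
      rw [Sym2.eq_iff] at hh
      rcases hh with ⟨hh, -⟩ | ⟨hh, -⟩
      · exact k6 hh
      · exact k1 (hh ▸ o.rW)
  rcases o.F4 hpath hx with k | k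
  · refine key p (Or.inl rfl) ?_
    have : p ∈ G.neighborSet x := by rw [k]; simp
    exact this
  · refine key q (Or.inr rfl) ?_
    have : q ∈ G.neighborSet x := by rw [k]; simp
    exact this

/-- A path `b c x` to `p` or `q`. -/
lemma MMc1 [Finite V] (h : CD G U κ W p q r b c y l lb ly lc A B C D Lb Lc Ly)
    (hb : κ b = κ p) (hc : κ c = κ p) (hbc : G.Adj b c) {x : V} (hx : x ∈ Rs G U W)
    (hcx : G.Adj c x) :
    (G.Adj b p → G.Adj x q → False) ∧ (G.Adj b q → G.Adj x p → False) := by
  classical
  have o := h.o3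
  have sp := h.sp
  rw [zpc' hb, zpc' hc] at sp
  have hcL : c ∈ Lc := by
    have h1 := sp.lastLc
    have h2 := sp.eLc
    cases Lc with
    | nil => simp at h2
    | cons a Lc =>
      rw [List.getLast?_cons_cons] at h1
      exact List.mem_of_getLast? h1
  have hcn : c ∉ [p, lb, ly, lc, q] ++ A ++ B ++ C ++ D ++ Lb ++ Ly ++ [y] := by
    have hp1 : (([p, lb, ly, lc, q] ++ A ++ B ++ C ++ D ++ Lb ++ Ly ++ [y]) ++ Lc).Perm
        ([p, lb, ly, lc, q] ++ A ++ B ++ C ++ D ++ Lb ++ Lc ++ Ly ++ [y]) := by
      rw [← Multiset.coe_eq_coe]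
      simp only [← Multiset.coe_add, ← Multiset.cons_coe, ← Multiset.singleton_add,
        Multiset.coe_nil]
      abel
    intro hh
    exact (List.nodup_append.1 (hp1.nodup_iff.2 sp.nodup)).2.2 c hh c hcL rfl
  have hR : ∀ z ∈ ({c, x} : Set V), z ∉ [p, lb, ly, lc, q] ++ A ++ B ++ C ++ D ++ Lb ++ Ly ++ [y] := by
    rintro z (rfl | hz)
    · exact hcn
    · rw [Set.mem_singleton_iff] at hz
      rw [hz]; exact h.notin' x hx
  have hpi : ∀ t, G.Adj x t → PathIn G ({c, x} : Set V) b t [c, x] := by
    intro t ht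
    refine ⟨?_, ?_, ?_⟩
    · simp only [List.cons_append, List.nil_append, List.isChain_cons_cons,
        List.isChain_singleton, and_true]
      exact ⟨hbc, hcx, ht⟩
    · simp only [List.nodup_cons, List.mem_singleton, List.not_mem_nil, not_false_eq_true,
        List.nodup_nil, and_true]
      exact hcx.ne
    · intro z hz
      simpa using hz
  constructor
  · intro h1 h2
    refine o.base.noT (sp.S3 o.yadj.1.symm hR (pathIn_nil h1) (hpi q h2) ?_ (by simp) ⟨1, rfl⟩)
    simpa using hcx.ne
  · intro h1 h2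
    refine o.base.noT (sp.S3 o.yadj.1.symm hR (hpi p h2) (pathIn_nil h1) ?_ ⟨1, rfl⟩ (by simp))
    simpa using hcx.ne

/-- A `K4`. -/
lemma K4_false (h : O3 G U κ W p q r b c y) {x t : V} (h1 : G.Adj x t) (h2 : G.Adj x b)
    (h3 : G.Adj x c) (h4 : G.Adj t b) (h5 : G.Adj t c) (h6 : G.Adj b c) : False := by
  refine h.base.noT (hasTOK4_of_nodup (a := x) (b := t) (c := b) (d := c) (L01 := [])
    (L02 := []) (L03 := []) (L12 := []) (L13 := []) (L23 := []) (by simpa using h1)
    (by simpa using h2) (by simpa using h3) (by simpa using h4) (by simpa using h5)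
    (by simpa using h6) (by simp) (by simp) (by simp) (by simp) (by simp) (by simp) ?_)
  simp [h1.ne, h2.ne, h3.ne, h4.ne, h5.ne, h6.ne]

lemma r_mem (h : CD G U κ W p q r b c y l lb ly lc A B C D Lb Lc Ly) : r ∈ Ly := by
  classical
  have sp := h.sp
  have o := h.o3
  have hne : Ly ≠ [] := by
    rintro rfl
    have := sp.eLy
    simp at this
  obtain ⟨L, s, rfl⟩ : ∃ L s, Ly = L ++ [s] :=
    ⟨_, _, (List.dropLast_append_getLast hne).symm⟩
  have hch : List.IsChain G.Adj ((ly :: L) ++ ([s, y])) := by
    have := sp.chLy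
    simpa using this
  rw [List.isChain_append] at hch
  have h1 : G.Adj s y := by
    have := hch.2.1
    simpa using this
  rcases o.yN h1.symm with k | k | k
  · exfalso
    have nd := sp.nodup
    rw [k] at nd
    have hc := List.nodup_iff_count_le_one.1 nd p
    simp only [List.count_append, List.count_cons, List.count_nil, beq_self_eq_true,
      if_true] at hc
    omega
  · exfalso
    have nd := sp.nodup
    rw [k] at nd
    have hc := List.nodup_iff_count_le_one.1 nd q
    simp only [List.count_append, List.count_cons, List.count_nil, beq_self_eq_true,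
      if_true] at hc
    omega
  · rw [k]; simp

/-- The first vertex of the path is not the only neighbour of `p` in `W`. -/
lemma p_nbr (h : CD G U κ W p q r b c y l lb ly lc A B C D Lb Lc Ly) {u : V}
    (hu : u ∈ Rs G U W) : G.neighborSet p ≠ {u, y, r} := by
  classical
  intro hN
  have sp := h.sp
  have hr := r_mem h
  have hun := h.notin u hu
  have key : ∀ z, z ∈ A ++ [lb] → G.Adj p z → False := by
    intro z hz hpz
    have h1 : z ∈ G.neighborSet p := hpz
    rw [hN] at h1
    have nd := sp.nodup
    rcases h1 with k | k | k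
    · rw [k] at hz
      apply hun
      simp only [List.mem_append, List.mem_cons, List.not_mem_nil, or_false] at hz ⊢
      clear * - hz
      tauto
    · rw [k] at hz
      have hc := List.nodup_iff_count_le_one.1 nd y
      have hc' := List.count_pos_iff.2 hz
      simp only [List.count_append, List.count_cons, List.count_nil, beq_self_eq_true,
        if_true] at hc hc'
      omega
    · rw [Set.mem_singleton_iff] at k
      rw [k] at hz
      have hc := List.nodup_iff_count_le_one.1 nd r
      have hc' := List.count_pos_iff.2 hz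
      have hc'' := List.count_pos_iff.2 hr
      simp only [List.count_append, List.count_cons, List.count_nil, beq_self_eq_true,
        if_true] at hc hc' hc''
      omega
  have hch := sp.chA
  cases hA : A ++ [lb] with
  | nil => simp at hA
  | cons a A' =>
    rw [hA, List.isChain_cons_cons] at hch
    exact key a (by rw [hA]; simp) hch.1

/-- Vee for an inconsistent neighbour of `b` in the rest. -/
lemma MMvee [Finite V] (h : CD G U κ W p q r b c y l lb ly lc A B C D Lb Lc Ly)
    (hbc : ¬ G.Adj b c) {u u' : V} (huu : u ≠ u') (hu : Inc G U W p q l b u)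
    (hu' : Inc G U W p q l c u') (hall : ∀ z, Inc G U W p q l b z → z = u)
    (hall' : ∀ z, Inc G U W p q l c z → z = u') (huR : u ∈ Rs G U W) : False := by
  have o := h.o3
  obtain ⟨hpW, hqW, hbW, hcW, hyW⟩ := o.notW
  obtain ⟨k1, k2, k3, k4, k5, k6⟩ := o.Rs_notin huR
  have hyu' : y ≠ u' := by
    rintro rfl
    rcases hu'.2.1 with k | k | k
    · exact (o.Rs_notin k).2.2.2.2.2 rfl
    · exact o.yadj.1.ne k
    · exact o.yadj.2.1.ne k
  have hru' : r ≠ u' := by
    rintro rfl
    rcases hu'.2.1 with k | k | k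
    · exact (o.Rs_notin k).1 o.rW
    · exact hpW (k ▸ o.rW)
    · exact hqW (k ▸ o.rW)
  have hur : u ≠ r := fun hh => k1 (hh ▸ o.rW)
  have nuy : ¬ G.Adj u y := by
    intro hh
    rcases o.yN hh.symm with k | k | k
    · exact k2 k
    · exact k3 k
    · exact hur k
  have nur : ¬ G.Adj u r := by
    intro hh
    apply huR.2
    right
    exact ⟨k1, r, o.rW, hh.symm⟩
  refine vee o.base (κ := l) (z := u) (g := y) (h := r) (k := c) (l := u') o.yadj.2.2 hu'.1
    k6 hur k5 huu o.yc hyu' (fun hh => hcW (hh ▸ o.rW)) hru' nuy nur ?_ ?_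
  · intro x hN
    have e1 : G.Adj x y := by
      have : y ∈ G.neighborSet x := by rw [hN]; simp
      exact this
    have e2 : G.Adj x r := by
      have : r ∈ G.neighborSet x := by rw [hN]; simp
      exact this
    rcases o.yN e1.symm with k | k | k
    · rw [k] at hN
      exact p_nbr h huR hN
    · rw [k] at hN
      exact p_nbr h.symm huR hN
    · exact e2.ne k
  · intro s t hst hs ht hyr hcu he
    rcases bad_edge o h.col hst he with k | k | k | k | k | k
    · exact hyr k
    · rw [Sym2.eq_iff] at k
      rcases k with ⟨k, k'⟩ | ⟨k, k'⟩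
      · exact hbc (by rw [← k, ← k']; exact hst)
      · exact hbc (by rw [← k, ← k']; exact hst.symm)
    · exact ht (hall t k.2)
    · exact hs (hall s k.2)
    · exact hcu (by rw [k.1, hall' t k.2])
    · exact hcu (by rw [k.1, hall' s k.2]; exact Sym2.eq_swap)

/-- MM. -/
lemma MM [Finite V] (h : CD G U κ W p q r b c y l lb ly lc A B C D Lb Lc Ly)
    (hb : κ b = κ p) (hc : κ c = κ p) : False := by
  classical
  have o := h.o3
  have h' := h.symm
  have hb' : κ b = κ q := by rw [← o.κpq]; exact hb
  have hc' : κ c = κ q := by rw [← o.κpq]; exact hc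
  -- the inconsistent neighbours
  by_cases hu : ∃ u, Inc G U W p q l b u
  swap
  · push Not at hu
    exact ind o h.col y c (Or.inl rfl) (fun _ => Or.inr (Or.inr (Or.inr (Or.inl rfl))))
      (fun z hz => absurd hz (hu z)) (fun z _ => Or.inr (Or.inl rfl))
  by_cases hu' : ∃ u, Inc G U W p q l c u
  swap
  · push Not at hu'
    exact ind o h.col y b (Or.inl rfl) (fun _ => Or.inr (Or.inl rfl))
      (fun z _ => Or.inr (Or.inl rfl)) (fun z hz => absurd hz (hu' z))
  obtain ⟨u, hu⟩ := hu
  obtain ⟨u', hu'⟩ := hu'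
  have hall : ∀ z, Inc G U W p q l b z → z = u := by
    intro z hz
    by_contra hne
    exact MMa h hb hz hu hne
  have hall' : ∀ z, Inc G U W p q l c z → z = u' := by
    intro z hz
    by_contra hne
    exact MMa h' hc' hz.symm hu'.symm hne
  by_cases hbc : G.Adj b c
  · by_cases hpath : ∃ L, PathIn G (Rs G U W) p q L
    · obtain ⟨L, hL⟩ := hpath
      refine o.base.noT (h.sp.S1 o.yadj.1.symm h.notin hL (P2 := []) (pathIn_nil hbc) ?_
        (o.noodd hL) ?_)
      · simpa using hL.nd
      · rw [zpc' hb, zpc' hc]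
        simp only [List.length_nil, Nat.cast_zero]
        decide
    · push Not at hpath
      have hpq' : ∀ {v b' : V}, Inc G U W p q l b' v → l b' = κ p → v = p ∨ v = q := by
        intro v b' hv hb'
        rcases hv.2.1 with k | k
        · exact absurd (hv.2.2.trans hb') (F4_white h hpath k)
        · exact k
      have k1 := hpq' hu (by rw [h.col.agb, hb])
      have k2 := hpq' hu' (by rw [h.col.agc, hc])
      obtain ⟨x, hx⟩ := o.R
      have hx : x ∈ Rs G U W := hx
      have hF := o.F4 hpath hx
      have hxb : G.Adj x b := by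
        have : b ∈ G.neighborSet x := by rcases hF with k | k <;> rw [k] <;> simp
        exact this
      have hxc : G.Adj x c := by
        have : c ∈ G.neighborSet x := by rcases hF with k | k <;> rw [k] <;> simp
        exact this
      obtain ⟨m1, m2⟩ := MMc1 h hb hc hbc hx hxc.symm
      obtain ⟨m3, m4⟩ := MMc1 h' hc' hb' hbc.symm hx hxb.symm
      rcases hF with k | k
      · have hxp : G.Adj x p := by
          have : p ∈ G.neighborSet x := by rw [k]; simp
          exact this
        rcases k1 with e | e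
        · rcases k2 with e' | e'
          · rw [e] at hu
            rw [e'] at hu'
            exact K4_false o hxp hxb hxc hu.1.symm hu'.1.symm hbc
          · rw [e'] at hu'
            exact m3 hu'.1 hxp
        · rw [e] at hu
          exact m2 hu.1 hxp
      · have hxq : G.Adj x q := by
          have : q ∈ G.neighborSet x := by rw [k]; simp
          exact this
        rcases k1 with e | e
        · rw [e] at hu
          exact m1 hu.1 hxq
        · rcases k2 with e' | e'
          · rw [e'] at hu'
            exact m4 hu'.1 hxq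
          · rw [e] at hu
            rw [e'] at hu'
            exact K4_false o hxq hxb hxc hu.1.symm hu'.1.symm hbc
  · by_cases huu : u = u'
    · exact ind o h.col y u (Or.inl rfl) (fun hh => absurd hh hbc)
        (fun z hz => Or.inr (Or.inr (Or.inr (hall z hz))))
        (fun z hz => Or.inr (Or.inr (Or.inr ((hall' z hz).trans huu.symm))))
    · rcases hu.2.1 with k | k
      · exact MMvee h hbc huu hu hu' hall hall' k
      · rcases hu'.2.1 with k' | k'
        · exact MMvee h' (fun hh => hbc hh.symm) (Ne.symm huu) hu'.symm hu.symm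
            (fun z hz => hall' z hz.symm) (fun z hz => hall z hz.symm) k'
        · -- recolour y
          refine o.base.ind3 p q (Function.update l y (l y + 1)) ?_
          intro s t hs ht hst
          simp only [Set.mem_insert_iff, Set.mem_singleton_iff, not_or] at hs ht
          have hlr : l r = l y := by
            have e1 : l r ≠ κ p := by
              rw [h.col.agW r o.rW]; exact o.κr
            have e2 := h.col.agy
            revert e1 e2
            generalize l r = a1
            generalize l y = a2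
            generalize κ p = a3
            revert a1 a2 a3
            decide
          have hyr : ∀ t, G.Adj y t → t ≠ p → t ≠ q →
              Function.update l y (l y + 1) y ≠ Function.update l y (l y + 1) t := by
            intro t hyt ht1 ht2
            have htr : t = r := by
              rcases o.yN hyt with m | m | m
              · exact absurd m ht1
              · exact absurd m ht2
              · exact m
            rw [htr, Function.update_self, Function.update_of_ne o.yadj.2.2.ne.symm, hlr]
            generalize l y = a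
            revert a; decide
          by_cases hsy : s = y
          · rw [hsy] at hst ⊢
            exact hyr t hst ht.1 ht.2
          · by_cases hty : t = y
            · rw [hty] at hst ⊢
              exact (hyr s hst.symm hs.1 hs.2).symm
            · rw [Function.update_of_ne hsy, Function.update_of_ne hty]
              intro he
              rcases bad_edge o h.col hst he with m | m | m | m | m | m
              · rw [Sym2.eq_iff] at m
                rcases m with ⟨m, -⟩ | ⟨-, m⟩
                · exact hsy m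
                · exact hty m
              · rw [Sym2.eq_iff] at m
                rcases m with ⟨m, m'⟩ | ⟨m, m'⟩
                · exact hbc (by rw [← m, ← m']; exact hst)
                · exact hbc (by rw [← m, ← m']; exact hst.symm)
              · rw [hall t m.2] at ht
                rcases k with k | k
                · exact ht.1 k
                · exact ht.2 k
              · rw [hall s m.2] at hs
                rcases k with k | k
                · exact hs.1 k
                · exact hs.2 k
              · rw [hall' t m.2] at ht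
                rcases k' with k | k
                · exact ht.1 k
                · exact ht.2 k
              · rw [hall' s m.2] at hs
                rcases k' with k | k
                · exact hs.1 k
                · exact hs.2 k

/-- All cases. -/
lemma CD.false [Finite V] (h : CD G U κ W p q r b c y l lb ly lc A B C D Lb Lc Ly) : False := by
  have o := h.o3
  have h' := h.symm
  by_cases hb : κ b = κ p
  · by_cases hc : κ c = κ p
    · exact MM h hb hc
    · exact BW h hb hc
  · by_cases hc : κ c = κ p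
    · exact BW h' (by rw [← o.κpq]; exact hc) (by rw [← o.κpq]; exact hb)
    · exact WW h hb hc

end

/-- THE OBSTACLE O3 DOES NOT OCCUR. -/
theorem O3.false [Finite V] (h : O3 G U κ W p q r b c y) : False := by
  obtain ⟨l, hl⟩ := h.col
  rcases h.split with hs | hs
  · obtain ⟨lb, ly, lc, A, B, C, D, Lb, Lc, Ly, hs⟩ := hs
    exact CD.false ⟨h, hl, hs⟩
  · obtain ⟨lb, ly, lc, A, B, C, D, Lb, Lc, Ly, hs⟩ := hs
    obtain ⟨l', hl'⟩ := h.symm_pq.col
    rw [h.κpq] at hs
    exact CD.false ⟨h.symm_pq, hl', hs⟩

end Pool.Agent.Helper97.OT
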