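import Pool.Agent.Helper97.O3.Defs

/-!
# O3: symmetries, colours of `r` and `y`, components of the rest
-/

set_option autoImplicit false

namespace Pool.Agent.Helper97.OT

open SimpleGraph Pool.Agent.Helper57.TOK Pool.Agent.Helper57.TD Pool.Agent.Helper82.TK
  Pool.Agent.Helper51.GX

variable {V : Type*} {G : SimpleGraph V} {U W : Set V} {κ : V → ZMod 2} {p q r b c y : V}

private lemma basic_ncard3 {a b c : V} (h1 : a ≠ b) (h2 : a ≠ c) (h3 : b ≠ c) :
    ({a, b, c} : Set V).ncard = 3 := by
  rw [Set.ncard_insert_of_notMem (by simp [h1, h2]) (Set.toFinite _), Set.ncard_pair h3]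

private lemma basic_ncard4 {a b c d : V} (h1 : a ≠ b) (h2 : a ≠ c) (h3 : a ≠ d) (h4 : b ≠ c)
    (h5 : b ≠ d) (h6 : c ≠ d) : ({a, b, c, d} : Set V).ncard = 4 := by
  rw [Set.ncard_insert_of_notMem (by simp [h1, h2, h3]) (Set.toFinite _), basic_ncard3 h4 h5 h6]

/-- Replacing `p` by `q` of the same colour does not change `beta`. -/
private lemma basic_beta_swap (h1 : κ p = κ q) (pb : p ≠ b) (pc : p ≠ c) (qb : q ≠ b) (qc : q ≠ c)
    (bc : b ≠ c) : beta κ {q, b, c} = beta κ {p, b, c} := by
  have hm : Mono κ {q, b, c} ↔ Mono κ {p, b, c} := by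
    unfold Mono
    simp only [Set.mem_insert_iff, Set.mem_singleton_iff, forall_eq_or_imp, forall_eq, h1]
  unfold beta
  rw [basic_ncard3 qb qc bc, basic_ncard3 pb pc bc]
  by_cases h : Mono κ {p, b, c}
  · rw [if_pos h, if_pos (hm.2 h)]
  · rw [if_neg h, if_neg (fun h' => h (hm.1 h'))]

/-- Adding `q` of the colour of `p`. -/
private lemma basic_beta_add (h1 : κ p = κ q) (pq : p ≠ q) (pb : p ≠ b) (pc : p ≠ c) (qb : q ≠ b)
    (qc : q ≠ c) (bc : b ≠ c) : beta κ {p, q, b, c} = beta κ {p, b, c} + 1 := by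
  have hm : Mono κ {p, q, b, c} ↔ Mono κ {p, b, c} := by
    unfold Mono
    simp only [Set.mem_insert_iff, Set.mem_singleton_iff, forall_eq_or_imp, forall_eq, h1]
    tauto
  unfold beta
  rw [basic_ncard4 pq pb pc qb qc bc, basic_ncard3 pb pc bc]
  by_cases h : Mono κ {p, b, c}
  · rw [if_pos h, if_pos (hm.2 h)]; norm_num
  · rw [if_neg h, if_neg (fun h' => h (hm.1 h'))]; norm_num

theorem O3.symm_pq (h : O3 G U κ W p q r b c y) : O3 G U κ W q p r b c y where
  base := h.base
  yU := h.yU
  Ny := by rw [h.Ny, Set.insert_comm]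
  pq := h.pq.symm
  npq := fun h' => h.npq h'.symm
  alpha := by
    intro A hA κ' hB h4 hq hp hk hy hr hrk hw
    exact h.alpha A hA κ' hB h4 hp hq hk.symm hy hr (fun h' => by rw [← hk]; exact hrk h')
      (fun w hwA hw' => hw w hwA ⟨hw'.2, hw'.1⟩)
  WU := h.WU
  bal := h.bal
  rW := h.rW
  NW := by rw [h.NW, Set.insert_comm]
  pb := h.qb
  pc := h.qc
  qb := h.pb
  qc := h.pc
  bc := h.bc
  yb := h.yb
  yc := h.yc
  κpq := h.κpq.symm
  dense := by
    have h1 := h.dense
    rw [basic_beta_swap h.κpq h.pb h.pc h.qb h.qc h.bc]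
    have h2 : {w | w ∈ W ∧ G.Adj w q ∧ G.Adj w p} = {w | w ∈ W ∧ G.Adj w p ∧ G.Adj w q} := by
      ext w
      change (w ∈ W ∧ G.Adj w q ∧ G.Adj w p) ↔ (w ∈ W ∧ G.Adj w p ∧ G.Adj w q)
      tauto
    rw [h2]
    exact h1
  R := h.R

theorem O3.symm_bc (h : O3 G U κ W p q r b c y) : O3 G U κ W p q r c b y where
  base := h.base
  yU := h.yU
  Ny := h.Ny
  pq := h.pq
  npq := h.npq
  alpha := h.alpha
  WU := h.WU
  bal := h.bal
  rW := h.rW
  NW := by rw [h.NW]; ext x; simp only [Set.mem_insert_iff, Set.mem_singleton_iff]; tauto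
  pb := h.pc
  pc := h.pb
  qb := h.qc
  qc := h.qb
  bc := h.bc.symm
  yb := h.yc
  yc := h.yb
  κpq := h.κpq
  dense := by
    have h1 := h.dense
    have h2 : ({p, c, b} : Set V) = {p, b, c} := by
      ext x; simp only [Set.mem_insert_iff, Set.mem_singleton_iff]; tauto
    rw [h2]
    exact h1
  R := h.R

private lemma O3.basic_yr (h : O3 G U κ W p q r b c y) : G.Adj y r := by
  have : r ∈ G.neighborSet y := by rw [h.Ny]; simp
  exact this

private lemma O3.basic_pN (h : O3 G U κ W p q r b c y) : p ∈ Nb G W := by rw [h.NW]; simp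
private lemma O3.basic_qN (h : O3 G U κ W p q r b c y) : q ∈ Nb G W := by rw [h.NW]; simp
private lemma O3.basic_bN (h : O3 G U κ W p q r b c y) : b ∈ Nb G W := by rw [h.NW]; simp
private lemma O3.basic_cN (h : O3 G U κ W p q r b c y) : c ∈ Nb G W := by rw [h.NW]; simp
private lemma O3.basic_yN (h : O3 G U κ W p q r b c y) : y ∈ Nb G W := by rw [h.NW]; simp

private lemma O3.basic_NU (h : O3 G U κ W p q r b c y) {v : V} (hv : v ∈ Nb G W) : v ∈ U := by
  obtain ⟨-, u, -, huv⟩ := hv
  exact h.base.edge_mem v u huv.symm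

private lemma O3.basic_yκ (h : O3 G U κ W p q r b c y) : κ r ≠ κ y :=
  h.bal r y h.rW h.basic_yr.symm

private lemma O3.basic_yp (h : O3 G U κ W p q r b c y) : G.Adj y p := by
  have : p ∈ G.neighborSet y := by rw [h.Ny]; simp
  exact this

private lemma O3.basic_yq (h : O3 G U κ W p q r b c y) : G.Adj y q := by
  have : q ∈ G.neighborSet y := by rw [h.Ny]; simp
  exact this

/-- `r` is white. -/
theorem O3.κr [Finite V] (h : O3 G U κ W p q r b c y) : κ r ≠ κ p := by
  intro hr
  have hyW : y ∉ W := h.basic_yN.1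
  have hyp : κ y ≠ κ p := by rw [← hr]; exact h.basic_yκ.symm
  have hB : Bal G κ (insert y W) := by
    intro u v hu huv
    rcases hu with hu | hu
    · subst hu
      have hv : v ∈ G.neighborSet u := huv
      rw [h.Ny] at hv
      rcases hv with hv | hv | hv
      · rw [hv]; exact hyp
      · rw [hv, ← h.κpq]; exact hyp
      · rw [Set.mem_singleton_iff] at hv
        rw [hv, hr]; exact hyp
    · exact h.bal u v hu huv
  have hN : Nb G (insert y W) = {p, q, b, c} := by
    ext v
    constructor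
    · rintro ⟨hv, u, hu, huv⟩
      have hvW : v ∉ W := fun h' => hv (Or.inr h')
      have hvy : v ≠ y := fun h' => hv (Or.inl h')
      rcases hu with hu | hu
      · subst hu
        have hv' : v ∈ G.neighborSet u := huv
        rw [h.Ny] at hv'
        rcases hv' with hv' | hv' | hv'
        · rw [hv']; simp
        · rw [hv']; simp
        · rw [Set.mem_singleton_iff] at hv'
          exact absurd (hv' ▸ h.rW) hvW
      · have hv' : v ∈ Nb G W := ⟨hvW, u, hu, huv⟩
        rw [h.NW] at hv'
        simp only [Set.mem_insert_iff, Set.mem_singleton_iff] at hv' ⊢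
        tauto
    · intro hv
      have hv' : v ∈ Nb G W := by
        rw [h.NW]
        simp only [Set.mem_insert_iff, Set.mem_singleton_iff] at hv ⊢
        tauto
      have hvy : v ≠ y := by
        rintro rfl
        rcases hv with hv | hv | hv | hv
        · exact h.basic_yp.ne hv
        · exact h.basic_yq.ne hv
        · exact h.yb hv
        · exact h.yc hv
      refine ⟨?_, ?_⟩
      · rintro (h' | h')
        · exact hvy h'
        · exact hv'.1 h'
      · obtain ⟨-, u, hu, huv⟩ := hv'
        exact ⟨u, Or.inr hu, huv⟩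
  have hU : insert y W ⊆ U := Set.insert_subset h.yU h.WU
  have h4 : (Nb G (insert y W)).ncard = 4 := by
    rw [hN]; exact basic_ncard4 h.pq h.pb h.pc h.qb h.qc h.bc
  have hP2 := h.base.P2 _ hU κ hB h4
  rw [hN, basic_beta_add h.κpq h.pq h.pb h.pc h.qb h.qc h.bc, fden_insert G hyW] at hP2
  have hd : G.neighborSet y \ W = {p, q} := by
    rw [h.Ny]
    ext v
    simp only [Set.mem_sdiff, Set.mem_insert_iff, Set.mem_singleton_iff]
    constructor
    · rintro ⟨h1 | h1 | h1, h2⟩
      · exact Or.inl h1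
      · exact Or.inr h1
      · exact absurd (h1 ▸ h.rW) h2
    · rintro (h1 | h1)
      · exact ⟨Or.inl h1, h1 ▸ h.basic_pN.1⟩
      · exact ⟨Or.inr (Or.inl h1), h1 ▸ h.basic_qN.1⟩
  rw [hd, Set.ncard_pair h.pq] at hP2
  have hde := h.dense
  have h0 : (0 : ℤ) ≤ ({w | w ∈ W ∧ G.Adj w p ∧ G.Adj w q}.ncard : ℤ) := Int.natCast_nonneg _
  push_cast at hP2
  linarith

/-- `y` is black in the colouring of `W`. -/
theorem O3.κy [Finite V] (h : O3 G U κ W p q r b c y) : κ y = κ p :=
  eq_of_ne_of_ne h.basic_yκ.symm h.κr.symm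

/-- F1: a subset of `W` around `r` with `p, q, y` among its neighbours has at least five
neighbours. -/
theorem O3.F1 [Finite V] (h : O3 G U κ W p q r b c y) {Y : Set V} (hY : Y ⊆ W) (hr : r ∈ Y)
    (hp : p ∈ Nb G Y) (hq : q ∈ Nb G Y) : 5 ≤ (Nb G Y).ncard := by
  by_contra hlt
  push Not at hlt
  have hyW : y ∉ W := h.basic_yN.1
  have hyY : y ∉ Y := fun h' => hyW (hY h')
  have hyN : y ∈ Nb G Y := ⟨hyY, r, hr, h.basic_yr.symm⟩
  have hsub : Nb G (insert y Y) ⊆ Nb G Y \ {y} := by
    rintro v ⟨hv, u, hu, huv⟩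
    have hvy : v ≠ y := fun h' => hv (Or.inl h')
    have hvY : v ∉ Y := fun h' => hv (Or.inr h')
    refine ⟨?_, hvy⟩
    rcases hu with hu | hu
    · subst hu
      have hv' : v ∈ G.neighborSet u := huv
      rw [h.Ny] at hv'
      rcases hv' with hv' | hv' | hv'
      · rw [hv']; exact hp
      · rw [hv']; exact hq
      · rw [Set.mem_singleton_iff] at hv'
        exact absurd (hv' ▸ hr) hvY
    · exact ⟨hvY, u, hu, huv⟩
  have h3 : (Nb G (insert y Y)).ncard ≤ 3 := by
    have h1 := Set.ncard_le_ncard hsub (Set.toFinite _)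
    have h2 := Set.ncard_sdiff_singleton_add_one hyN (Set.toFinite _)
    omega
  have h2 : 2 ≤ (insert y Y).ncard := by
    have h1 : ({y, r} : Set V) ⊆ insert y Y := by
      rintro v (hv | hv)
      · exact Or.inl hv
      · exact Or.inr (by rw [Set.mem_singleton_iff] at hv; rw [hv]; exact hr)
    have h2 := Set.ncard_le_ncard h1 (Set.toFinite _)
    rwa [Set.ncard_pair h.basic_yr.ne] at h2
  have hU : insert y Y ⊆ U := Set.insert_subset h.yU (hY.trans h.WU)
  have hI := h.base.I4 _ hU h2 h3
  obtain ⟨x, hxU, hx⟩ := h.R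
  have hNs : insert y Y ∪ Nb G (insert y Y) ⊆ W ∪ Nb G W := by
    rintro v (hv | hv)
    · rcases hv with hv | hv
      · right; rw [hv]; exact h.basic_yN
      · left; exact hY hv
    · obtain ⟨⟨hvY, u, hu, huv⟩, -⟩ := hsub hv
      by_cases hvW : v ∈ W
      · left; exact hvW
      · right; exact ⟨hvW, u, hY hu, huv⟩
  have hx' : x ∈ U \ (insert y Y ∪ Nb G (insert y Y)) := ⟨hxU, fun h' => hx (hNs h')⟩
  have key : ∀ z, z ∈ Nb G W → z ≠ y → z ∉ Nb G (insert y Y) → False := by
    intro z hz hzy hz'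
    have hzU : z ∈ U := h.basic_NU hz
    have hz'' : z ∈ U \ (insert y Y ∪ Nb G (insert y Y)) := by
      refine ⟨hzU, ?_⟩
      rintro ((h' | h') | h')
      · exact hzy h'
      · exact hz.1 (hY h')
      · exact hz' h'
    have hxz : x ≠ z := by
      rintro rfl
      exact hx (Or.inr hz)
    have h1 : ({x, z} : Set V) ⊆ U \ (insert y Y ∪ Nb G (insert y Y)) := by
      rintro v (hv | hv)
      · rw [hv]; exact hx'
      · rw [Set.mem_singleton_iff] at hv; rw [hv]; exact hz''
    have h2 := Set.ncard_le_ncard h1 (Set.toFinite _)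
    rw [Set.ncard_pair hxz] at h2
    omega
  have hb' : b ∈ Nb G (insert y Y) := by
    by_contra hb'
    exact key b h.basic_bN h.yb.symm hb'
  have hc' : c ∈ Nb G (insert y Y) := by
    by_contra hc'
    exact key c h.basic_cN h.yc.symm hc'
  have hp' : p ∈ Nb G (insert y Y) :=
    ⟨by rintro (h' | h')
        · exact h.basic_yp.ne h'.symm
        · exact hp.1 h', y, Or.inl rfl, h.basic_yp⟩
  have hq' : q ∈ Nb G (insert y Y) :=
    ⟨by rintro (h' | h')
        · exact h.basic_yq.ne h'.symm
        · exact hq.1 h', y, Or.inl rfl, h.basic_yq⟩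
  have h1 : ({p, q, b, c} : Set V) ⊆ Nb G (insert y Y) := by
    rintro v (hv | hv | hv | hv)
    · rw [hv]; exact hp'
    · rw [hv]; exact hq'
    · rw [hv]; exact hb'
    · rw [Set.mem_singleton_iff] at hv; rw [hv]; exact hc'
  have h5 := Set.ncard_le_ncard h1 (Set.toFinite _)
  rw [basic_ncard4 h.pq h.pb h.pc h.qb h.qc h.bc] at h5
  omega

/-- A subset of the rest with at most three neighbours is a single vertex. -/
theorem O3.small [Finite V] (h : O3 G U κ W p q r b c y) {Y : Set V} (hY : Y ⊆ Rs G U W)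
    (hN : (Nb G Y).ncard ≤ 3) : Y.ncard ≤ 1 := by
  by_contra hlt
  push Not at hlt
  have hI := h.base.I4 Y (fun v hv => (hY hv).1) (by omega) hN
  have hr : r ∈ U \ (Y ∪ Nb G Y) := by
    refine ⟨h.WU h.rW, ?_⟩
    rintro (h' | ⟨-, u, hu, hur⟩)
    · exact (hY h').2 (Or.inl h.rW)
    · apply (hY hu).2
      by_cases huW : u ∈ W
      · exact Or.inl huW
      · exact Or.inr ⟨huW, r, h.rW, hur.symm⟩
  have hy : y ∈ U \ (Y ∪ Nb G Y) := by
    refine ⟨h.yU, ?_⟩
    rintro (h' | ⟨-, u, hu, huy⟩)
    · exact (hY h').2 (Or.inr h.basic_yN)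
    · apply (hY hu).2
      have hu' : u ∈ G.neighborSet y := huy.symm
      rw [h.Ny] at hu'
      rcases hu' with h' | h' | h'
      · right; rw [h']; exact h.basic_pN
      · right; rw [h']; exact h.basic_qN
      · left; rw [Set.mem_singleton_iff] at h'; rw [h']; exact h.rW
  have h1 : ({y, r} : Set V) ⊆ U \ (Y ∪ Nb G Y) := by
    rintro v (hv | hv)
    · rw [hv]; exact hy
    · rw [Set.mem_singleton_iff] at hv; rw [hv]; exact hr
  have h2 := Set.ncard_le_ncard h1 (Set.toFinite _)
  rw [Set.ncard_pair h.basic_yr.ne] at h2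
  omega

/-- Neighbours of a vertex of the rest. -/
theorem O3.adj_R [Finite V] (h : O3 G U κ W p q r b c y) {x v : V} (hx : x ∈ Rs G U W)
    (hv : G.Adj x v) : v ∈ Rs G U W ∨ v = p ∨ v = q ∨ v = b ∨ v = c := by
  by_cases h1 : v ∈ W ∪ Nb G W
  · right
    rcases h1 with h1 | h1
    · exfalso
      apply hx.2
      by_cases hxW : x ∈ W
      · exact Or.inl hxW
      · exact Or.inr ⟨hxW, v, h1, hv.symm⟩
    · rw [h.NW] at h1
      rcases h1 with h1 | h1 | h1 | h1 | h1
      · exact Or.inl h1
      · exact Or.inr (Or.inl h1)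
      · exact Or.inr (Or.inr (Or.inl h1))
      · exact Or.inr (Or.inr (Or.inr h1))
      · exfalso
        rw [Set.mem_singleton_iff] at h1
        subst h1
        apply hx.2
        have hx' : x ∈ G.neighborSet v := hv.symm
        rw [h.Ny] at hx'
        rcases hx' with h' | h' | h'
        · right; rw [h']; exact h.basic_pN
        · right; rw [h']; exact h.basic_qN
        · left; rw [Set.mem_singleton_iff] at h'; rw [h']; exact h.rW
  · left
    exact ⟨h.base.edge_mem v x hv.symm, h1⟩

/-- From a walk in an induced subgraph to a path with interior in the set. -/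
private lemma basic_pathIn {G : SimpleGraph V} {R : Set V} {a b u w : V} (hu : u ∈ R) (hw : w ∈ R)
    (hr : (G.induce R).Reachable ⟨u, hu⟩ ⟨w, hw⟩) (hau : G.Adj a u) (hwb : G.Adj w b) :
    ∃ L, PathIn G R a b L := by
  classical
  obtain ⟨wk⟩ := hr
  let pa := wk.toPath
  refine ⟨pa.1.support.map Subtype.val, ?_, ?_, ?_⟩
  · have h1 : List.IsChain (G.induce R).Adj pa.1.support := pa.1.isChain_adj_support
    have h2 : List.IsChain G.Adj (pa.1.support.map Subtype.val) := by
      rw [List.isChain_map]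
      exact h1.imp (fun x y hxy => hxy)
    have hne : pa.1.support ≠ [] := pa.1.support_ne_nil
    have h3 : List.IsChain G.Adj (pa.1.support.map Subtype.val ++ [b]) := by
      apply List.IsChain.append h2 (List.isChain_singleton b)
      intro x hx y' hy'
      simp only [List.head?_cons, Option.mem_def, Option.some.injEq] at hy'
      subst hy'
      rw [List.getLast?_map, List.getLast?_eq_some_getLast hne, pa.1.getLast_support] at hx
      simp only [Option.map_some, Option.mem_def, Option.some.injEq] at hx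
      subst hx
      exact hwb
    rw [List.isChain_cons]
    refine ⟨?_, h3⟩
    intro x hx
    have hne' : pa.1.support.map Subtype.val ≠ [] := by
      intro h0
      exact hne (List.map_eq_nil_iff.1 h0)
    rw [List.head?_append_of_ne_nil _ hne', List.head?_map,
      List.head?_eq_some_head hne, pa.1.head_support] at hx
    simp only [Option.map_some, Option.mem_def, Option.some.injEq] at hx
    subst hx
    exact hau
  · exact pa.2.support_nodup.map Subtype.val_injective
  · intro x hx
    rw [List.mem_map] at hx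
    obtain ⟨z, -, rfl⟩ := hx
    exact z.2

/-- F4. If there is no path from `p` to `q` through the rest then the rest consists of at most
two vertices of degree three. -/
theorem O3.F4 [Finite V] (h : O3 G U κ W p q r b c y)
    (hno : ∀ L, ¬ PathIn G (Rs G U W) p q L) {x : V} (hx : x ∈ Rs G U W) :
    G.neighborSet x = {p, b, c} ∨ G.neighborSet x = {q, b, c} := by
  set M : Set V := {v | ∃ hv : v ∈ Rs G U W,
    (G.induce (Rs G U W)).Reachable ⟨x, hx⟩ ⟨v, hv⟩} with hM
  have hxM : x ∈ M := ⟨hx, SimpleGraph.Reachable.refl _⟩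
  have hMR : M ⊆ Rs G U W := fun v hv => hv.1
  have hcl : ∀ u ∈ M, ∀ v, G.Adj u v → v ∈ M ∨ v = p ∨ v = q ∨ v = b ∨ v = c := by
    rintro u ⟨hu, hru⟩ v huv
    rcases h.adj_R hu huv with h1 | h1
    · left
      refine ⟨h1, hru.trans ?_⟩
      exact SimpleGraph.Adj.reachable (show (G.induce (Rs G U W)).Adj ⟨u, hu⟩ ⟨v, h1⟩ from huv)
    · exact Or.inr h1
  have hNs : Nb G M ⊆ {p, q, b, c} := by
    rintro v ⟨hv, u, hu, huv⟩
    rcases hcl u hu v huv with h1 | h1
    · exact absurd h1 hv
    · exact h1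
  have hor : p ∉ Nb G M ∨ q ∉ Nb G M := by
    by_contra hcon
    push Not at hcon
    obtain ⟨⟨-, u, ⟨hu, hru⟩, hup⟩, ⟨-, w, ⟨hw, hrw⟩, hwq⟩⟩ := hcon
    obtain ⟨L, hL⟩ := basic_pathIn hu hw (hru.symm.trans hrw) hup.symm hwq
    exact hno L hL
  have fin : ∀ z, Nb G M ⊆ {z, b, c} → G.neighborSet x = {z, b, c} := by
    intro z hz
    have hz3 : ({z, b, c} : Set V).ncard ≤ 3 := by
      have h1 := Set.ncard_insert_le z ({b, c} : Set V)
      have h2 := Set.ncard_insert_le b ({c} : Set V)
      rw [Set.ncard_singleton] at h2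
      omega
    have hM1 : M.ncard ≤ 1 :=
      h.small hMR ((Set.ncard_le_ncard hz (Set.toFinite _)).trans hz3)
    have hMx : M = {x} := by
      apply Set.Subset.antisymm
      · intro v hv
        rw [Set.ncard_le_one (Set.toFinite _)] at hM1
        exact hM1 v hv x hxM
      · intro v hv
        rw [Set.mem_singleton_iff] at hv
        rw [hv]; exact hxM
    have hs : G.neighborSet x ⊆ {z, b, c} := by
      intro v hv
      apply hz
      refine ⟨?_, x, hxM, hv⟩
      rw [hMx, Set.mem_singleton_iff]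
      rintro rfl
      exact G.loopless.irrefl _ hv
    apply Set.eq_of_subset_of_ncard_le hs _ (Set.toFinite _)
    exact hz3.trans (h.base.deg3 x hx.1)
  rcases hor with h1 | h1
  · right
    apply fin
    intro v hv
    rcases hNs hv with h2 | h2
    · exact absurd (h2 ▸ hv) h1
    · exact h2
  · left
    apply fin
    intro v hv
    rcases hNs hv with h2 | h2 | h2
    · exact Or.inl h2
    · exact absurd (h2 ▸ hv) h1
    · exact Or.inr h2

end Pool.Agent.Helper97.OT
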