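import Pool.Agent.Helper51.GX.Defs

/-!
# The obstacle O3: definitions

See the note `o3v3_MP_3f61ad_co_helper97.md`. `G` is internally 4-connected, of bipartite index at
least three, without a TOK4, and has at least `2 |U| - 2` edges; `y` is a cubic vertex with
neighbours `p, q, r`; `W` is a balanced set which contains `r`, with
`N(W) = {p, q, b, c, y}`, and `f(W) ≥ β(p,b,c) + 2 + codeg`. The aim is `O3.false`.
-/

set_option autoImplicit false

namespace Pool.Agent.Helper97.OT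

open SimpleGraph Pool.Agent.Helper57.TOK Pool.Agent.Helper57.TD Pool.Agent.Helper51.GX

variable {V : Type*}

/-- What is used of the minimal counterexample. -/
structure Base (G : SimpleGraph V) (U : Set V) : Prop where
  edge_mem : ∀ u v, G.Adj u v → u ∈ U
  deg3 : ∀ y ∈ U, 3 ≤ (G.neighborSet y).ncard
  P1 : ∀ Y ⊆ U, 2 ≤ Y.ncard → ∀ κ, Bal G κ Y → 4 ≤ (Nb G Y).ncard
  P2 : ∀ Y ⊆ U, ∀ κ, Bal G κ Y → (Nb G Y).ncard = 4 → fden G Y ≤ beta κ (Nb G Y)
  I4 : ∀ Y ⊆ U, 2 ≤ Y.ncard → (Nb G Y).ncard ≤ 3 → (U \ (Y ∪ Nb G Y)).ncard ≤ 1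
  ind3 : ∀ z1 z2 : V, ∀ κ : V → ZMod 2, ¬ ∀ u v, u ∉ ({z1, z2} : Set V) →
    v ∉ ({z1, z2} : Set V) → G.Adj u v → κ u ≠ κ v
  dens : 2 * U.ncard ≤ G.edgeSet.ncard + 2
  noT : ¬ HasTOK4 G

/-- No exit of type alpha for the fold `(y; p, q)`, where `N(y) = {p, q, r}`. -/
def NoAlpha (G : SimpleGraph V) (U : Set V) (y p q r : V) : Prop :=
  ∀ A ⊆ U, ∀ κ : V → ZMod 2, Bal G κ A → (Nb G A).ncard = 4 → p ∈ Nb G A → q ∈ Nb G A →
    κ p = κ q → y ∉ A → r ∉ A → (r ∈ Nb G A → κ r ≠ κ p) →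
    (∀ w ∈ A, ¬ (G.Adj w p ∧ G.Adj w q)) → False

/-- The data of the obstacle O3. -/
structure O3 (G : SimpleGraph V) (U : Set V) (κ : V → ZMod 2) (W : Set V) (p q r b c y : V) :
    Prop where
  base : Base G U
  yU : y ∈ U
  Ny : G.neighborSet y = {p, q, r}
  pq : p ≠ q
  npq : ¬ G.Adj p q
  alpha : NoAlpha G U y p q r
  WU : W ⊆ U
  bal : Bal G κ W
  rW : r ∈ W
  NW : Nb G W = {p, q, b, c, y}
  pb : p ≠ b
  pc : p ≠ c
  qb : q ≠ b
  qc : q ≠ c
  bc : b ≠ c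
  yb : y ≠ b
  yc : y ≠ c
  κpq : κ p = κ q
  dense : beta κ {p, b, c} + 2 + ({w | w ∈ W ∧ G.Adj w p ∧ G.Adj w q}.ncard : ℤ) ≤ fden G W
  R : (U \ (W ∪ Nb G W)).Nonempty

/-- The rest. -/
def Rs (G : SimpleGraph V) (U W : Set V) : Set V := U \ (W ∪ Nb G W)

/-- The edges of `G` which meet `W`. -/
def atG (G : SimpleGraph V) (W : Set V) : SimpleGraph V where
  Adj u v := G.Adj u v ∧ (u ∈ W ∨ v ∈ W)
  symm := ⟨fun _ _ h => ⟨h.1.symm, h.2.symm⟩⟩
  loopless := ⟨fun _ h => h.1.ne rfl⟩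

lemma atG_adj {G : SimpleGraph V} {W : Set V} {u v : V} :
    (atG G W).Adj u v ↔ G.Adj u v ∧ (u ∈ W ∨ v ∈ W) := Iff.rfl

/-- The society `(W; p = q, b, c, y)`. -/
def ZW (G : SimpleGraph V) (W : Set V) (p q : V) : SimpleGraph V := mergeG (atG G W) p q

/-- A colouring `l` of the whole graph which extends `κ`: away from `b` and `c` the only
inconsistent edge is `y r`. -/
structure Col (G : SimpleGraph V) (κ : V → ZMod 2) (W : Set V) (p q r b c y : V)
    (l : V → ZMod 2) : Prop where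
  agW : ∀ x ∈ W, l x = κ x
  agp : l p = κ p
  agq : l q = κ p
  agb : l b = κ b
  agc : l c = κ c
  agy : l y ≠ κ p
  prop : ∀ u v, G.Adj u v → u ≠ b → u ≠ c → v ≠ b → v ≠ c → s(u, v) ≠ s(y, r) → l u ≠ l v

/-- The split structure: a path `p .. lb .. ly .. lc .. q` in `W` with legs from `lb` to `b`, from
`lc` to `c` and from `ly` to `y`. `A, B, C, D` are the lists of interior vertices of the four arcs,
the legs are `lb :: Lb`, `lc :: Lc` (`Lb = []` if `lb = b`) and `ly :: Ly ++ [y]`. -/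
structure Split (G : SimpleGraph V) (W : Set V) (p q b c y : V) (eb ec : ZMod 2)
    (lb ly lc : V) (A B C D Lb Lc Ly : List V) : Prop where
  chA : List.IsChain G.Adj (p :: (A ++ [lb]))
  chB : List.IsChain G.Adj (lb :: (B ++ [ly]))
  chC : List.IsChain G.Adj (ly :: (C ++ [lc]))
  chD : List.IsChain G.Adj (lc :: (D ++ [q]))
  chLb : List.IsChain G.Adj (lb :: Lb)
  lastLb : (lb :: Lb).getLast? = some b
  chLc : List.IsChain G.Adj (lc :: Lc)
  lastLc : (lc :: Lc).getLast? = some c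
  chLy : List.IsChain G.Adj (ly :: (Ly ++ [y]))
  nodup : ([p, lb, ly, lc, q] ++ A ++ B ++ C ++ D ++ Lb ++ Lc ++ Ly ++ [y]).Nodup
  eA : Even A.length
  eB : Even B.length
  eC : Even C.length
  eD : Even D.length
  eLy : Odd Ly.length
  eLb : (Lb.length : ZMod 2) = eb
  eLc : (Lc.length : ZMod 2) = ec
  mem : ∀ x ∈ [p, lb, ly, lc, q] ++ A ++ B ++ C ++ D ++ Lb ++ Lc ++ Ly ++ [y],
    x ∈ W ∨ x = p ∨ x = q ∨ x = b ∨ x = c ∨ x = y

/-- Existence of a split structure with `lb` on the side of `p`. -/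
def HasSplit (G : SimpleGraph V) (W : Set V) (p q b c y : V) (eb ec : ZMod 2) : Prop :=
  ∃ lb ly lc : V, ∃ A B C D Lb Lc Ly : List V, Split G W p q b c y eb ec lb ly lc A B C D Lb Lc Ly

/-- A path `a :: (L ++ [b])` of `G` with interior `L` in `R`. -/
structure PathIn (G : SimpleGraph V) (R : Set V) (a b : V) (L : List V) : Prop where
  ch : List.IsChain G.Adj (a :: (L ++ [b]))
  nd : L.Nodup
  mem : ∀ x ∈ L, x ∈ R

end Pool.Agent.Helper97.OT
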