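import Pool.Agent.Helper97.O3.Basic
import Pool.Agent.Helper82.TK.Fan

/-!
# O3: helper82's Lemma 1 (F2 of the note)
-/

set_option autoImplicit false

namespace Pool.Agent.Helper97.OT

open SimpleGraph Pool.Agent.Helper57.TOK Pool.Agent.Helper57.TD Pool.Agent.Helper82.TK
  Pool.Agent.Helper51.GX

variable {V : Type*} {G : SimpleGraph V} {U W : Set V} {κ : V → ZMod 2} {p q r b c y : V}

private lemma fan2_le3 (a b c : V) : ({a, b, c} : Set V).ncard ≤ 3 := by
  have h1 := Set.ncard_insert_le a ({b, c} : Set V)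
  have h2 := ncard_pair_le' b c
  omega

private lemma fan2_le4 (a b c d : V) : ({a, b, c, d} : Set V).ncard ≤ 4 := by
  have h1 := Set.ncard_insert_le a ({b, c, d} : Set V)
  have h2 := fan2_le3 b c d
  omega

private lemma fan2_fden_single (G : SimpleGraph V) (x : V) :
    fden G {x} = ((G.neighborSet x).ncard : ℤ) - 2 := by
  unfold fden
  rw [rho_singleton, Set.ncard_singleton]
  push_cast
  ring

/-- a nonempty subset of `W` with at most three neighbours is a cubic vertex -/
private lemma fan2_small [Finite V] (h : O3 G U κ W p q r b c y) {X : Set V} (hX : X ⊆ W)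
    (hne : X.Nonempty) (hN : (Nb G X).ncard ≤ 3) :
    ∃ x, X = {x} ∧ (G.neighborSet x).ncard = 3 ∧ Nb G X = G.neighborSet x := by
  have h1 : X.ncard ≤ 1 := by
    by_contra hlt
    push Not at hlt
    have := h.base.P1 X (hX.trans h.WU) (by omega) κ (h.bal.mono hX)
    omega
  obtain ⟨x, hx⟩ := hne
  have hXx : X = {x} := by
    have h2 := (Set.ncard_le_one (Set.toFinite X)).1 h1
    ext z
    constructor
    · intro hz
      exact h2 z hz x hx
    · intro hz
      rw [Set.mem_singleton_iff] at hz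
      rw [hz]; exact hx
  have hNX : Nb G X = G.neighborSet x := by rw [hXx, Nb_singleton]
  have h3 := h.base.deg3 x (h.WU (hX hx))
  refine ⟨x, hXx, ?_, hNX⟩
  rw [hNX] at hN
  omega

/-- a nonempty subset of `W` with at most four neighbours is not dense -/
private lemma fan2_beta [Finite V] (h : O3 G U κ W p q r b c y) {X : Set V} (hX : X ⊆ W)
    (hne : X.Nonempty) (hN : (Nb G X).ncard ≤ 4) : fden G X ≤ beta κ (Nb G X) := by
  by_cases h2 : 2 ≤ X.ncard
  · have h3 := h.base.P1 X (hX.trans h.WU) h2 κ (h.bal.mono hX)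
    exact h.base.P2 X (hX.trans h.WU) κ (h.bal.mono hX) (by omega)
  · have h1 : X.ncard ≤ 1 := by omega
    obtain ⟨x, hx⟩ := hne
    have hXx : X = {x} := by
      have h2 := (Set.ncard_le_one (Set.toFinite X)).1 h1
      ext z
      constructor
      · intro hz
        exact h2 z hz x hx
      · intro hz
        rw [Set.mem_singleton_iff] at hz
        rw [hz]; exact hx
    have hm : Mono κ (Nb G X) := by
      rw [hXx, Nb_singleton]
      intro u hu v hv
      exact h.bal.eq (hX hx) hu hv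
    rw [beta_of_mono hm, hXx, Nb_singleton, fan2_fden_single]

private lemma fan2_beta3 (h : O3 G U κ W p q r b c y) : ({p, b, c} : Set V).ncard = 3 := by
  rw [Set.ncard_insert_of_notMem (by simp [h.pb, h.pc]) (Set.toFinite _), Set.ncard_pair h.bc]

private lemma fan2_beta0 (h : O3 G U κ W p q r b c y) : 0 ≤ beta κ {p, b, c} := by
  have := le_beta κ ({p, b, c} : Set V)
  rw [fan2_beta3 h] at this
  push_cast at this
  linarith

/-- exactly one of `b`, `c` is in the set -/
private lemma fan2_one [Finite V] (h : O3 G U κ W p q r b c y) {Y : Set V} {k : V}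
    (hrY : r ∈ Y)
    (hF : ∀ u ∈ Y ∩ W, ∀ v, G.Adj u v →
      v = y ∨ v = k ∨ v ∈ Y ∩ W ∨ (v = b ∧ b ∈ Y) ∨ (v = c ∧ c ∈ Y))
    (hG : ∀ u ∈ W, u ∉ Y → u ≠ k → ∀ v ∈ Y, v ≠ y → ¬ G.Adj u v)
    (hb : b ∈ Y) (hc : c ∉ Y) : False := by
  have hNW := h.NW
  have hpN : p ∈ Nb G W := by rw [hNW]; simp
  have hqN : q ∈ Nb G W := by rw [hNW]; simp
  have hbN : b ∈ Nb G W := by rw [hNW]; simp
  have hcN : c ∈ Nb G W := by rw [hNW]; simp
  have hyN : y ∈ Nb G W := by rw [hNW]; simp
  have hyr : G.Adj y r := by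
    have : r ∈ G.neighborSet y := by rw [h.Ny]; simp
    exact this
  have hyp : G.Adj y p := by
    have : p ∈ G.neighborSet y := by rw [h.Ny]; simp
    exact this
  have hyq : G.Adj y q := by
    have : q ∈ G.neighborSet y := by rw [h.Ny]; simp
    exact this
  have hβ0 := fan2_beta0 h
  have hde := h.dense
  -- the part in `W`
  have hX0 : Y ∩ W ⊆ W := Set.inter_subset_right
  have hrX : r ∈ Y ∩ W := ⟨hrY, h.rW⟩
  have hNX : Nb G (Y ∩ W) ⊆ {k, y, b} := by
    rintro v ⟨hv, u, hu, huv⟩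
    rcases hF u hu v huv with h1 | h1 | h1 | h1 | h1
    · rw [h1]; simp
    · rw [h1]; simp
    · exact absurd h1 hv
    · rw [h1.1]; simp
    · exact absurd h1.2 hc
  obtain ⟨x, hx, hdx, hNx⟩ := fan2_small h hX0 ⟨r, hrX⟩
    ((Set.ncard_le_ncard hNX (Set.toFinite _)).trans (fan2_le3 k y b))
  have hxr : x = r := by
    have : r ∈ ({x} : Set V) := by rw [← hx]; exact hrX
    exact (Set.mem_singleton_iff.1 this).symm
  subst hxr
  have hNr : G.neighborSet x = {k, y, b} := by
    rw [← hNx]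
    apply Set.eq_of_subset_of_ncard_le hNX
    rw [hNx, hdx]
    exact fan2_le3 k y b
  have hxk : G.Adj x k := by
    have : k ∈ G.neighborSet x := by rw [hNr]; simp
    exact this
  have hxb : G.Adj x b := by
    have : b ∈ G.neighborSet x := by rw [hNr]; simp
    exact this
  have hκkb : κ k = κ b := h.bal.eq h.rW hxk hxb
  have hbn : ∀ u ∈ W, u ≠ x → ¬ G.Adj u b := by
    intro u hu hux hub
    have huY : u ∉ Y := by
      intro h'
      have : u ∈ ({x} : Set V) := by rw [← hx]; exact ⟨h', hu⟩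
      exact hux this
    by_cases huk : u = k
    · subst huk
      exact h.bal u b hu hub hκkb
    · exact hG u hu huY huk b hb h.yb.symm hub
  have hyn : ∀ u ∈ W, u ≠ x → ¬ G.Adj u y := by
    intro u hu hux huy
    have : u ∈ G.neighborSet y := huy.symm
    rw [h.Ny] at this
    rcases this with h1 | h1 | h1
    · exact hpN.1 (h1 ▸ hu)
    · exact hqN.1 (h1 ▸ hu)
    · exact hux h1
  have hN' : Nb G (W \ {x}) ⊆ {p, q, c, x} := by
    rintro v ⟨hv, u, ⟨huW, hux⟩, huv⟩
    have hux : u ≠ x := hux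
    by_cases hvW : v ∈ W
    · have : v = x := by
        by_contra hvx
        exact hv ⟨hvW, hvx⟩
      rw [this]; simp
    · have : v ∈ Nb G W := ⟨hvW, u, huW, huv⟩
      rw [hNW] at this
      rcases this with h1 | h1 | h1 | h1 | h1
      · rw [h1]; simp
      · rw [h1]; simp
      · exact absurd (h1 ▸ huv) (hbn u huW hux)
      · rw [h1]; simp
      · rw [Set.mem_singleton_iff] at h1
        exact absurd (h1 ▸ huv) (hyn u huW hux)
  have hWx : insert x (W \ {x}) = W := by
    rw [Set.insert_sdiff_singleton, Set.insert_eq_of_mem h.rW]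
  have hxn : x ∉ W \ {x} := fun h' => h'.2 rfl
  have hfW := fden_insert G hxn
  rw [hWx] at hfW
  by_cases hkW : k ∈ W
  · -- `k` in `W`
    have hne : (W \ {x}).Nonempty := ⟨k, hkW, fun h' => hxk.ne (Set.mem_singleton_iff.1 h').symm⟩
    have hle4 : (Nb G (W \ {x})).ncard ≤ 4 :=
      (Set.ncard_le_ncard hN' (Set.toFinite _)).trans (fan2_le4 _ _ _ _)
    have h1 := fan2_beta h Set.sdiff_subset hne hle4
    have h2 : beta κ (Nb G (W \ {x})) ≤ beta κ {p, q, c, x} := beta_mono hN'
    have h3 : ¬ Mono κ {p, q, c, x} := by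
      intro hm
      exact h.κr (hm x (by simp) p (by simp))
    rw [beta_of_not_mono h3] at h2
    have h4 : ((({p, q, c, x} : Set V).ncard : ℕ) : ℤ) ≤ 4 := by
      exact_mod_cast fan2_le4 p q c x
    have h5 : G.neighborSet x \ (W \ {x}) ⊆ {y, b} := by
      rintro v ⟨hv, hv'⟩
      rw [hNr] at hv
      rcases hv with h1 | h1 | h1
      · exfalso
        apply hv'
        rw [h1]
        exact ⟨hkW, fun h' => hxk.ne (Set.mem_singleton_iff.1 h').symm⟩
      · rw [h1]; simp
      · rw [Set.mem_singleton_iff] at h1; rw [h1]; simp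
    have h6 : (((G.neighborSet x \ (W \ {x})).ncard : ℕ) : ℤ) ≤ 2 := by
      exact_mod_cast (Set.ncard_le_ncard h5 (Set.toFinite _)).trans (ncard_pair_le' y b)
    have h7 : (0 : ℤ) ≤ ({w | w ∈ W ∧ G.Adj w p ∧ G.Adj w q}.ncard : ℤ) := Int.natCast_nonneg _
    linarith
  · -- `k` not in `W`
    have hnx : ∀ u ∈ W, ¬ G.Adj u x := by
      intro u hu hux
      have : u ∈ G.neighborSet x := hux.symm
      rw [hNr] at this
      rcases this with h1 | h1 | h1
      · exact hkW (h1 ▸ hu)
      · exact hyN.1 (h1 ▸ hu)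
      · rw [Set.mem_singleton_iff] at h1
        exact hbN.1 (h1 ▸ hu)
    have hN3 : Nb G (W \ {x}) ⊆ {p, q, c} := by
      rintro v hv
      have hv' := hN' hv
      rcases hv' with h1 | h1 | h1 | h1
      · rw [h1]; simp
      · rw [h1]; simp
      · rw [h1]; simp
      · exfalso
        rw [Set.mem_singleton_iff] at h1
        obtain ⟨-, u, hu, huv⟩ := hv
        exact hnx u hu.1 (h1 ▸ huv)
    have hne : (W \ {x}).Nonempty := by
      have key : ∀ t, t ∈ Nb G W → t ≠ y → t ≠ b → t ≠ k → (W \ {x}).Nonempty := by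
        rintro t ⟨-, u, hu, hut⟩ hty htb htk
        refine ⟨u, hu, ?_⟩
        intro hux
        rw [Set.mem_singleton_iff] at hux
        subst hux
        have : t ∈ G.neighborSet u := hut
        rw [hNr] at this
        rcases this with h1 | h1 | h1
        · exact htk h1
        · exact hty h1
        · exact htb h1
      by_cases hpk : p = k
      · exact key q hqN hyq.ne' h.qb (fun h' => h.pq (hpk.trans h'.symm))
      · exact key p hpN hyp.ne' h.pb hpk
    obtain ⟨w, hw, hdw, hNw⟩ := fan2_small h Set.sdiff_subset hne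
      ((Set.ncard_le_ncard hN3 (Set.toFinite _)).trans (fan2_le3 _ _ _))
    have hNw' : G.neighborSet w = {p, q, c} := by
      rw [← hNw]
      apply Set.eq_of_subset_of_ncard_le hN3
      rw [hNw, hdw]
      exact fan2_le3 p q c
    have hwW : w ∈ W := by
      have : w ∈ W \ {x} := by rw [hw]; rfl
      exact this.1
    have hwmem : w ∈ {w | w ∈ W ∧ G.Adj w p ∧ G.Adj w q} := by
      refine ⟨hwW, ?_, ?_⟩
      · have : p ∈ G.neighborSet w := by rw [hNw']; simp
        exact this
      · have : q ∈ G.neighborSet w := by rw [hNw']; simp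
        exact this
    have h1 : (1 : ℤ) ≤ ({w | w ∈ W ∧ G.Adj w p ∧ G.Adj w q}.ncard : ℤ) := by
      have := (Set.ncard_pos (Set.toFinite _)).2 ⟨w, hwmem⟩
      exact_mod_cast this
    have h2 : (((G.neighborSet x \ (W \ {x})).ncard : ℕ) : ℤ) ≤ 3 := by
      have := Set.ncard_le_ncard (Set.sdiff_subset : G.neighborSet x \ (W \ {x}) ⊆ _)
        (Set.toFinite _)
      rw [hdx] at this
      exact_mod_cast this
    have h3 : fden G (W \ {x}) = 1 := by
      rw [hw, fan2_fden_single, hdw]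
      norm_num
    linarith

/-- both `b` and `c` are in the set -/
private lemma fan2_two [Finite V] (h : O3 G U κ W p q r b c y) {Y : Set V} {k : V}
    (hrY : r ∈ Y) (hpY : p ∉ Y) (hqY : q ∉ Y) (hkY : k ∈ Y → k = y)
    (hF : ∀ u ∈ Y ∩ W, ∀ v, G.Adj u v →
      v = y ∨ v = k ∨ v ∈ Y ∩ W ∨ (v = b ∧ b ∈ Y) ∨ (v = c ∧ c ∈ Y))
    (hG : ∀ u ∈ W, u ∉ Y → u ≠ k → ∀ v ∈ Y, v ≠ y → ¬ G.Adj u v)
    (hb : b ∈ Y) (hc : c ∈ Y) : False := by
  have hNW := h.NW
  have hpN : p ∈ Nb G W := by rw [hNW]; simp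
  have hqN : q ∈ Nb G W := by rw [hNW]; simp
  have hbN : b ∈ Nb G W := by rw [hNW]; simp
  have hcN : c ∈ Nb G W := by rw [hNW]; simp
  have hyN : y ∈ Nb G W := by rw [hNW]; simp
  have hyr : G.Adj y r := by
    have : r ∈ G.neighborSet y := by rw [h.Ny]; simp
    exact this
  have hyp : G.Adj y p := by
    have : p ∈ G.neighborSet y := by rw [h.Ny]; simp
    exact this
  have hyq : G.Adj y q := by
    have : q ∈ G.neighborSet y := by rw [h.Ny]; simp
    exact this
  have hβ0 := fan2_beta0 h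
  have hde := h.dense
  have hX0 : Y ∩ W ⊆ W := Set.inter_subset_right
  have hrX : r ∈ Y ∩ W := ⟨hrY, h.rW⟩
  -- neighbours of `p` in `Y ∩ W`
  have hpq : ∀ t, t ∈ Nb G W → t ≠ y → t ∉ Y → ∀ u ∈ Y ∩ W, G.Adj u t → t = k := by
    intro t ht hty htY u hu hut
    rcases hF u hu t hut with h1 | h1 | h1 | h1 | h1
    · exact absurd h1 hty
    · exact h1
    · exact absurd h1.1 htY
    · exact absurd (h1.1 ▸ h1.2) htY
    · exact absurd (h1.1 ▸ h1.2) htY
  -- neighbours of the other part
  have hN2 : ∀ X ⊆ W, (∀ u ∈ X, u ∉ Y ∧ u ≠ k) → (∀ u ∈ W, u ∉ X → u ∈ Y ∨ u = k) →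
      ∀ v, v ∈ Nb G X → (v = k ∧ k ∈ W) ∨ v = p ∨ v = q := by
    rintro X hX h1 h2 v ⟨hv, u, hu, huv⟩
    have huW := hX hu
    obtain ⟨huY, huk⟩ := h1 u hu
    by_cases hvW : v ∈ W
    · rcases h2 v hvW hv with h3 | h3
      · exact absurd huv (hG u huW huY huk v h3 (fun h' => hyN.1 (h' ▸ hvW)))
      · exact Or.inl ⟨h3, h3 ▸ hvW⟩
    · have : v ∈ Nb G W := ⟨hvW, u, huW, huv⟩
      rw [hNW] at this
      rcases this with h3 | h3 | h3 | h3 | h3
      · exact Or.inr (Or.inl h3)
      · exact Or.inr (Or.inr h3)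
      · exact absurd huv (hG u huW huY huk v (h3 ▸ hb) (h3 ▸ h.yb.symm))
      · exact absurd huv (hG u huW huY huk v (h3 ▸ hc) (h3 ▸ h.yc.symm))
      · exfalso
        rw [Set.mem_singleton_iff] at h3
        subst h3
        have h4 : u ∈ G.neighborSet v := huv.symm
        rw [h.Ny] at h4
        rcases h4 with h4 | h4 | h4
        · exact hpN.1 (h4 ▸ huW)
        · exact hqN.1 (h4 ▸ huW)
        · rw [Set.mem_singleton_iff] at h4
          exact huY (h4 ▸ hrY)
  by_cases hkW : k ∈ W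
  swap
  · -- `k` not in `W`
    have h1 : W \ Y = ∅ := by
      by_contra hne
      have hne : (W \ Y).Nonempty := Set.nonempty_iff_ne_empty.2 hne
      have h2 : Nb G (W \ Y) ⊆ {p, q} := by
        intro v hv
        have h3 := hN2 (W \ Y) Set.sdiff_subset
          (fun u hu => ⟨hu.2, fun h' => hkW (h' ▸ hu.1)⟩)
          (fun u hu hu' => Or.inl (by by_contra h'; exact hu' ⟨hu, h'⟩)) v hv
        rcases h3 with h3 | h3 | h3
        · exact absurd h3.2 hkW
        · rw [h3]; simp
        · rw [h3]; simp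
      obtain ⟨x, hx, hdx, hNx⟩ := fan2_small h Set.sdiff_subset hne
        ((Set.ncard_le_ncard h2 (Set.toFinite _)).trans ((ncard_pair_le' _ _).trans (by norm_num)))
      have h3 := Set.ncard_le_ncard h2 (Set.toFinite _)
      have h4 := ncard_pair_le' p q
      rw [hNx, hdx] at h3
      omega
    have h2 : ∀ u ∈ W, u ∈ Y ∩ W := by
      intro u hu
      refine ⟨?_, hu⟩
      by_contra h'
      have : u ∈ W \ Y := ⟨hu, h'⟩
      rw [h1] at this
      exact this
    obtain ⟨-, u, hu, hup⟩ := hpN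
    obtain ⟨-, u', hu', huq⟩ := hqN
    have h3 := hpq p (by rw [hNW]; simp) hyp.ne' hpY u (h2 u hu) hup
    have h4 := hpq q (by rw [hNW]; simp) hyq.ne' hqY u' (h2 u' hu') huq
    exact h.pq (h3.trans h4.symm)
  -- `k` in `W`
  have hky : k ≠ y := fun h' => hyN.1 (h' ▸ hkW)
  have hkY' : k ∉ Y := fun h' => hky (hkY h')
  have hpk : p ≠ k := fun h' => hpN.1 (h' ▸ hkW)
  have hqk : q ≠ k := fun h' => hqN.1 (h' ▸ hkW)
  have hkr : k ≠ r := fun h' => hkY' (h' ▸ hrY)
  set W2 : Set V := (W \ Y) \ {k} with hW2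
  have hW2W : W2 ⊆ W := fun u hu => hu.1.1
  have hkn : k ∉ (Y ∩ W) ∪ W2 := by
    rintro (h' | h')
    · exact hkY' h'.1
    · exact h'.2 rfl
  have hWe : insert k ((Y ∩ W) ∪ W2) = W := by
    ext u
    constructor
    · rintro (h' | h' | h')
      · rw [h']; exact hkW
      · exact h'.2
      · exact hW2W h'
    · intro hu
      by_cases huk : u = k
      · exact Or.inl huk
      · right
        by_cases huY : u ∈ Y
        · exact Or.inl ⟨huY, hu⟩
        · exact Or.inr ⟨⟨hu, huY⟩, huk⟩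
  have hfW := fden_insert G hkn
  rw [hWe] at hfW
  have hdis : Disjoint (Y ∩ W) W2 := by
    rw [Set.disjoint_left]
    intro u hu hu'
    exact hu'.1.2 hu.1
  have hun := fden_union_of_disjoint G hdis
  have hE0 : (0 : ℤ) ≤ ((EBet G (Y ∩ W) W2).ncard : ℤ) := Int.natCast_nonneg _
  have hNk : ∀ v, v ∈ G.neighborSet k \ ((Y ∩ W) ∪ W2) →
      (v = p ∨ v = q ∨ v = b ∨ v = c) ∧ G.Adj k v := by
    rintro v ⟨hv, hv'⟩
    have hkv : G.Adj k v := hv
    refine ⟨?_, hkv⟩
    by_cases hvW : v ∈ W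
    · exfalso
      apply hv'
      by_cases hvY : v ∈ Y
      · exact Or.inl ⟨hvY, hvW⟩
      · exact Or.inr ⟨⟨hvW, hvY⟩, fun h' => hkv.ne (Set.mem_singleton_iff.1 h').symm⟩
    · have : v ∈ Nb G W := ⟨hvW, k, hkW, hkv⟩
      rw [hNW] at this
      rcases this with h3 | h3 | h3 | h3 | h3
      · exact Or.inl h3
      · exact Or.inr (Or.inl h3)
      · exact Or.inr (Or.inr (Or.inl h3))
      · exact Or.inr (Or.inr (Or.inr h3))
      · exfalso
        rw [Set.mem_singleton_iff] at h3
        subst h3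
        have h4 : k ∈ G.neighborSet v := hkv.symm
        rw [h.Ny] at h4
        rcases h4 with h4 | h4 | h4
        · exact hpk h4.symm
        · exact hqk h4.symm
        · rw [Set.mem_singleton_iff] at h4
          exact hkr h4
  have hNX0 : Nb G (Y ∩ W) ⊆ {k, y, b, c} := by
    rintro v ⟨hv, u, hu, huv⟩
    rcases hF u hu v huv with h1 | h1 | h1 | h1 | h1
    · rw [h1]; simp
    · rw [h1]; simp
    · exact absurd h1 hv
    · rw [h1.1]; simp
    · rw [h1.1]; simp
  have hfX0 := fan2_beta h hX0 ⟨r, hrX⟩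
    ((Set.ncard_le_ncard hNX0 (Set.toFinite _)).trans (fan2_le4 k y b c))
  have hyX0 : y ∈ Nb G (Y ∩ W) := ⟨fun h' => hyN.1 h'.2, r, hrX, hyr.symm⟩
  by_cases hW2e : W2 = ∅
  · -- `W2` empty
    have hkt : ∀ t, t ∈ Nb G W → t ≠ y → t ∉ Y → t ≠ k → G.Adj k t := by
      intro t ht hty htY htk
      obtain ⟨-, u, hu, hut⟩ := id ht
      by_cases huY : u ∈ Y
      · exact absurd (hpq t ht hty htY u ⟨huY, hu⟩ hut) htk
      · by_cases huk : u = k
        · exact huk ▸ hut
        · exfalso
          have : u ∈ W2 := ⟨⟨hu, huY⟩, huk⟩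
          rw [hW2e] at this
          exact this
    have hkp := hkt p hpN hyp.ne' hpY hpk
    have hkq := hkt q hqN hyq.ne' hqY hqk
    have hκkp : κ k ≠ κ p := h.bal k p hkW hkp
    have hfX1 : fden G (Y ∩ W) ≤ 1 := by
      refine hfX0.trans ?_
      by_cases hk : k ∈ Nb G (Y ∩ W)
      · have hnm : ¬ Mono κ (Nb G (Y ∩ W)) := by
          intro hm
          apply hκkp
          rw [← h.κy]
          exact hm k hk y hyX0
        rw [beta_of_not_mono hnm]
        have h4 : (((Nb G (Y ∩ W)).ncard : ℕ) : ℤ) ≤ 4 := by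
          exact_mod_cast (Set.ncard_le_ncard hNX0 (Set.toFinite _)).trans (fan2_le4 k y b c)
        linarith
      · have hsub : Nb G (Y ∩ W) ⊆ {y, b, c} := by
          intro v hv
          rcases hNX0 hv with h1 | h1
          · exact absurd (h1 ▸ hv) hk
          · exact h1
        have h4 : (((Nb G (Y ∩ W)).ncard : ℕ) : ℤ) ≤ 3 := by
          exact_mod_cast (Set.ncard_le_ncard hsub (Set.toFinite _)).trans (fan2_le3 y b c)
        have := beta_le κ (Nb G (Y ∩ W))
        linarith
    have hcod : (1 : ℤ) ≤ ({w | w ∈ W ∧ G.Adj w p ∧ G.Adj w q}.ncard : ℤ) := by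
      have := (Set.ncard_pos (Set.toFinite _)).2
        (⟨k, hkW, hkp, hkq⟩ : ({w | w ∈ W ∧ G.Adj w p ∧ G.Adj w q} : Set V).Nonempty)
      exact_mod_cast this
    have hf2 : fden G W2 = 0 := by rw [hW2e, fden_empty]
    by_cases hboth : G.Adj k b ∧ G.Adj k c
    · have hm : Mono κ {p, b, c} := by
        have h1 : ∀ v ∈ ({p, b, c} : Set V), κ v = κ p := by
          rintro v (h1 | h1 | h1)
          · rw [h1]
          · rw [h1]; exact h.bal.eq hkW hboth.1 hkp
          · rw [Set.mem_singleton_iff] at h1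
            rw [h1]; exact h.bal.eq hkW hboth.2 hkp
        intro u hu v hv
        rw [h1 u hu, h1 v hv]
      rw [beta_of_mono hm, fan2_beta3 h] at hde
      have h5 : G.neighborSet k \ ((Y ∩ W) ∪ W2) ⊆ {p, q, b, c} := by
        intro v hv
        rcases (hNk v hv).1 with h1 | h1 | h1 | h1 <;> rw [h1] <;> simp
      have h6 : (((G.neighborSet k \ ((Y ∩ W) ∪ W2)).ncard : ℕ) : ℤ) ≤ 4 := by
        exact_mod_cast (Set.ncard_le_ncard h5 (Set.toFinite _)).trans (fan2_le4 _ _ _ _)
      push_cast at hde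
      linarith
    · have h6 : (((G.neighborSet k \ ((Y ∩ W) ∪ W2)).ncard : ℕ) : ℤ) ≤ 3 := by
        by_cases hkb : G.Adj k b
        · have h5 : G.neighborSet k \ ((Y ∩ W) ∪ W2) ⊆ {p, q, b} := by
            intro v hv
            obtain ⟨h1, h2⟩ := hNk v hv
            rcases h1 with h1 | h1 | h1 | h1
            · rw [h1]; simp
            · rw [h1]; simp
            · rw [h1]; simp
            · exact absurd ⟨hkb, h1 ▸ h2⟩ hboth
          exact_mod_cast (Set.ncard_le_ncard h5 (Set.toFinite _)).trans (fan2_le3 _ _ _)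
        · have h5 : G.neighborSet k \ ((Y ∩ W) ∪ W2) ⊆ {p, q, c} := by
            intro v hv
            obtain ⟨h1, h2⟩ := hNk v hv
            rcases h1 with h1 | h1 | h1 | h1
            · rw [h1]; simp
            · rw [h1]; simp
            · exact absurd (h1 ▸ h2) hkb
            · rw [h1]; simp
          exact_mod_cast (Set.ncard_le_ncard h5 (Set.toFinite _)).trans (fan2_le3 _ _ _)
      linarith
  · -- `W2` is a cubic vertex
    have hne : W2.Nonempty := Set.nonempty_iff_ne_empty.2 hW2e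
    have hsub : Nb G W2 ⊆ {k, p, q} := by
      intro v hv
      have h3 := hN2 W2 hW2W (fun u hu => ⟨hu.1.2, hu.2⟩)
        (fun u hu hu' => by
          by_cases huY : u ∈ Y
          · exact Or.inl huY
          · right
            by_contra huk
            exact hu' ⟨⟨hu, huY⟩, huk⟩) v hv
      rcases h3 with h3 | h3 | h3
      · rw [h3.1]; simp
      · rw [h3]; simp
      · rw [h3]; simp
    obtain ⟨w, hw, hdw, hNw⟩ := fan2_small h hW2W hne
      ((Set.ncard_le_ncard hsub (Set.toFinite _)).trans (fan2_le3 _ _ _))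
    have hNw' : G.neighborSet w = {k, p, q} := by
      rw [← hNw]
      apply Set.eq_of_subset_of_ncard_le hsub
      rw [hNw, hdw]
      exact fan2_le3 k p q
    have hwW : w ∈ W := hW2W (by rw [hw]; rfl)
    have hwk : G.Adj w k := by
      have : k ∈ G.neighborSet w := by rw [hNw']; simp
      exact this
    have hwp : G.Adj w p := by
      have : p ∈ G.neighborSet w := by rw [hNw']; simp
      exact this
    have hwq : G.Adj w q := by
      have : q ∈ G.neighborSet w := by rw [hNw']; simp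
      exact this
    have hκkp : κ k = κ p := h.bal.eq hwW hwk hwp
    have hf2 : fden G W2 = 1 := by
      rw [hw, fan2_fden_single, hdw]; norm_num
    have hcod : (1 : ℤ) ≤ ({w | w ∈ W ∧ G.Adj w p ∧ G.Adj w q}.ncard : ℤ) := by
      have := (Set.ncard_pos (Set.toFinite _)).2
        (⟨w, hwW, hwp, hwq⟩ : ({w | w ∈ W ∧ G.Adj w p ∧ G.Adj w q} : Set V).Nonempty)
      exact_mod_cast this
    have h6 : (((G.neighborSet k \ ((Y ∩ W) ∪ W2)).ncard : ℕ) : ℤ) ≤ 2 := by
      have h5 : G.neighborSet k \ ((Y ∩ W) ∪ W2) ⊆ {b, c} := by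
        intro v hv
        obtain ⟨h1, h2⟩ := hNk v hv
        have h3 := h.bal k v hkW h2
        rcases h1 with h1 | h1 | h1 | h1
        · exact absurd (by rw [h1]; exact hκkp) h3
        · exact absurd (by rw [h1, ← h.κpq]; exact hκkp) h3
        · rw [h1]; simp
        · rw [h1]; simp
      exact_mod_cast (Set.ncard_le_ncard h5 (Set.toFinite _)).trans (ncard_pair_le' _ _)
    have h7 : beta κ {k, y, b, c} ≤ beta κ {p, b, c} + 1 := by
      have h4 : ((({k, y, b, c} : Set V).ncard : ℕ) : ℤ) ≤ 4 := by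
        exact_mod_cast fan2_le4 k y b c
      by_cases hm : Mono κ {p, b, c}
      · rw [beta_of_mono hm, fan2_beta3 h]
        have := beta_le κ ({k, y, b, c} : Set V)
        push_cast
        linarith
      · have hnm : ¬ Mono κ {k, y, b, c} := by
          intro hm'
          apply hm
          have h1 : ∀ v ∈ ({p, b, c} : Set V), κ v = κ p := by
            rintro v (h1 | h1 | h1)
            · rw [h1]
            · rw [h1, ← hκkp]; exact hm' b (by simp) k (by simp)
            · rw [Set.mem_singleton_iff] at h1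
              rw [h1, ← hκkp]; exact hm' c (by simp) k (by simp)
          intro u hu v hv
          rw [h1 u hu, h1 v hv]
        rw [beta_of_not_mono hm, beta_of_not_mono hnm, fan2_beta3 h]
        push_cast
        linarith
    have h8 : beta κ (Nb G (Y ∩ W)) ≤ beta κ {k, y, b, c} := beta_mono hNX0
    linarith

/-- `r` has a 2-fan to `{p, q}` in `G[W + p + q + b + c]` without the edges inside `N(W)`. -/
theorem O3.fan2 [Finite V] (h : O3 G U κ W p q r b c y) :
    Fan (delG (atG G W) {y}) r {p, q} 2 := by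
  have hNW := h.NW
  have hpN : p ∈ Nb G W := by rw [hNW]; simp
  have hqN : q ∈ Nb G W := by rw [hNW]; simp
  have hyN : y ∈ Nb G W := by rw [hNW]; simp
  have hyr : G.Adj y r := by
    have : r ∈ G.neighborSet y := by rw [h.Ny]; simp
    exact this
  have hrn : r ∉ ({p, q} : Set V) := by
    rintro (h' | h')
    · exact hpN.1 (h' ▸ h.rW)
    · rw [Set.mem_singleton_iff] at h'
      exact hqN.1 (h' ▸ h.rW)
  apply fan_of_Nb hrn
  intro Y hrY hdis _
  by_contra hlt
  push Not at hlt
  have hpY : p ∉ Y := fun h' => Set.disjoint_left.1 hdis h' (by simp)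
  have hqY : q ∉ Y := fun h' => Set.disjoint_left.1 hdis h' (by simp)
  set N := Nb (delG (atG G W) {y}) Y with hN
  obtain ⟨k, hk, hkY⟩ : ∃ k, N ⊆ {k} ∧ (k ∈ Y → k = y) := by
    rcases Set.eq_empty_or_nonempty N with h1 | ⟨k, hk⟩
    · exact ⟨y, by rw [h1]; exact Set.empty_subset _, fun _ => rfl⟩
    · refine ⟨k, ?_, fun h' => absurd h' hk.1⟩
      have h2 := (Set.ncard_le_one (Set.toFinite N)).1 (by omega)
      intro z hz
      exact h2 z hz k hk
  have hF : ∀ u ∈ Y ∩ W, ∀ v, G.Adj u v →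
      v = y ∨ v = k ∨ v ∈ Y ∩ W ∨ (v = b ∧ b ∈ Y) ∨ (v = c ∧ c ∈ Y) := by
    intro u hu v huv
    by_cases hvy : v = y
    · exact Or.inl hvy
    right
    by_cases hvY : v ∈ Y
    · right
      by_cases hvW : v ∈ W
      · exact Or.inl ⟨hvY, hvW⟩
      · right
        have : v ∈ Nb G W := ⟨hvW, u, hu.2, huv⟩
        rw [hNW] at this
        rcases this with h3 | h3 | h3 | h3 | h3
        · exact absurd (h3 ▸ hvY) hpY
        · exact absurd (h3 ▸ hvY) hqY
        · exact Or.inl ⟨h3, h3 ▸ hvY⟩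
        · exact Or.inr ⟨h3, h3 ▸ hvY⟩
        · exact absurd h3 hvy
    · left
      have huy : u ≠ y := fun h' => hyN.1 (h' ▸ hu.2)
      have : v ∈ N := ⟨hvY, u, hu.1, ⟨huv, Or.inl hu.2⟩, huy, hvy⟩
      exact hk this
  have hG : ∀ u ∈ W, u ∉ Y → u ≠ k → ∀ v ∈ Y, v ≠ y → ¬ G.Adj u v := by
    intro u hu huY huk v hv hvy huv
    have huy : u ≠ y := fun h' => hyN.1 (h' ▸ hu)
    have : u ∈ N := ⟨huY, v, hv, ⟨huv.symm, Or.inr hu⟩, hvy, huy⟩
    exact huk (hk this)
  by_cases hb : b ∈ Y
  · by_cases hc : c ∈ Y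
    · exact fan2_two h hrY hpY hqY hkY hF hG hb hc
    · exact fan2_one h hrY hF hG hb hc
  · by_cases hc : c ∈ Y
    · refine fan2_one h.symm_bc hrY ?_ hG hc hb
      intro u hu v huv
      rcases hF u hu v huv with h1 | h1 | h1 | h1 | h1
      · exact Or.inl h1
      · exact Or.inr (Or.inl h1)
      · exact Or.inr (Or.inr (Or.inl h1))
      · exact Or.inr (Or.inr (Or.inr (Or.inr h1)))
      · exact Or.inr (Or.inr (Or.inr (Or.inl h1)))
    · -- neither
      have hNX : Nb G (Y ∩ W) ⊆ {k, y} := by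
        rintro v ⟨hv, u, hu, huv⟩
        rcases hF u hu v huv with h1 | h1 | h1 | h1 | h1
        · rw [h1]; simp
        · rw [h1]; simp
        · exact absurd h1 hv
        · exact absurd h1.2 hb
        · exact absurd h1.2 hc
      have h2 : (Nb G (Y ∩ W)).ncard ≤ 2 :=
        (Set.ncard_le_ncard hNX (Set.toFinite _)).trans (ncard_pair_le' _ _)
      obtain ⟨x, hx, hdx, hNx⟩ := fan2_small h Set.inter_subset_right ⟨r, hrY, h.rW⟩
        (h2.trans (by norm_num))
      rw [hNx, hdx] at h2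
      omega

end Pool.Agent.Helper97.OT
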