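import Pool.Agent.Helper97.O3.Basic
import Pool.Agent.Helper57.TD.TheoremD

/-!
# O3: the society `Z_W` (section 2 of the note)
-/

set_option autoImplicit false

namespace Pool.Agent.Helper97.OT

open SimpleGraph Pool.Agent.Helper57.TOK Pool.Agent.Helper57.TD Pool.Agent.Helper82.TK
  Pool.Agent.Helper51.GX

variable {V : Type*} {G : SimpleGraph V} {U W : Set V} {κ : V → ZMod 2} {p q r b c y : V}

private lemma frame_ncard4 {a b c d : V} (h1 : a ≠ b) (h2 : a ≠ c) (h3 : a ≠ d) (h4 : b ≠ c)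
    (h5 : b ≠ d) (h6 : c ≠ d) : ({a, b, c, d} : Set V).ncard = 4 := by
  rw [Set.ncard_insert_of_notMem (by simp [h1, h2, h3]) (Set.toFinite _),
    Set.ncard_insert_of_notMem (by simp [h4, h5]) (Set.toFinite _), Set.ncard_pair h6]

/-- Edges of `Z_W` at a vertex of `W`. -/
private lemma frame_adj (hp : p ∉ W) (hq : q ∉ W) {u w : V} (hu : u ∈ W) :
    (ZW G W p q).Adj u w ↔ w ≠ q ∧ (G.Adj u w ∨ (w = p ∧ G.Adj u q)) := by
  have hup : u ≠ p := fun h => hp (h ▸ hu)
  have huq : u ≠ q := fun h => hq (h ▸ hu)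
  unfold ZW
  rw [mergeG_adj]
  simp only [atG_adj, hu, true_or, and_true]
  constructor
  · rintro ⟨h1, h2, h3, h4 | h4 | h4⟩
    · exact ⟨h3, Or.inl h4⟩
    · exact absurd h4.1 hup
    · exact ⟨h3, Or.inr ⟨h4.1, h4.2.1.symm⟩⟩
  · rintro ⟨h1, h2 | h2⟩
    · exact ⟨h2.ne, huq, h1, Or.inl h2⟩
    · refine ⟨?_, huq, h1, Or.inr (Or.inr ⟨h2.1, h2.2.symm, Or.inr trivial⟩)⟩
      rw [h2.1]; exact hup

private lemma frame_W {u v : V} (hq : q ∉ W) (h : (ZW G W p q).Adj u v) :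
    u ∈ W ∨ v ∈ W := by
  unfold ZW at h
  rw [mergeG_adj] at h
  obtain ⟨h1, h2, h3, h4 | h4 | h4⟩ := h
  · exact h4.2
  · rcases h4.2.2 with h5 | h5
    · exact absurd h5 hq
    · exact Or.inr h5
  · rcases h4.2.2 with h5 | h5
    · exact absurd h5 hq
    · exact Or.inl h5

/-- `Z_W` has only odd edges. -/
private lemma frame_odd (hB : Bal G κ W) (hp : p ∉ W) (hq : q ∉ W) (hκ : κ p = κ q) :
    oddG (ZW G W p q) κ = ZW G W p q := by
  have key : ∀ u v, u ∈ W → (ZW G W p q).Adj u v → κ u ≠ κ v := by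
    intro u v hu h
    rw [frame_adj hp hq hu] at h
    rcases h.2 with h1 | h1
    · exact hB u v hu h1
    · rw [h1.1, hκ]; exact hB u q hu h1.2
  ext u v
  rw [oddG_adj]
  constructor
  · exact fun h => h.1
  · intro h
    refine ⟨h, ?_⟩
    rw [add_eq_one_iff]
    rcases frame_W hq h with h1 | h1
    · exact key u v h1 h
    · exact (key v u h1 h.symm).symm

private lemma frame_fO (hB : Bal G κ W) (hp : p ∉ W) (hq : q ∉ W) (hκ : κ p = κ q) (Y : Set V) :
    fO (ZW G W p q) κ Y = fden (ZW G W p q) Y := by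
  unfold fO
  rw [frame_odd hB hp hq hκ]

/-- Replacing `q` by `p` in a set. -/
private lemma frame_repl [Finite V] (hpq : p ≠ q) {N N' : Set V}
    (h : ∀ w, w ∈ N' ↔ w ≠ q ∧ (w ∈ N ∨ (w = p ∧ q ∈ N))) :
    (¬ (p ∈ N ∧ q ∈ N) → N.ncard = N'.ncard) ∧ (p ∈ N → q ∈ N → N.ncard = N'.ncard + 1) := by
  by_cases hq : q ∈ N
  · by_cases hp : p ∈ N
    · refine ⟨fun h' => absurd ⟨hp, hq⟩ h', fun _ _ => ?_⟩
      have h1 : N' = N \ {q} := by
        ext w
        rw [h w, Set.mem_sdiff, Set.mem_singleton_iff]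
        constructor
        · rintro ⟨h2, h3 | h3⟩
          · exact ⟨h3, h2⟩
          · exact ⟨h3.1 ▸ hp, h2⟩
        · rintro ⟨h2, h3⟩
          exact ⟨h3, Or.inl h2⟩
      rw [h1]
      exact (Set.ncard_sdiff_singleton_add_one hq (Set.toFinite _)).symm
    · refine ⟨fun _ => ?_, fun h' => absurd h' hp⟩
      have h1 : N' = insert p (N \ {q}) := by
        ext w
        rw [h w, Set.mem_insert_iff, Set.mem_sdiff, Set.mem_singleton_iff]
        constructor
        · rintro ⟨h2, h3 | h3⟩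
          · exact Or.inr ⟨h3, h2⟩
          · exact Or.inl h3.1
        · rintro (h2 | ⟨h2, h3⟩)
          · exact ⟨h2 ▸ hpq, Or.inr ⟨h2, hq⟩⟩
          · exact ⟨h3, Or.inl h2⟩
      rw [h1, Set.ncard_insert_of_notMem (fun h' => hp h'.1) (Set.toFinite _)]
      exact (Set.ncard_sdiff_singleton_add_one hq (Set.toFinite _)).symm
  · refine ⟨fun _ => ?_, fun _ h' => absurd h' hq⟩
    have h1 : N' = N := by
      ext w
      rw [h w]
      constructor
      · rintro ⟨h2, h3 | h3⟩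
        · exact h3
        · exact absurd h3.2 hq
      · intro h2
        exact ⟨fun h' => hq (h' ▸ h2), Or.inl h2⟩
    rw [h1]

/-- The count: `q` is merged into `p`. -/
private lemma frame_rho [Finite V] (hpq : p ≠ q) (hp : p ∉ W) (hq : q ∉ W) {Y : Set V}
    (hY : Y ⊆ W) :
    fden (ZW G W p q) Y + ({w | w ∈ Y ∧ G.Adj w p ∧ G.Adj w q}.ncard : ℤ) = fden G Y := by
  classical
  induction Y, Set.toFinite Y using Set.Finite.induction_on with
  | empty =>
    have h1 : {w | w ∈ (∅ : Set V) ∧ G.Adj w p ∧ G.Adj w q} = ∅ := by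
      ext w
      simp
    rw [h1]
    simp
  | @insert a Y ha hfin ih =>
    have haW : a ∈ W := hY (Set.mem_insert a Y)
    have hYW : Y ⊆ W := (Set.subset_insert a Y).trans hY
    have ih' := ih hYW
    rw [fden_insert _ ha, fden_insert _ ha, ← ih']
    have hpY : p ∉ Y := fun h => hp (hYW h)
    have hqY : q ∉ Y := fun h => hq (hYW h)
    obtain ⟨h1, h2⟩ := frame_repl hpq (N := G.neighborSet a \ Y)
      (N' := (ZW G W p q).neighborSet a \ Y) (by
        intro w
        rw [Set.mem_sdiff, SimpleGraph.mem_neighborSet, frame_adj hp hq haW, Set.mem_sdiff,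
          SimpleGraph.mem_neighborSet, Set.mem_sdiff, SimpleGraph.mem_neighborSet]
        constructor
        · rintro ⟨⟨h3, h4 | h4⟩, h5⟩
          · exact ⟨h3, Or.inl ⟨h4, h5⟩⟩
          · exact ⟨h3, Or.inr ⟨h4.1, h4.2, hqY⟩⟩
        · rintro ⟨h3, h4 | h4⟩
          · exact ⟨⟨h3, Or.inl h4.1⟩, h4.2⟩
          · exact ⟨⟨h3, Or.inr ⟨h4.1, h4.2.1⟩⟩, h4.1 ▸ hpY⟩)
    by_cases hc : G.Adj a p ∧ G.Adj a q
    · have h3 := h2 ⟨hc.1, hpY⟩ ⟨hc.2, hqY⟩
      have h4 : {w | w ∈ insert a Y ∧ G.Adj w p ∧ G.Adj w q} =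
          insert a {w | w ∈ Y ∧ G.Adj w p ∧ G.Adj w q} := by
        ext w
        simp only [Set.mem_ofPred_eq, Set.mem_insert_iff]
        constructor
        · rintro ⟨h5 | h5, h6⟩
          · exact Or.inl h5
          · exact Or.inr ⟨h5, h6⟩
        · rintro (h5 | h5)
          · exact ⟨Or.inl h5, h5 ▸ hc⟩
          · exact ⟨Or.inr h5.1, h5.2⟩
      rw [h4, Set.ncard_insert_of_notMem (fun h => ha h.1) (Set.toFinite _), h3]
      push_cast
      ring
    · have h3 := h1 (fun h => hc ⟨h.1.1, h.2.1⟩)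
      have h4 : {w | w ∈ insert a Y ∧ G.Adj w p ∧ G.Adj w q} =
          {w | w ∈ Y ∧ G.Adj w p ∧ G.Adj w q} := by
        ext w
        simp only [Set.mem_ofPred_eq, Set.mem_insert_iff]
        constructor
        · rintro ⟨h5 | h5, h6⟩
          · exact absurd (h5 ▸ h6) hc
          · exact ⟨h5, h6⟩
        · rintro h5
          exact ⟨Or.inr h5.1, h5.2⟩
      rw [h4, h3]
      ring

private lemma frame_Nb (hp : p ∉ W) (hq : q ∉ W) {Y : Set V} (hY : Y ⊆ W) (w : V) :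
    w ∈ Nb (ZW G W p q) Y ↔ w ≠ q ∧ (w ∈ Nb G Y ∨ (w = p ∧ q ∈ Nb G Y)) := by
  have hpY : p ∉ Y := fun h => hp (hY h)
  have hqY : q ∉ Y := fun h => hq (hY h)
  rw [mem_Nb, mem_Nb, mem_Nb]
  constructor
  · rintro ⟨h1, u, hu, h2⟩
    rw [frame_adj hp hq (hY hu)] at h2
    rcases h2.2 with h3 | h3
    · exact ⟨h2.1, Or.inl ⟨h1, u, hu, h3⟩⟩
    · exact ⟨h2.1, Or.inr ⟨h3.1, hqY, u, hu, h3.2⟩⟩
  · rintro ⟨h1, ⟨h2, u, hu, h3⟩ | ⟨h2, -, u, hu, h3⟩⟩
    · exact ⟨h2, u, hu, (frame_adj hp hq (hY hu)).2 ⟨h1, Or.inl h3⟩⟩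
    · exact ⟨h2 ▸ hpY, u, hu, (frame_adj hp hq (hY hu)).2 ⟨h1, Or.inr ⟨h2, h3⟩⟩⟩

theorem O3.soc [Finite V] (h : O3 G U κ W p q r b c y) :
    Soc false (ZW G W p q) κ W {p, b, c, y} := by
  have hpN : p ∈ Nb G W := by rw [h.NW]; simp
  have hqN : q ∈ Nb G W := by rw [h.NW]; simp
  have hbN : b ∈ Nb G W := by rw [h.NW]; simp
  have hcN : c ∈ Nb G W := by rw [h.NW]; simp
  have hyN : y ∈ Nb G W := by rw [h.NW]; simp
  have hp : p ∉ W := hpN.1
  have hq : q ∉ W := hqN.1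
  have hyp : G.Adj y p := by
    have h1 : p ∈ G.neighborSet y := by rw [h.Ny]; simp
    exact h1
  have hT : ∀ v, v ∈ Nb G W → v ≠ q → v ∈ ({p, b, c, y} : Set V) := by
    intro v hv hvq
    rw [h.NW] at hv
    rcases hv with hv | hv | hv | hv | hv
    · exact Or.inl hv
    · exact absurd hv hvq
    · exact Or.inr (Or.inl hv)
    · exact Or.inr (Or.inr (Or.inl hv))
    · exact Or.inr (Or.inr (Or.inr hv))
  have hmem : ∀ u v, (ZW G W p q).Adj u v → u ∈ W ∪ {p, b, c, y} := by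
    intro u v huv
    by_cases hu : u ∈ W
    · exact Or.inl hu
    · right
      have hv : v ∈ W := (frame_W hq huv).resolve_left hu
      have h1 := huv.symm
      rw [frame_adj hp hq hv] at h1
      rcases h1.2 with h2 | h2
      · exact hT u ⟨hu, v, hv, h2⟩ h1.1
      · rw [h2.1]; simp
  have hP1 : ∀ Y ⊆ W, 2 ≤ Y.ncard → 4 ≤ (Nb G Y).ncard := fun Y hY h2 =>
    h.base.P1 Y (hY.trans h.WU) h2 κ (h.bal.mono hY)
  have hle : ∀ Y ⊆ W, (Nb G Y).ncard ≤ (Nb (ZW G W p q) Y).ncard + 1 := by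
    intro Y hY
    obtain ⟨h1, h2⟩ := frame_repl h.pq (frame_Nb (G := G) hp hq hY)
    by_cases h3 : p ∈ Nb G Y ∧ q ∈ Nb G Y
    · exact (h2 h3.1 h3.2).le
    · rw [h1 h3]; omega
  have hC1 : ∀ s ∈ W, 2 ≤ ((ZW G W p q).neighborSet s).ncard := by
    intro s hs
    have h1 := hle {s} (Set.singleton_subset_iff.2 hs)
    rw [Nb_singleton, Nb_singleton] at h1
    have h2 := h.base.deg3 s (h.WU hs)
    omega
  refine ⟨?_, ?_, hmem, fun u v huv => frame_W hq huv, ?_, fun h' => absurd h' (by simp), ?_,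
    hC1, ?_⟩
  · exact frame_ncard4 h.pb h.pc hyp.ne.symm h.bc h.yb.symm h.yc.symm
  · rw [Set.disjoint_right]
    rintro v (hv | hv | hv | hv)
    · rw [hv]; exact hp
    · rw [hv]; exact hbN.1
    · rw [hv]; exact hcN.1
    · rw [Set.mem_singleton_iff] at hv
      rw [hv]; exact hyN.1
  · change beta κ {p, b, c, y} + 1 ≤ fO (ZW G W p q) κ W
    rw [frame_fO h.bal hp hq h.κpq]
    have h1 := frame_rho (G := G) h.pq hp hq (subset_refl W)
    have h2 := h.dense
    have h3 : ({p, b, c, y} : Set V) = insert y {p, b, c} := by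
      ext v
      simp only [Set.mem_insert_iff, Set.mem_singleton_iff]
      tauto
    have h4 := beta_insert_le (κ := κ) (N := {p, b, c}) (x := y)
    rw [h3]
    linarith
  · intro Y hY hne h3
    by_cases h1 : Y.ncard ≤ 1
    · have h2 : Y.ncard = 1 := by
        have := (Set.ncard_pos (Set.toFinite Y)).2 hne
        omega
      obtain ⟨s, rfl⟩ := Set.ncard_eq_one.1 h2
      refine fO_singleton_le _ κ s ?_
      rw [← Set.ncard_pos (Set.toFinite _)]
      have := hC1 s (hY rfl)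
      omega
    · have h4 := hP1 Y hY (by omega)
      have h5 := hle Y hY
      have h6 : (Nb G Y).ncard = 4 := by omega
      obtain ⟨g1, g2⟩ := frame_repl h.pq (frame_Nb (G := G) hp hq hY)
      have h7 : p ∈ Nb G Y ∧ q ∈ Nb G Y := by
        by_contra hcon
        have := g1 hcon
        omega
      have hrY : r ∉ Y := by
        intro hr
        have := h.F1 hY hr h7.1 h7.2
        omega
      have hyY : y ∉ Y := fun h' => hyN.1 (hY h')
      have hw : ∃ w ∈ Y, G.Adj w p ∧ G.Adj w q := by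
        by_contra hcon
        push Not at hcon
        exact h.alpha Y (hY.trans h.WU) κ (h.bal.mono hY) h6 h7.1 h7.2 h.κpq hyY hrY
          (fun _ => h.κr) (fun w hwY hw' => hcon w hwY hw'.1 hw'.2)
      obtain ⟨w, hwY, hwp, hwq⟩ := hw
      have h8 : 1 ≤ {w | w ∈ Y ∧ G.Adj w p ∧ G.Adj w q}.ncard := by
        exact (Set.ncard_pos (Set.toFinite _)).2 ⟨w, hwY, hwp, hwq⟩
      have h9 := frame_rho (G := G) h.pq hp hq hY
      have h10 := h.base.P2 Y (hY.trans h.WU) κ (h.bal.mono hY) h6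
      have h11 : Nb G Y ⊆ insert q (Nb (ZW G W p q) Y) := by
        intro v hv
        by_cases hvq : v = q
        · exact Or.inl hvq
        · exact Or.inr ((frame_Nb hp hq hY v).2 ⟨hvq, Or.inl hv⟩)
      have h12 := (beta_mono (κ := κ) h11).trans beta_insert_le
      rw [frame_fO h.bal hp hq h.κpq]
      have h13 : (1 : ℤ) ≤ ({w | w ∈ Y ∧ G.Adj w p ∧ G.Adj w q}.ncard : ℤ) := by exact_mod_cast h8
      linarith
  · intro Y hY h2
    have h4 := hP1 Y hY h2
    have h5 := hle Y hY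
    omega

theorem O3.frame [Finite V] (h : O3 G U κ W p q r b c y) : FrameE (ZW G W p q) κ p y b c := by
  have hyp : G.Adj y p := by
    have h1 : p ∈ G.neighborSet y := by rw [h.Ny]; simp
    exact h1
  exact theoremD _ _ _ _ h.soc p (by simp) y (by simp) b (by simp) c (by simp) hyp.ne.symm h.pb
    h.pc h.yb h.yc h.bc

end Pool.Agent.Helper97.OT
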