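import Pool.Agent.Helper97.O3.Basic
import Pool.Agent.Helper1.GL.Basic

/-!
# O3: the inconsistent path from `b` to `c` (F5 of the note)
-/

set_option autoImplicit false

namespace Pool.Agent.Helper97.OT

open SimpleGraph Pool.Agent.Helper57.TOK Pool.Agent.Helper57.TD Pool.Agent.Helper82.TK
  Pool.Agent.Helper51.GX

variable {V : Type*} {G : SimpleGraph V} {U W : Set V} {κ : V → ZMod 2} {p q r b c y : V}

private lemma inc_one_of_ne {s t : ZMod 2} (h : s ≠ t) : (1 : ZMod 2) = s + t := by
  revert s t; decide

private lemma inc_ne_of_one {s t : ZMod 2} (h : (1 : ZMod 2) = s + t) : s ≠ t := by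
  revert s t; decide

private lemma inc_parity {a s t : ZMod 2} (h : a + 1 = s + t + 1) : a = s + t := by
  revert a s t; decide

private theorem inc_I4 (h : Base G U) : Pool.Agent.Helper1.GL.I4 G (fun _ => (1 : ZMod 2)) U where
  edge_mem := h.edge_mem
  deg3 := h.deg3
  cut := h.I4
  idx := by
    intro z1 z2 κ hb
    apply h.ind3 z1 z2 κ
    intro u v hu hv huv
    exact inc_ne_of_one (hb u v hu hv huv)

/-- F5: otherwise `G - {p, q}` is balanced. -/
theorem O3.inc [Finite V] (h : O3 G U κ W p q r b c y) :
    ∃ L, PathIn G (Rs G U W) b c L ∧ (L.length : ZMod 2) = κ b + κ c := by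
  classical
  have hbN : b ∈ Nb G W := by rw [h.NW]; simp
  have hcN : c ∈ Nb G W := by rw [h.NW]; simp
  have hpN : p ∈ Nb G W := by rw [h.NW]; simp
  have hqN : q ∈ Nb G W := by rw [h.NW]; simp
  have hyN : y ∈ Nb G W := by rw [h.NW]; simp
  have hadj : ∀ v, G.Adj y v ↔ v = p ∨ v = q ∨ v = r := by
    intro v
    have : v ∈ G.neighborSet y ↔ v ∈ ({p, q, r} : Set V) := by rw [h.Ny]
    simpa using this
  have hpy : y ≠ p := ((hadj p).2 (Or.inl rfl)).ne
  have hqy : y ≠ q := ((hadj q).2 (Or.inr (Or.inl rfl))).ne
  have hmemD : ∀ x, x ∈ W ∪ {y} ↔ x ∈ W ∨ x = y := by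
    intro x
    exact Iff.rfl
  obtain ⟨P, hP, hw, hs⟩ := (inc_I4 h.base).virtual (D := W ∪ {y}) (κ := κ) (v := p) (m1 := b)
    (m2 := c) (m3 := q) (Or.inl ⟨y, Or.inr rfl⟩)
    (by
      intro x hx
      rcases (hmemD x).1 hx with hx | hx
      · exact h.WU hx
      · rw [hx]; exact h.yU)
    h.bc h.qb.symm h.qc.symm h.pb h.pc h.pq
    (by obtain ⟨-, u, -, hu⟩ := hbN; exact h.base.edge_mem _ _ hu.symm)
    (by obtain ⟨-, u, -, hu⟩ := hcN; exact h.base.edge_mem _ _ hu.symm)
    (by intro hx; rcases (hmemD b).1 hx with hx | hx; exacts [hbN.1 hx, h.yb hx.symm])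
    (by intro hx; rcases (hmemD c).1 hx with hx | hx; exacts [hcN.1 hx, h.yc hx.symm])
    (by intro hx; rcases (hmemD q).1 hx with hx | hx; exacts [hqN.1 hx, hqy hx.symm])
    (by intro hx; rcases (hmemD p).1 hx with hx | hx; exacts [hpN.1 hx, hpy hx.symm])
    (by
      rintro v ⟨hv, u, hu, huv⟩
      rcases (hmemD u).1 hu with hu | hu
      · have hvN : v ∈ Nb G W := ⟨fun hv' => hv (Or.inl hv'), u, hu, huv⟩
        rw [h.NW] at hvN
        rcases hvN with h1 | h1 | h1 | h1 | h1
        · left; exact h1
        · right; right; right; exact h1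
        · right; left; exact h1
        · right; right; left; exact h1
        · exact absurd (Or.inr h1) hv
      · rw [hu] at huv
        rcases (hadj v).1 huv with h1 | h1 | h1
        · left; exact h1
        · right; right; right; exact h1
        · exact absurd (Or.inl (h1 ▸ h.rW)) hv)
    (by
      intro x hx z hz hxz
      apply inc_one_of_ne
      rcases (hmemD x).1 hx with hx | hx
      · exact h.bal x z hx hxz
      · rw [hx] at hxz ⊢
        rcases hz with hz | hz | hz
        · rcases (hmemD z).1 hz with hz | hz
          · exact (h.bal z y hz hxz.symm).symm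
          · exact absurd hz.symm hxz.ne
        · exfalso
          rcases (hadj z).1 hxz with h1 | h1 | h1
          · exact h.pb (h1.symm.trans hz)
          · exact h.qb (h1.symm.trans hz)
          · exact hbN.1 (hz ▸ h1 ▸ h.rW)
        · exfalso
          rcases (hadj z).1 hxz with h1 | h1 | h1
          · exact h.pc (h1.symm.trans hz)
          · exact h.qc (h1.symm.trans hz)
          · exact hcN.1 (hz ▸ h1 ▸ h.rW))
  cases P with
  | nil => exact absurd rfl h.bc
  | @cons _ z _ hz Q =>
    have hsup : Q.support = Q.support.dropLast ++ [c] := by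
      conv_lhs => rw [← List.dropLast_append_getLast Q.support_ne_nil]
      rw [Walk.getLast_support]
    rw [Walk.cons_isPath_iff] at hP
    refine ⟨Q.support.dropLast, ⟨?_, ?_, ?_⟩, ?_⟩
    · rw [← hsup]
      exact (Walk.cons hz Q).isChain_adj_support
    · exact hP.1.support_nodup.sublist (List.dropLast_sublist _)
    · intro x hx
      have hxQ : x ∈ Q.support := List.mem_of_mem_dropLast hx
      have hx3 := hs x (by rw [Walk.support_cons]; exact List.mem_cons_of_mem _ hxQ)
      have hxb : x ≠ b := by
        rintro rfl
        exact hP.2 hxQ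
      have hxc : x ≠ c := by
        rintro rfl
        have h1 := hP.1.support_nodup
        rw [hsup, List.nodup_append] at h1
        exact h1.2.2 x hx x (by simp) rfl
      have hxD := hx3.1
      rw [hmemD, not_or] at hxD
      refine ⟨?_, ?_⟩
      · -- `x` is in `U`
        have hne : Q.support ≠ [] := Q.support_ne_nil
        have h1 : ∃ w, G.Adj x w := by
          cases Q with
          | nil =>
            simp at hx
          | @cons _ z' _ hz' Q' =>
            by_cases hxz : x = z
            · exact ⟨z', hxz ▸ hz'⟩
            · have hx' : x ∈ Q'.support := by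
                rw [Walk.support_cons, List.mem_cons] at hxQ
                exact hxQ.resolve_left hxz
              obtain ⟨A, B, hAB⟩ := Walk.mem_support_iff_exists_append.1 hx'
              cases B with
              | nil => exact absurd rfl hxc
              | @cons _ w _ hw' _ => exact ⟨w, hw'⟩
        obtain ⟨w, hw'⟩ := h1
        exact h.base.edge_mem x w hw'
      · rintro (h1 | h1)
        · exact hxD.1 h1
        · rw [h.NW] at h1
          rcases h1 with h2 | h2 | h2 | h2 | h2
          · exact hx3.2.1 h2
          · exact hx3.2.2 h2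
          · exact hxb h2
          · exact hxc h2
          · exact hxD.2 h2
    · apply inc_parity
      rw [wt_one] at hw
      rw [← hw, Walk.length_cons]
      have h1 := congrArg List.length hsup
      rw [Walk.length_support, List.length_append, List.length_singleton] at h1
      have h2 : Q.support.dropLast.length = Q.length := by omega
      rw [h2]
      push_cast
      ring

end Pool.Agent.Helper97.OT
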