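import Pool.Agent.Helper97.O3.Defs
import Pool.Agent.Helper82.TK.Project

/-!
# Normal form of coloured frames, by lists of vertices
-/

set_option autoImplicit false

namespace Pool.Agent.Helper97.OT

open SimpleGraph Pool.Agent.Helper57.TOK Pool.Agent.Helper82.TK

variable {V W : Type*}

/-- Normal form of a frame for `{a, b} | {u, v}`: branch vertices `v0, v1, v2, v3`, legs from them
to `a, b, u, v`, and four arcs. -/
structure NF (Z : SimpleGraph V) (κ : V → ZMod 2) (a b u v : V) (v0 v1 v2 v3 : V)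
    (X Y S T A02 A03 A12 A13 : List V) : Prop where
  chX : List.IsChain Z.Adj (v0 :: X)
  chY : List.IsChain Z.Adj (v1 :: Y)
  chS : List.IsChain Z.Adj (v2 :: S)
  chT : List.IsChain Z.Adj (v3 :: T)
  laX : (v0 :: X).getLast? = some a
  laY : (v1 :: Y).getLast? = some b
  laS : (v2 :: S).getLast? = some u
  laT : (v3 :: T).getLast? = some v
  ch02 : List.IsChain Z.Adj (v0 :: (A02 ++ [v2]))
  ch03 : List.IsChain Z.Adj (v0 :: (A03 ++ [v3]))
  ch12 : List.IsChain Z.Adj (v1 :: (A12 ++ [v2]))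
  ch13 : List.IsChain Z.Adj (v1 :: (A13 ++ [v3]))
  nodup : ([v0, v1, v2, v3] ++ X ++ Y ++ S ++ T ++ A02 ++ A03 ++ A12 ++ A13).Nodup
  c02 : κ v0 ≠ κ v2
  c03 : κ v0 ≠ κ v3
  c12 : κ v1 ≠ κ v2

section perm

variable {F : SimpleGraph W} {C : Sym2 W → ZMod 2} {v : Fin 4 → W}
  {P : ∀ i j : Fin 4, F.Walk (v i) (v j)}

/-- Renaming the branch vertices of a TOK4. -/
theorem isTOK_perm (h : IsTOK F C v P) (σ : Fin 4 → Fin 4) (hσ : Function.Injective σ) :
    ∃ P' : ∀ i j : Fin 4, F.Walk (v (σ i)) (v (σ j)), IsTOK F C (fun i => v (σ i)) P' ∧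
      ∀ i j, i < j → (σ i < σ j → (∀ e, e ∈ (P' i j).edges ↔ e ∈ (P (σ i) (σ j)).edges) ∧
          ∀ z, z ∈ (P' i j).support ↔ z ∈ (P (σ i) (σ j)).support) ∧
        (σ j < σ i → (∀ e, e ∈ (P' i j).edges ↔ e ∈ (P (σ j) (σ i)).edges) ∧
          ∀ z, z ∈ (P' i j).support ↔ z ∈ (P (σ j) (σ i)).support) := by
  classical
  let P' : ∀ i j : Fin 4, F.Walk (v (σ i)) (v (σ j)) := fun i j =>
    if σ i < σ j then P (σ i) (σ j) else (P (σ j) (σ i)).reverse
  have h1 : ∀ i j, σ i < σ j → P' i j = P (σ i) (σ j) := fun i j hij => if_pos hij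
  have h2 : ∀ i j, σ j < σ i → P' i j = (P (σ j) (σ i)).reverse :=
    fun i j hij => if_neg (not_lt_of_gt hij)
  refine ⟨P', ⟨fun i j hij => hσ (h.inj hij), ?_, ?_⟩, ?_⟩
  · intro i j hij
    rcases lt_or_gt_of_ne (fun hh => (ne_of_lt hij) (hσ hh) : σ i ≠ σ j) with h3 | h3
    · rw [h1 i j h3]; exact h.path _ _ h3
    · rw [h2 i j h3]
      exact ⟨(h.path _ _ h3).1.reverse, by rw [wt_reverse]; exact (h.path _ _ h3).2⟩
  · intro i j k l hij hkl hne x hx hx'
    have key : ∀ i j : Fin 4, i < j → x ∈ (P' i j).support →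
        (σ i < σ j ∧ x ∈ (P (σ i) (σ j)).support) ∨
        (σ j < σ i ∧ x ∈ (P (σ j) (σ i)).support) := by
      intro i j hij hx
      rcases lt_or_gt_of_ne (fun hh => (ne_of_lt hij) (hσ hh) : σ i ≠ σ j) with h3 | h3
      · rw [h1 i j h3] at hx; exact Or.inl ⟨h3, hx⟩
      · rw [h2 i j h3, Walk.support_reverse, List.mem_reverse] at hx
        exact Or.inr ⟨h3, hx⟩
    have hne' : ¬ (i = k ∧ j = l) := fun hh => hne (by rw [hh.1, hh.2])
    rcases key i j hij hx with ⟨a1, a2⟩ | ⟨a1, a2⟩ <;>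
      rcases key k l hkl hx' with ⟨b1, b2⟩ | ⟨b1, b2⟩
    · exact h.disj _ _ _ _ a1 b1 (fun hh => hne' ⟨hσ (congrArg Prod.fst hh),
        hσ (congrArg Prod.snd hh)⟩) x a2 b2
    · have := h.disj _ _ _ _ a1 b1 (fun hh => by
        have e1 := hσ (congrArg Prod.fst hh)
        have e2 := hσ (congrArg Prod.snd hh)
        subst e1 e2
        exact absurd hij (not_lt_of_gt hkl)) x a2 b2
      exact ⟨this.1, this.2.symm⟩
    · have := h.disj _ _ _ _ a1 b1 (fun hh => by
        have e1 := hσ (congrArg Prod.fst hh)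
        have e2 := hσ (congrArg Prod.snd hh)
        subst e1 e2
        exact absurd hij (not_lt_of_gt hkl)) x a2 b2
      exact ⟨this.1.symm, this.2⟩
    · have := h.disj _ _ _ _ a1 b1 (fun hh => hne' ⟨hσ (congrArg Prod.snd hh),
        hσ (congrArg Prod.fst hh)⟩) x a2 b2
      exact ⟨this.1.symm, this.2.symm⟩
  · intro i j hij
    constructor
    · intro h3
      rw [h1 i j h3]
      exact ⟨fun _ => Iff.rfl, fun _ => Iff.rfl⟩
    · intro h3
      rw [h2 i j h3]
      refine ⟨fun e => ?_, fun z => ?_⟩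
      · rw [Walk.edges_reverse, List.mem_reverse]
      · rw [Walk.support_reverse, List.mem_reverse]

end perm

/-- The two halves of a path which uses the edge `a b`. -/
def Half {F : SimpleGraph W} {x y : W} (p : F.Walk x y) (a b : W) : Prop :=
  ∃ (Q1 : F.Walk x a) (Q2 : F.Walk y b), Q1.IsPath ∧ Q2.IsPath ∧
    (∀ z ∈ Q1.support, z ∈ p.support) ∧ (∀ z ∈ Q2.support, z ∈ p.support) ∧
    (∀ z ∈ Q1.support, z ∉ Q2.support) ∧
    (∀ e ∈ Q1.edges, e ∈ p.edges ∧ e ≠ s(a, b)) ∧ (∀ e ∈ Q2.edges, e ∈ p.edges ∧ e ≠ s(a, b))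

lemma half_of_mem {F : SimpleGraph W} {x y : W} (p : F.Walk x y) (hp : p.IsPath) {a b : W}
    (he : s(a, b) ∈ p.edges) : Half p a b ∨ Half p b a := by
  induction p with
  | nil => simp at he
  | @cons x z y hadj p ih =>
    rw [Walk.cons_isPath_iff] at hp
    rw [Walk.edges_cons, List.mem_cons] at he
    by_cases h0 : s(a, b) = s(x, z)
    · have main : ∀ {a b : W}, a = x → b = z → Half (Walk.cons hadj p) a b := by
        intro a b h1 h2
        subst h1 h2
        refine ⟨Walk.nil, p.reverse, Walk.IsPath.nil, hp.1.reverse, ?_, ?_, ?_, ?_, ?_⟩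
        · intro z hz
          simp only [Walk.support_nil, List.mem_singleton] at hz
          rw [hz]; simp
        · intro z hz
          rw [Walk.support_reverse, List.mem_reverse] at hz
          simp [hz]
        · intro z hz
          simp only [Walk.support_nil, List.mem_singleton] at hz
          rw [hz, Walk.support_reverse, List.mem_reverse]
          exact hp.2
        · intro e he; simp at he
        · intro e he
          rw [Walk.edges_reverse, List.mem_reverse] at he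
          refine ⟨by simp [he], ?_⟩
          rintro rfl
          exact hp.2 (Walk.fst_mem_support_of_mem_edges _ he)
      rw [Sym2.eq_iff] at h0
      rcases h0 with ⟨h1, h2⟩ | ⟨h1, h2⟩
      · exact Or.inl (main h1 h2)
      · exact Or.inr (main h2 h1)
    · have he' : s(a, b) ∈ p.edges := by
        rcases he with h1 | h1
        · exact absurd h1 h0
        · exact h1
      have hax : x ≠ a ∧ x ≠ b := ⟨fun hh => hp.2 (hh ▸ Walk.fst_mem_support_of_mem_edges _ he'),
        fun hh => hp.2 (hh ▸ Walk.snd_mem_support_of_mem_edges _ he')⟩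
      have main : ∀ {a b : W}, s(a, b) ≠ s(x, z) → Half p a b → Half (Walk.cons hadj p) a b := by
        rintro a b h0 ⟨Q1, Q2, h1, h2, h3, h4, h5, h6, h7⟩
        have hx1 : x ∉ Q1.support := fun hh => hp.2 (h3 _ hh)
        have hx2 : x ∉ Q2.support := fun hh => hp.2 (h4 _ hh)
        refine ⟨Walk.cons hadj Q1, Q2, ?_, h2, ?_, ?_, ?_, ?_, ?_⟩
        · rw [Walk.cons_isPath_iff]; exact ⟨h1, hx1⟩
        · intro w hw
          rw [Walk.support_cons, List.mem_cons] at hw ⊢
          exact hw.imp_right (h3 w)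
        · intro w hw
          rw [Walk.support_cons, List.mem_cons]
          exact Or.inr (h4 w hw)
        · intro w hw
          rw [Walk.support_cons, List.mem_cons] at hw
          rcases hw with rfl | hw
          · exact hx2
          · exact h5 w hw
        · intro e he
          rw [Walk.edges_cons, List.mem_cons] at he ⊢
          rcases he with rfl | he
          · exact ⟨Or.inl rfl, h0.symm⟩
          · exact ⟨Or.inr (h6 e he).1, (h6 e he).2⟩
        · intro e he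
          rw [Walk.edges_cons, List.mem_cons]
          exact ⟨Or.inr (h7 e he).1, (h7 e he).2⟩
      rcases ih hp.1 he' with h1 | h1
      · exact Or.inl (main h0 h1)
      · exact Or.inr (main (fun hh => h0 (Sym2.eq_swap.trans hh)) h1)

lemma Half.congr {F : SimpleGraph W} {x y x' y' : W} {p : F.Walk x y} {p' : F.Walk x' y'} {a b : W}
    (h : Half p a b) (hx : x = x') (hy : y = y') (hs : ∀ z, z ∈ p'.support ↔ z ∈ p.support)
    (he : ∀ e, e ∈ p'.edges ↔ e ∈ p.edges) : Half p' a b := by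
  subst hx hy
  obtain ⟨Q1, Q2, h1, h2, h3, h4, h5, h6, h7⟩ := h
  exact ⟨Q1, Q2, h1, h2, fun z hz => (hs z).2 (h3 z hz), fun z hz => (hs z).2 (h4 z hz), h5,
    fun e hh => ⟨(he e).2 (h6 e hh).1, (h6 e hh).2⟩,
    fun e hh => ⟨(he e).2 (h7 e hh).1, (h7 e hh).2⟩⟩

lemma Half.swap {F : SimpleGraph W} {x y : W} {p : F.Walk x y} {p' : F.Walk y x} {a b : W}
    (h : Half p b a) (hs : ∀ z, z ∈ p'.support ↔ z ∈ p.support)
    (he : ∀ e, e ∈ p'.edges ↔ e ∈ p.edges) : Half p' a b := by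
  obtain ⟨Q1, Q2, h1, h2, h3, h4, h5, h6, h7⟩ := h
  exact ⟨Q2, Q1, h2, h1, fun z hz => (hs z).2 (h4 z hz), fun z hz => (hs z).2 (h3 z hz),
    fun z hz hz' => h5 z hz' hz,
    fun e hh => ⟨(he e).2 (h7 e hh).1, fun h8 => (h7 e hh).2 (h8.trans Sym2.eq_swap)⟩,
    fun e hh => ⟨(he e).2 (h6 e hh).1, fun h8 => (h6 e hh).2 (h8.trans Sym2.eq_swap)⟩⟩

/-- A walk as a list. -/
lemma exists_list_of_walk {G : SimpleGraph W} {a b : W} (p : G.Walk a b) (hp : p.IsPath) :
    ∃ L : List W, p.support = a :: L ∧ List.IsChain G.Adj (a :: L) ∧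
      (a :: L).getLast? = some b ∧ (a :: L).Nodup := by
  refine ⟨p.support.tail, ?_, ?_, ?_, ?_⟩
  · exact (Walk.cons_tail_support p).symm
  · rw [Walk.cons_tail_support p]; exact Walk.isChain_adj_support p
  · rw [Walk.cons_tail_support p, List.getLast?_eq_some_getLast (Walk.support_ne_nil p),
      Walk.getLast_support]
  · rw [Walk.cons_tail_support p]; exact hp.support_nodup

/-- A walk between different vertices as a list. -/
lemma exists_list_of_walk' {G : SimpleGraph W} {a b : W} (p : G.Walk a b) (hp : p.IsPath)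
    (hab : a ≠ b) : ∃ L : List W, p.support = a :: (L ++ [b]) ∧
      List.IsChain G.Adj (a :: (L ++ [b])) ∧ (a :: (L ++ [b])).Nodup := by
  obtain ⟨L, h1, h2, h3, h4⟩ := exists_list_of_walk p hp
  have hL : L ≠ [] := by
    rintro rfl
    simp at h3
    exact hab h3
  have hlast : L.getLast hL = b := by
    rw [List.getLast?_cons_of_ne_nil hL, List.getLast?_eq_some_getLast hL] at h3
    exact Option.some.inj h3
  have hL' : L = L.dropLast ++ [b] := by
    rw [← hlast]; exact (List.dropLast_append_getLast hL).symm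
  refine ⟨L.dropLast, ?_, ?_, ?_⟩
  · rw [← hL']; exact h1
  · rw [← hL']; exact h2
  · rw [← hL']; exact h4

lemma chain_parity {κ : V → ZMod 2} :
    ∀ (L : List V) (x y : V), List.IsChain (fun u w => κ u ≠ κ w) (x :: L) →
      (x :: L).getLast? = some y → (L.length : ZMod 2) = κ x + κ y := by
  intro L
  induction L with
  | nil =>
    intro x y _ h
    simp only [List.getLast?_singleton, Option.some.injEq] at h
    subst h
    simp only [List.length_nil, Nat.cast_zero]
    exact (CharTwo.add_self_eq_zero _).symm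
  | cons z L ih =>
    intro x y h1 h2
    rw [List.isChain_cons_cons] at h1
    rw [List.getLast?_cons_cons] at h2
    have h3 := ih z y h1.2 h2
    rw [List.length_cons, Nat.cast_add, h3, Nat.cast_one]
    have h4 := h1.1
    revert h4
    generalize κ x = a
    generalize κ z = b
    generalize κ y = d
    revert a b d
    decide

/-- Transfer of a walk as a list. -/
lemma exists_list_transfer {F Z : SimpleGraph W} {a b : W} (p : F.Walk a b) (hp : p.IsPath)
    (hZ : ∀ e ∈ p.edges, e ∈ Z.edgeSet) :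
    ∃ L : List W, (∀ z, z ∈ a :: L ↔ z ∈ p.support) ∧ List.IsChain Z.Adj (a :: L) ∧
      (a :: L).getLast? = some b ∧ (a :: L).Nodup := by
  obtain ⟨L, h1, h2, h3, h4⟩ := exists_list_of_walk (p.transfer Z hZ) (hp.transfer hZ)
  refine ⟨L, ?_, h2, h3, h4⟩
  intro z
  rw [← h1, Walk.support_transfer]

lemma exists_list_transfer' {F Z : SimpleGraph W} {a b : W} (p : F.Walk a b) (hp : p.IsPath)
    (hZ : ∀ e ∈ p.edges, e ∈ Z.edgeSet) (hab : a ≠ b) :
    ∃ L : List W, (∀ z, z ∈ a :: (L ++ [b]) ↔ z ∈ p.support) ∧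
      List.IsChain Z.Adj (a :: (L ++ [b])) ∧ (a :: (L ++ [b])).Nodup := by
  obtain ⟨L, h1, h2, h3⟩ := exists_list_of_walk' (p.transfer Z hZ) (hp.transfer hZ) hab
  refine ⟨L, ?_, h2, h3⟩
  intro z
  rw [← h1, Walk.support_transfer]

/-- The normal form, with both virtual edges used in the right direction. -/
theorem frame_nf_aux {Z F : SimpleGraph V} {C : Sym2 V → ZMod 2} {κ : V → ZMod 2} {a b u v : V}
    {w : Fin 4 → V} {P : ∀ i j : Fin 4, F.Walk (w i) (w j)} (h : IsTOK F C w P)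
    (hF : ∀ e ∈ F.edgeSet, e ≠ s(a, b) → e ≠ s(u, v) → e ∈ Z.edgeSet)
    (hC : ∀ x y, Z.Adj x y → C s(x, y) = κ x + κ y)
    (e01 : s(a, b) ∈ (P 0 1).edges) (e23 : s(u, v) ∈ (P 2 3).edges)
    (h01 : Half (P 0 1) a b) (h23 : Half (P 2 3) u v) :
    ∃ v0 v1 v2 v3 : V, ∃ X Y S T A02 A03 A12 A13 : List V,
      NF Z κ a b u v v0 v1 v2 v3 X Y S T A02 A03 A12 A13 := by
  classical
  obtain ⟨Q0, Q1, hQ0, hQ1, s0, s1, d01, f0, f1⟩ := h01
  obtain ⟨Q2, Q3, hQ2, hQ3, s2, s3, d23, f2, f3⟩ := h23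
  -- edges of the four arcs are in Z
  have hin : ∀ i j : Fin 4, i < j → (i, j) ≠ (0, 1) → (i, j) ≠ (2, 3) → ∀ e ∈ (P i j).edges,
      e ∈ Z.edgeSet := by
    intro i j hij h1 h2 e he
    refine hF e (Walk.edges_subset_edgeSet _ he) ?_ ?_
    · rintro rfl; exact h1 (h.uniq hij (by decide) he e01)
    · rintro rfl; exact h2 (h.uniq hij (by decide) he e23)
  have hwt : ∀ i j : Fin 4, i < j → (i, j) ≠ (0, 1) → (i, j) ≠ (2, 3) → κ (w i) ≠ κ (w j) := by
    intro i j hij h1 h2 heq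
    have h3 := (h.path i j hij).2
    rw [wt_of_consistent (κ := κ) (Vt := fun e => e ∉ Z.edgeSet)
      (fun x y _ hxy => hC x y (by
        rw [not_not, SimpleGraph.mem_edgeSet] at hxy; exact hxy)) (P i j)
      (fun e he => not_not.2 (hin i j hij h1 h2 e he)), heq, CharTwo.add_self_eq_zero] at h3
    exact zero_ne_one h3
  have hZ0 : ∀ e ∈ Q0.edges, e ∈ Z.edgeSet := fun e he => hF e
    (Walk.edges_subset_edgeSet _ (f0 e he).1) (f0 e he).2 (by
      rintro rfl
      exact absurd (h.uniq (by decide) (by decide) (f0 _ he).1 e23) (by decide))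
  have hZ1 : ∀ e ∈ Q1.edges, e ∈ Z.edgeSet := fun e he => hF e
    (Walk.edges_subset_edgeSet _ (f1 e he).1) (f1 e he).2 (by
      rintro rfl
      exact absurd (h.uniq (by decide) (by decide) (f1 _ he).1 e23) (by decide))
  have hZ2 : ∀ e ∈ Q2.edges, e ∈ Z.edgeSet := fun e he => hF e
    (Walk.edges_subset_edgeSet _ (f2 e he).1) (by
      rintro rfl
      exact absurd (h.uniq (by decide) (by decide) (f2 _ he).1 e01) (by decide)) (f2 e he).2
  have hZ3 : ∀ e ∈ Q3.edges, e ∈ Z.edgeSet := fun e he => hF e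
    (Walk.edges_subset_edgeSet _ (f3 e he).1) (by
      rintro rfl
      exact absurd (h.uniq (by decide) (by decide) (f3 _ he).1 e01) (by decide)) (f3 e he).2
  obtain ⟨X, mX, cX, lX, nX⟩ := exists_list_transfer Q0 hQ0 hZ0
  obtain ⟨Y, mY, cY, lY, nY⟩ := exists_list_transfer Q1 hQ1 hZ1
  obtain ⟨S, mS, cS, lS, nS⟩ := exists_list_transfer Q2 hQ2 hZ2
  obtain ⟨T, mT, cT, lT, nT⟩ := exists_list_transfer Q3 hQ3 hZ3
  have hw : ∀ i j : Fin 4, i ≠ j → w i ≠ w j := fun i j hij hh => hij (h.inj hh)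
  obtain ⟨A02, m02, c02, n02⟩ := exists_list_transfer' (P 0 2) (h.path 0 2 (by decide)).1
    (hin 0 2 (by decide) (by decide) (by decide)) (hw 0 2 (by decide))
  obtain ⟨A03, m03, c03, n03⟩ := exists_list_transfer' (P 0 3) (h.path 0 3 (by decide)).1
    (hin 0 3 (by decide) (by decide) (by decide)) (hw 0 3 (by decide))
  obtain ⟨A12, m12, c12, n12⟩ := exists_list_transfer' (P 1 2) (h.path 1 2 (by decide)).1
    (hin 1 2 (by decide) (by decide) (by decide)) (hw 1 2 (by decide))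
  obtain ⟨A13, m13, c13, n13⟩ := exists_list_transfer' (P 1 3) (h.path 1 3 (by decide)).1
    (hin 1 3 (by decide) (by decide) (by decide)) (hw 1 3 (by decide))
  refine ⟨w 0, w 1, w 2, w 3, X, Y, S, T, A02, A03, A12, A13,
    ⟨cX, cY, cS, cT, lX, lY, lS, lT, c02, c03, c12, c13, ?_,
      hwt 0 2 (by decide) (by decide) (by decide), hwt 0 3 (by decide) (by decide) (by decide),
      hwt 1 2 (by decide) (by decide) (by decide)⟩⟩
  -- interior vertices
  let Int : Fin 4 → Fin 4 → V → Prop := fun i j z => z ∈ (P i j).support ∧ z ≠ w i ∧ z ≠ w j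
  have hI1 : ∀ i j : Fin 4, i < j → ∀ z, Int i j z → ∀ k, z ≠ w k := by
    intro i j hij z hz k hk
    subst hk
    rcases h.branch hij hz.1 with h1 | h1
    · exact hz.2.1 (h1 ▸ rfl)
    · exact hz.2.2 (h1 ▸ rfl)
  have hI2 : ∀ i j k l : Fin 4, i < j → k < l → (i, j) ≠ (k, l) → ∀ z, Int i j z → Int k l z →
      False := by
    intro i j k l hij hkl hne z hz hz'
    rcases (h.disj i j k l hij hkl hne z hz.1 hz'.1).1 with h1 | h1
    · exact hz.2.1 h1
    · exact hz.2.2 h1
  have iX : ∀ z ∈ X, Int 0 1 z := by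
    intro z hz
    have h1 := (mX z).1 (List.mem_cons_of_mem _ hz)
    refine ⟨s0 z h1, ?_, ?_⟩
    · rintro rfl; exact (List.nodup_cons.1 nX).1 hz
    · rintro rfl; exact d01 _ h1 Q1.start_mem_support
  have iY : ∀ z ∈ Y, Int 0 1 z := by
    intro z hz
    have h1 := (mY z).1 (List.mem_cons_of_mem _ hz)
    refine ⟨s1 z h1, ?_, ?_⟩
    · rintro rfl; exact d01 _ Q0.start_mem_support h1
    · rintro rfl; exact (List.nodup_cons.1 nY).1 hz
  have iS : ∀ z ∈ S, Int 2 3 z := by
    intro z hz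
    have h1 := (mS z).1 (List.mem_cons_of_mem _ hz)
    refine ⟨s2 z h1, ?_, ?_⟩
    · rintro rfl; exact (List.nodup_cons.1 nS).1 hz
    · rintro rfl; exact d23 _ h1 Q3.start_mem_support
  have iT : ∀ z ∈ T, Int 2 3 z := by
    intro z hz
    have h1 := (mT z).1 (List.mem_cons_of_mem _ hz)
    refine ⟨s3 z h1, ?_, ?_⟩
    · rintro rfl; exact d23 _ Q2.start_mem_support h1
    · rintro rfl; exact (List.nodup_cons.1 nT).1 hz
  have dXY : ∀ z ∈ X, z ∉ Y := fun z hz hz' =>
    d01 z ((mX z).1 (List.mem_cons_of_mem _ hz)) ((mY z).1 (List.mem_cons_of_mem _ hz'))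
  have dST : ∀ z ∈ S, z ∉ T := fun z hz hz' =>
    d23 z ((mS z).1 (List.mem_cons_of_mem _ hz)) ((mT z).1 (List.mem_cons_of_mem _ hz'))
  have arc : ∀ (i j : Fin 4) (L : List V), (∀ z, z ∈ w i :: (L ++ [w j]) ↔ z ∈ (P i j).support) →
      (w i :: (L ++ [w j])).Nodup → L.Nodup ∧ ∀ z ∈ L, Int i j z := by
    intro i j L hm hn
    rw [List.nodup_cons, List.nodup_append] at hn
    refine ⟨hn.2.1, ?_⟩
    intro z hz
    refine ⟨(hm z).1 (by simp [hz]), ?_, ?_⟩
    · rintro rfl; exact hn.1 (by simp [hz])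
    · exact hn.2.2.2 z hz (w j) (by simp)
  obtain ⟨n02', i02⟩ := arc 0 2 A02 m02 n02
  obtain ⟨n03', i03⟩ := arc 0 3 A03 m03 n03
  obtain ⟨n12', i12⟩ := arc 1 2 A12 m12 n12
  obtain ⟨n13', i13⟩ := arc 1 3 A13 m13 n13
  have nV : [w 0, w 1, w 2, w 3].Nodup := by
    simp only [List.nodup_cons, List.mem_cons, List.not_mem_nil, or_false, not_or,
      List.nodup_nil, and_true, not_false_eq_true]
    exact ⟨⟨hw 0 1 (by decide), hw 0 2 (by decide), hw 0 3 (by decide)⟩,
      ⟨hw 1 2 (by decide), hw 1 3 (by decide)⟩, hw 2 3 (by decide)⟩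
  have vI : ∀ i j : Fin 4, i < j → ∀ L : List V, (∀ z ∈ L, Int i j z) →
      ∀ z ∈ [w 0, w 1, w 2, w 3], ∀ z' ∈ L, z ≠ z' := by
    intro i j hij L hL z hz z' hz' hzz
    subst hzz
    simp only [List.mem_cons, List.not_mem_nil, or_false] at hz
    rcases hz with hz | hz | hz | hz
    · exact hI1 i j hij z (hL z hz') 0 hz
    · exact hI1 i j hij z (hL z hz') 1 hz
    · exact hI1 i j hij z (hL z hz') 2 hz
    · exact hI1 i j hij z (hL z hz') 3 hz
  have II : ∀ i j k l : Fin 4, i < j → k < l → (i, j) ≠ (k, l) → ∀ L L' : List V,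
      (∀ z ∈ L, Int i j z) → (∀ z ∈ L', Int k l z) → ∀ z ∈ L, ∀ z' ∈ L', z ≠ z' := by
    intro i j k l hij hkl hne L L' hL hL' z hz z' hz' hzz
    subst hzz
    exact hI2 i j k l hij hkl hne z (hL z hz) (hL' z hz')
  have app : ∀ {L1 L2 L3 : List V}, (∀ z ∈ L1, ∀ z' ∈ L3, z ≠ z') → (∀ z ∈ L2, ∀ z' ∈ L3, z ≠ z') →
      ∀ z ∈ L1 ++ L2, ∀ z' ∈ L3, z ≠ z' := by
    intro L1 L2 L3 h1 h2 z hz
    rw [List.mem_append] at hz
    rcases hz with hz | hz
    · exact h1 z hz
    · exact h2 z hz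
  have eXY : ∀ z ∈ X, ∀ z' ∈ Y, z ≠ z' := fun z hz z' hz' hzz => dXY z hz (hzz ▸ hz')
  have eST : ∀ z ∈ S, ∀ z' ∈ T, z ≠ z' := fun z hz z' hz' hzz => dST z hz (hzz ▸ hz')
  refine List.nodup_append.2 ⟨List.nodup_append.2 ⟨List.nodup_append.2 ⟨List.nodup_append.2
    ⟨List.nodup_append.2 ⟨List.nodup_append.2 ⟨List.nodup_append.2 ⟨List.nodup_append.2
    ⟨nV, (List.nodup_cons.1 nX).2, ?_⟩, (List.nodup_cons.1 nY).2, ?_⟩,
      (List.nodup_cons.1 nS).2, ?_⟩, (List.nodup_cons.1 nT).2, ?_⟩, n02', ?_⟩, n03', ?_⟩, n12', ?_⟩,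
      n13', ?_⟩
  · exact vI 0 1 (by decide) X iX
  · exact app (vI 0 1 (by decide) Y iY) eXY
  · exact app (app (vI 2 3 (by decide) S iS) (II 0 1 2 3 (by decide) (by decide) (by decide) _ _ iX iS))
      (II 0 1 2 3 (by decide) (by decide) (by decide) _ _ iY iS)
  · exact app (app (app (vI 2 3 (by decide) T iT)
      (II 0 1 2 3 (by decide) (by decide) (by decide) _ _ iX iT))
      (II 0 1 2 3 (by decide) (by decide) (by decide) _ _ iY iT)) eST
  · exact app (app (app (app (vI 0 2 (by decide) A02 i02)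
      (II 0 1 0 2 (by decide) (by decide) (by decide) _ _ iX i02))
      (II 0 1 0 2 (by decide) (by decide) (by decide) _ _ iY i02))
      (II 2 3 0 2 (by decide) (by decide) (by decide) _ _ iS i02))
      (II 2 3 0 2 (by decide) (by decide) (by decide) _ _ iT i02)
  · exact app (app (app (app (app (vI 0 3 (by decide) A03 i03)
      (II 0 1 0 3 (by decide) (by decide) (by decide) _ _ iX i03))
      (II 0 1 0 3 (by decide) (by decide) (by decide) _ _ iY i03))
      (II 2 3 0 3 (by decide) (by decide) (by decide) _ _ iS i03))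
      (II 2 3 0 3 (by decide) (by decide) (by decide) _ _ iT i03))
      (II 0 2 0 3 (by decide) (by decide) (by decide) _ _ i02 i03)
  · exact app (app (app (app (app (app (vI 1 2 (by decide) A12 i12)
      (II 0 1 1 2 (by decide) (by decide) (by decide) _ _ iX i12))
      (II 0 1 1 2 (by decide) (by decide) (by decide) _ _ iY i12))
      (II 2 3 1 2 (by decide) (by decide) (by decide) _ _ iS i12))
      (II 2 3 1 2 (by decide) (by decide) (by decide) _ _ iT i12))
      (II 0 2 1 2 (by decide) (by decide) (by decide) _ _ i02 i12))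
      (II 0 3 1 2 (by decide) (by decide) (by decide) _ _ i03 i12)
  · exact app (app (app (app (app (app (app (vI 1 3 (by decide) A13 i13)
      (II 0 1 1 3 (by decide) (by decide) (by decide) _ _ iX i13))
      (II 0 1 1 3 (by decide) (by decide) (by decide) _ _ iY i13))
      (II 2 3 1 3 (by decide) (by decide) (by decide) _ _ iS i13))
      (II 2 3 1 3 (by decide) (by decide) (by decide) _ _ iT i13))
      (II 0 2 1 3 (by decide) (by decide) (by decide) _ _ i02 i13))
      (II 0 3 1 3 (by decide) (by decide) (by decide) _ _ i03 i13))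
      (II 1 2 1 3 (by decide) (by decide) (by decide) _ _ i12 i13)

/-- Bring two opposite paths into the positions `0 1` and `2 3`. -/
lemma exists_pos {F : SimpleGraph W} {C : Sym2 W → ZMod 2} {w : Fin 4 → W}
    {P : ∀ i j : Fin 4, F.Walk (w i) (w j)} (h : IsTOK F C w P) {i j k l : Fin 4} (hij : i < j)
    (hkl : k < l) (hik : i ≠ k) (hil : i ≠ l) (hjk : j ≠ k) (hjl : j ≠ l) {e f : Sym2 W}
    (he : e ∈ (P i j).edges) (hf : f ∈ (P k l).edges) :
    ∃ (w' : Fin 4 → W) (P' : ∀ i j : Fin 4, F.Walk (w' i) (w' j)), IsTOK F C w' P' ∧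
      e ∈ (P' 0 1).edges ∧ f ∈ (P' 2 3).edges := by
  have hσ : Function.Injective (![i, j, k, l] : Fin 4 → Fin 4) := by
    intro x y hxy
    have h1 := ne_of_lt hij
    have h2 := ne_of_lt hkl
    fin_cases x <;> fin_cases y <;> simp at hxy ⊢ <;>
      first
        | exact absurd hxy h1
        | exact absurd hxy.symm h1
        | exact absurd hxy h2
        | exact absurd hxy.symm h2
        | exact absurd hxy hik
        | exact absurd hxy.symm hik
        | exact absurd hxy hil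
        | exact absurd hxy.symm hil
        | exact absurd hxy hjk
        | exact absurd hxy.symm hjk
        | exact absurd hxy hjl
        | exact absurd hxy.symm hjl
  obtain ⟨P', h1, h2⟩ := isTOK_perm h _ hσ
  refine ⟨_, P', h1, ?_, ?_⟩
  · exact (((h2 0 1 (by decide)).1 hij).1 e).2 he
  · exact (((h2 2 3 (by decide)).1 hkl).1 f).2 hf

/-- Orientation of the first pair. -/
lemma exists_orient {F : SimpleGraph W} {C : Sym2 W → ZMod 2} {w : Fin 4 → W}
    {P : ∀ i j : Fin 4, F.Walk (w i) (w j)} (h : IsTOK F C w P) {a b u v : W}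
    (h1 : s(a, b) ∈ (P 0 1).edges) (h2 : s(u, v) ∈ (P 2 3).edges) :
    ∃ (w' : Fin 4 → W) (P' : ∀ i j : Fin 4, F.Walk (w' i) (w' j)), IsTOK F C w' P' ∧
      s(a, b) ∈ (P' 0 1).edges ∧ s(u, v) ∈ (P' 2 3).edges ∧ Half (P' 0 1) a b ∧
      Half (P' 2 3) u v := by
  have key : ∃ (w' : Fin 4 → W) (P' : ∀ i j : Fin 4, F.Walk (w' i) (w' j)), IsTOK F C w' P' ∧
      s(a, b) ∈ (P' 0 1).edges ∧ s(u, v) ∈ (P' 2 3).edges ∧ Half (P' 0 1) a b := by
    rcases half_of_mem (P 0 1) (h.path 0 1 (by decide)).1 h1 with h3 | h3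
    · exact ⟨w, P, h, h1, h2, h3⟩
    · obtain ⟨P', g1, g2⟩ := isTOK_perm h (![1, 0, 2, 3]) (by decide)
      have a1 := (g2 0 1 (by decide)).2 (by decide)
      have a2 := (g2 2 3 (by decide)).1 (by decide)
      exact ⟨_, P', g1, (a1.1 _).2 h1, (a2.1 _).2 h2, Half.swap h3 a1.2 a1.1⟩
  obtain ⟨w, P, h, h1, h2, h3⟩ := key
  rcases half_of_mem (P 2 3) (h.path 2 3 (by decide)).1 h2 with h4 | h4
  · exact ⟨w, P, h, h1, h2, h3, h4⟩
  · obtain ⟨P', g1, g2⟩ := isTOK_perm h (![0, 1, 3, 2]) (by decide)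
    have a1 := (g2 0 1 (by decide)).1 (by decide)
    have a2 := (g2 2 3 (by decide)).2 (by decide)
    exact ⟨_, P', g1, (a1.1 _).2 h1, (a2.1 _).2 h2, Half.congr h3 rfl rfl a1.2 a1.1,
      Half.swap h4 a2.2 a2.1⟩

/-- NORMAL FORM OF FRAMES. -/
theorem frame_nf {Z : SimpleGraph V} {κ : V → ZMod 2} {a b u v : V}
    (h : FrameE Z κ a b u v) :
    ∃ v0 v1 v2 v3 : V, ∃ X Y S T A02 A03 A12 A13 : List V,
      NF Z κ a b u v v0 v1 v2 v3 X Y S T A02 A03 A12 A13 := by
  obtain ⟨w, P, hT⟩ := hasTOK4s_iff_isTOK.1 h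
  obtain ⟨i, j, k, l, hij, hkl, hik, hil, hjk, hjl, he, hf⟩ := hT.two_virt (κ := κ)
    (Vt := fun e => e = s(a, b) ∨ e = s(u, v)) (f1 := s(a, b)) (f2 := s(u, v))
    (by
      intro x y hxy hv
      rw [frameG_adj] at hxy
      rw [not_or] at hv
      rcases hxy.2 with h1 | h1 | h1
      · exact cE_of_adj h1
      · exact absurd h1 hv.1
      · exact absurd h1 hv.2)
    (fun _ _ _ _ _ hv => hv)
  obtain ⟨w, P, hT, he, hf⟩ := exists_pos hT hij hkl hik hil hjk hjl he hf
  obtain ⟨w, P, hT, he, hf, h1, h2⟩ := exists_orient hT he hf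
  refine frame_nf_aux (C := cE Z κ) hT ?_ (fun x y hxy => cE_of_adj hxy) he hf h1 h2
  intro e he h3 h4
  induction e using Sym2.ind with
  | _ x y =>
    rw [SimpleGraph.mem_edgeSet, frameG_adj] at he
    rcases he.2 with h5 | h5 | h5
    · exact h5
    · exact absurd h5 h3
    · exact absurd h5 h4

end Pool.Agent.Helper97.OT
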