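import Pool.Agent.Helper97.O3.Frame
import Pool.Agent.Helper97.O3.Inc
import Pool.Agent.Helper97.O3.NF
import Pool.Agent.Helper97.O3.Gadgets

/-!
# O3: from the frame to the split structure (section 2 of the note)
-/

set_option autoImplicit false

namespace Pool.Agent.Helper97.OT

open SimpleGraph Pool.Agent.Helper57.TOK Pool.Agent.Helper57.TD Pool.Agent.Helper82.TK
  Pool.Agent.Helper51.GX

section lists

variable {α : Type*} {R : α → α → Prop}

/-- Join two chains by an edge. -/
lemma chain_join (hs : ∀ a b, R a b → R b a) {x z a b : α} {X Y : List α}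
    (h1 : List.IsChain R (x :: X)) (l1 : (x :: X).getLast? = some a)
    (h2 : List.IsChain R (z :: Y)) (l2 : (z :: Y).getLast? = some b) (hab : R a b) :
    List.IsChain R (x :: ((X ++ Y.reverse) ++ [z])) := by
  have he : x :: ((X ++ Y.reverse) ++ [z]) = (x :: X) ++ (z :: Y).reverse := by simp
  rw [he, List.isChain_append]
  refine ⟨h1, ?_, ?_⟩
  · rw [List.isChain_reverse]; exact h2.imp (fun a b h => hs _ _ h)
  · intro u hu v hv
    rw [l1] at hu
    rw [List.head?_reverse, l2] at hv
    simp only [Option.mem_def, Option.some.injEq] at hu hv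
    subst hu hv
    exact hab

/-- Join two chains by a third one. -/
lemma chain_join3 (hs : ∀ a b, R a b → R b a) {x z a b : α} {X Y L : List α}
    (h1 : List.IsChain R (x :: X)) (l1 : (x :: X).getLast? = some a)
    (h2 : List.IsChain R (z :: Y)) (l2 : (z :: Y).getLast? = some b)
    (h3 : List.IsChain R (a :: (L ++ [b]))) :
    List.IsChain R (x :: ((X ++ L ++ Y.reverse) ++ [z])) := by
  have he : x :: ((X ++ L ++ Y.reverse) ++ [z]) = (x :: X) ++ (L ++ (z :: Y).reverse) := by simp
  rw [List.isChain_cons] at h3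
  have h4 := List.isChain_append.1 h3.2
  rw [he, List.isChain_append]
  refine ⟨h1, ?_, ?_⟩
  · rw [List.isChain_append]
    refine ⟨h4.1, ?_, ?_⟩
    · rw [List.isChain_reverse]; exact h2.imp (fun a b h => hs _ _ h)
    · intro u hu v hv
      rw [List.head?_reverse, l2] at hv
      simp only [Option.mem_def, Option.some.injEq] at hv
      subst hv
      exact h4.2.2 u hu b (by simp)
  · intro u hu v hv
    rw [l1] at hu
    simp only [Option.mem_def, Option.some.injEq] at hu
    subst hu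
    rw [List.head?_append, List.head?_reverse, l2] at hv
    apply h3.1 v
    rw [List.head?_append]
    exact hv

lemma chain_nbr : ∀ (L : List α) (x : α), List.IsChain R (x :: L) → L ≠ [] →
    ∀ z ∈ x :: L, ∃ z', R z z' ∨ R z' z := by
  intro L
  induction L with
  | nil => intro x _ h; exact absurd rfl h
  | cons y L ih =>
    intro x h _ z hz
    rw [List.isChain_cons_cons] at h
    rw [List.mem_cons] at hz
    rcases hz with rfl | hz
    · exact ⟨y, Or.inl h.1⟩
    · by_cases hL : L = []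
      · subst hL
        rw [List.mem_singleton] at hz
        subst hz
        exact ⟨x, Or.inr h.1⟩
      · exact ih y h.2 hL z hz

end lists

variable {V : Type*} {G : SimpleGraph V} {U W : Set V} {κ : V → ZMod 2} {p q r b c y : V}

/-- A TOK4 from the normal form, once everything is in `G`. -/
lemma tok_of_nf {v0 v1 v2 v3 t : V} {X Y S T A02 A03 A12 A13 L : List V}
    (chX : List.IsChain G.Adj (v0 :: X)) (laX : (v0 :: X).getLast? = some t)
    (chY : List.IsChain G.Adj (v1 :: Y)) (laY : (v1 :: Y).getLast? = some y) (hty : G.Adj t y)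
    (chS : List.IsChain G.Adj (v2 :: S)) (laS : (v2 :: S).getLast? = some b)
    (chT : List.IsChain G.Adj (v3 :: T)) (laT : (v3 :: T).getLast? = some c)
    (hL : List.IsChain G.Adj (b :: (L ++ [c])))
    (ch02 : List.IsChain G.Adj (v0 :: (A02 ++ [v2])))
    (ch03 : List.IsChain G.Adj (v0 :: (A03 ++ [v3])))
    (ch12 : List.IsChain G.Adj (v1 :: (A12 ++ [v2])))
    (ch13 : List.IsChain G.Adj (v1 :: (A13 ++ [v3])))
    (nodup : ([v0, v1, v2, v3] ++ X ++ Y ++ S ++ T ++ A02 ++ A03 ++ A12 ++ A13 ++ L).Nodup)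
    (e1 : Even (X.length + Y.length)) (e2 : Even (S.length + L.length + T.length))
    (e02 : Even A02.length) (e03 : Even A03.length) (e12 : Even A12.length)
    (e13 : Even A13.length) : HasTOK4 G := by
  refine hasTOK4_of_nodup (a := v0) (b := v1) (c := v2) (d := v3) (L01 := X ++ Y.reverse)
    (L02 := A02) (L03 := A03) (L12 := A12) (L13 := A13) (L23 := S ++ L ++ T.reverse)
    (chain_join (fun _ _ h => h.symm) chX laX chY laY hty) ch02 ch03 ch12 ch13
    (chain_join3 (fun _ _ h => h.symm) chS laS chT laT hL) ?_ e02 e03 e12 e13 ?_ ?_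
  · simpa using e1
  · simpa [add_assoc] using e2
  · have hperm : ([v0, v1, v2, v3] ++ (X ++ Y.reverse) ++ A02 ++ A03 ++ A12 ++ A13 ++
        (S ++ L ++ T.reverse)).Perm
        ([v0, v1, v2, v3] ++ X ++ Y ++ S ++ T ++ A02 ++ A03 ++ A12 ++ A13 ++ L) := by
      rw [← Multiset.coe_eq_coe]
      simp only [← Multiset.coe_add, Multiset.coe_reverse]
      abel
    exact hperm.nodup_iff.2 nodup

lemma ZW_adj {x z : V} : (ZW G W p q).Adj x z ↔ x ≠ z ∧ x ≠ q ∧ z ≠ q ∧
    ((G.Adj x z ∧ (x ∈ W ∨ z ∈ W)) ∨ (x = p ∧ G.Adj q z ∧ (q ∈ W ∨ z ∈ W)) ∨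
      (z = p ∧ G.Adj q x ∧ (q ∈ W ∨ x ∈ W))) := Iff.rfl

lemma Z1 {x z : V} (hxz : (ZW G W p q).Adj x z) (hx : x ≠ p) (hz : z ≠ p) :
    G.Adj x z ∧ (x ∈ W ∨ z ∈ W) := by
  obtain ⟨-, -, -, h1 | h1 | h1⟩ := ZW_adj.1 hxz
  · exact h1
  · exact absurd h1.1 hx
  · exact absurd h1.1 hz

section facts

variable (h : O3 G U κ W p q r b c y)

include h

lemma O3.notW : p ∉ W ∧ q ∉ W ∧ b ∉ W ∧ c ∉ W ∧ y ∉ W := by
  have hm : ∀ x ∈ ({p, q, b, c, y} : Set V), x ∉ W := by
    intro x hx
    rw [← h.NW] at hx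
    exact hx.1
  exact ⟨hm p (by simp), hm q (by simp), hm b (by simp), hm c (by simp), hm y (by simp)⟩

lemma O3.yadj : G.Adj y p ∧ G.Adj y q ∧ G.Adj y r := by
  have hm : ∀ x ∈ ({p, q, r} : Set V), G.Adj y x := by
    intro x hx
    rw [← h.Ny] at hx
    exact hx
  exact ⟨hm p (by simp), hm q (by simp), hm r (by simp)⟩

lemma O3.Z2 {z : V} (hz : (ZW G W p q).Adj p z) : z ∈ W ∧ (G.Adj p z ∨ G.Adj q z) := by
  obtain ⟨h0, -, -, h1 | h1 | h1⟩ := ZW_adj.1 hz
  · exact ⟨h1.2.resolve_left h.notW.1, Or.inl h1.1⟩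
  · exact ⟨h1.2.2.resolve_left h.notW.2.1, Or.inr h1.2.1⟩
  · exact absurd h1.1.symm h0

lemma O3.Z3 {x z : V} (hxz : (ZW G W p q).Adj x z) : κ x ≠ κ z := by
  have h2 : ∀ z, (ZW G W p q).Adj p z → κ p ≠ κ z := by
    intro z hz
    obtain ⟨h1, h2 | h2⟩ := h.Z2 hz
    · exact (h.bal z p h1 h2.symm).symm
    · rw [h.κpq]; exact (h.bal z q h1 h2.symm).symm
  by_cases hx : x = p
  · subst hx; exact h2 z hxz
  · by_cases hz : z = p
    · subst hz; exact (h2 x hxz.symm).symm
    · obtain ⟨h3, h4 | h4⟩ := Z1 hxz hx hz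
      · exact h.bal x z h4 h3
      · exact (h.bal z x h4 h3.symm).symm

lemma O3.Z4 {z : V} (hz : (ZW G W p q).Adj y z) : z = r := by
  have hzp : z ≠ p := by
    rintro rfl
    exact h.notW.2.2.2.2 (h.Z2 hz.symm).1
  have hyp : y ≠ p := h.yadj.1.ne
  obtain ⟨h1, -⟩ := Z1 hz hyp hzp
  have h2 : z ∈ G.neighborSet y := h1
  rw [h.Ny] at h2
  rcases h2 with h2 | h2 | h2
  · exact absurd h2 hzp
  · exact absurd h2 (ZW_adj.1 hz).2.2.1
  · exact h2

lemma O3.Z5 {x z : V} (hxz : (ZW G W p q).Adj x z) : x ∈ W ∨ x = p ∨ x = b ∨ x = c ∨ x = y := by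
  by_cases hx : x ∈ W
  · exact Or.inl hx
  · right
    by_cases hxp : x = p
    · exact Or.inl hxp
    · right
      have hxq : x ≠ q := (ZW_adj.1 hxz).2.1
      by_cases hzp : z = p
      · subst hzp
        exact absurd (h.Z2 hxz.symm).1 hx
      · obtain ⟨h3, h4 | h4⟩ := Z1 hxz hxp hzp
        · exact absurd h4 hx
        · have h5 : x ∈ Nb G W := ⟨hx, z, h4, h3.symm⟩
          rw [h.NW] at h5
          rcases h5 with h5 | h5 | h5 | h5 | h5
          · exact absurd h5 hxp
          · exact absurd h5 hxq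
          · exact Or.inl h5
          · exact Or.inr (Or.inl h5)
          · exact Or.inr (Or.inr h5)

lemma O3.Rs_notin {x : V} (hx : x ∈ Rs G U W) :
    x ∉ W ∧ x ≠ p ∧ x ≠ q ∧ x ≠ b ∧ x ≠ c ∧ x ≠ y := by
  have h1 : x ∉ Nb G W := fun hh => hx.2 (Or.inr hh)
  rw [h.NW] at h1
  simp only [Set.mem_insert_iff, Set.mem_singleton_iff, not_or] at h1
  exact ⟨fun hh => hx.2 (Or.inl hh), h1.1, h1.2.1, h1.2.2.1, h1.2.2.2.1, h1.2.2.2.2⟩

/-- Chains with the colours. -/
lemma O3.chκ {L : List V} (hL : List.IsChain (ZW G W p q).Adj L) :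
    List.IsChain (fun u w => κ u ≠ κ w) L := hL.imp (fun _ _ hab => h.Z3 hab)

end facts

/-- Chains which avoid `p` are chains of `G`. -/
lemma chG {L : List V} (hL : List.IsChain (ZW G W p q).Adj L) (hp : p ∉ L) :
    List.IsChain G.Adj L :=
  List.IsChain.imp_of_mem_imp (fun a b ha hb hab =>
    (Z1 hab (fun (hh : a = p) => hp (hh ▸ ha)) (fun (hh : b = p) => hp (hh ▸ hb))).1) hL

/-- Chains which start in `p`, with `p` replaced by a neighbour `t` of the next vertex. -/
lemma chG' {L : List V} {t z : V} (hL : List.IsChain (ZW G W p q).Adj (p :: z :: L))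
    (hp : p ∉ z :: L) (ht : G.Adj t z) : List.IsChain G.Adj (t :: z :: L) := by
  rw [List.isChain_cons_cons] at hL ⊢
  exact ⟨ht, chG hL.2 hp⟩

lemma chain_rev {x z : V} {A : List V} (h : List.IsChain G.Adj (x :: (A ++ [z]))) :
    List.IsChain G.Adj (z :: (A.reverse ++ [x])) := by
  have he : z :: (A.reverse ++ [x]) = (x :: (A ++ [z])).reverse := by simp
  rw [he, List.isChain_reverse]
  exact h.imp (fun _ _ hab => hab.symm)

lemma zmod2_even {n : ℕ} (h : (n : ZMod 2) = 0) : Even n := (ZMod.natCast_eq_zero_iff_even).1 h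

lemma even_of_chain {x z : V} {A : List V}
    (h : List.IsChain (fun u w => κ u ≠ κ w) (x :: (A ++ [z]))) (hxz : κ x ≠ κ z) :
    Even A.length := by
  have h1 := chain_parity (A ++ [z]) x z h (by rw [← List.cons_append]; exact List.getLast?_concat)
  apply zmod2_even
  rw [List.length_append, List.length_singleton, Nat.cast_add, Nat.cast_one] at h1
  revert h1 hxz
  generalize (A.length : ZMod 2) = n
  generalize κ x = a
  generalize κ z = d
  revert n a d
  decide

lemma last_split {x a : V} {X : List V} (h : (x :: X).getLast? = some a) (hX : X ≠ []) :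
    X = X.dropLast ++ [a] := by
  rw [List.getLast?_cons_of_ne_nil hX, List.getLast?_eq_some_getLast hX] at h
  have h1 := Option.some.inj h
  rw [← h1]
  exact (List.dropLast_append_getLast hX).symm

lemma mem_last {x a : V} {X : List V} (h : (x :: X).getLast? = some a) : a ∈ x :: X :=
  List.mem_of_getLast? h

/-- Assembly of the split structure. -/
lemma split_of_lists {t t' v1 v2 v3 : V} {Ly S T A02 A03 A12 A13 : List V} {eb ec : ZMod 2}
    (m2 : List.IsChain G.Adj (t :: (A02 ++ [v2]))) (m3 : List.IsChain G.Adj (t' :: (A03 ++ [v3])))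
    (g12 : List.IsChain G.Adj (v1 :: (A12 ++ [v2]))) (g13 : List.IsChain G.Adj (v1 :: (A13 ++ [v3])))
    (gS : List.IsChain G.Adj (v2 :: S)) (laS : (v2 :: S).getLast? = some b)
    (gT : List.IsChain G.Adj (v3 :: T)) (laT : (v3 :: T).getLast? = some c)
    (gY : List.IsChain G.Adj (v1 :: (Ly ++ [y])))
    (nod : ([t, t', v1, v2, v3] ++ (Ly ++ [y]) ++ S ++ T ++ A02 ++ A03 ++ A12 ++ A13).Nodup)
    (l02 : Even A02.length) (l03 : Even A03.length) (l12 : Even A12.length)
    (l13 : Even A13.length) (lY : Odd Ly.length) (lS : (S.length : ZMod 2) = eb)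
    (lT : (T.length : ZMod 2) = ec)
    (mem : ∀ z ∈ [t, t', v1, v2, v3] ++ (Ly ++ [y]) ++ S ++ T ++ A02 ++ A03 ++ A12 ++ A13,
      z ∈ W ∨ z = t ∨ z = t' ∨ z = b ∨ z = c ∨ z = y) :
    HasSplit G W t t' b c y eb ec := by
  have hlist : ([t, v2, v1, v3, t'] ++ A02 ++ A12.reverse ++ A13 ++ A03.reverse ++ S ++ T ++
      Ly ++ [y]).Perm
      ([t, t', v1, v2, v3] ++ (Ly ++ [y]) ++ S ++ T ++ A02 ++ A03 ++ A12 ++ A13) := by
    rw [← Multiset.coe_eq_coe]
    simp only [← Multiset.coe_add, ← Multiset.cons_coe, ← Multiset.singleton_add,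
      Multiset.coe_nil, Multiset.coe_reverse]
    abel
  exact ⟨v2, v1, v3, A02, A12.reverse, A13, A03.reverse, S, T, Ly, m2, chain_rev g12, g13,
    chain_rev m3, gS, laS, gT, laT, gY, hlist.nodup_iff.2 nod, l02, by simpa using l12, l13,
    by simpa using l03, lY, lS, lT, fun z hz => mem z (hlist.mem_iff.1 hz)⟩

theorem O3.split [Finite V] (h : O3 G U κ W p q r b c y) :
    HasSplit G W p q b c y (κ p + 1 + κ b) (κ p + 1 + κ c) ∨
      HasSplit G W q p b c y (κ p + 1 + κ b) (κ p + 1 + κ c) := by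
  classical
  obtain ⟨v0, v1, v2, v3, X, Y, S, T, A02, A03, A12, A13, nf⟩ := frame_nf h.frame
  obtain ⟨L, hL, eL⟩ := h.inc
  obtain ⟨ap, aq, ar⟩ := h.yadj
  -- where the vertices are
  have hM : ∀ {x : V} {L : List V}, List.IsChain (ZW G W p q).Adj (x :: L) → L ≠ [] →
      ∀ z ∈ x :: L, z ∈ W ∨ z = p ∨ z = b ∨ z = c ∨ z = y := by
    intro x L hc hne z hz
    obtain ⟨z', h1 | h1⟩ := chain_nbr L x hc hne z hz
    · exact h.Z5 h1
    · exact h.Z5 h1.symm
  have hM' : ∀ {x : V} {L : List V}, List.IsChain (ZW G W p q).Adj (x :: L) →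
      ∀ z ∈ L, z ∈ W ∨ z = p ∨ z = b ∨ z = c ∨ z = y := by
    intro x L hc z hz
    exact hM hc (List.ne_nil_of_mem hz) z (List.mem_cons_of_mem _ hz)
  have mem : ∀ z ∈ [v0, v1, v2, v3] ++ X ++ Y ++ S ++ T ++ A02 ++ A03 ++ A12 ++ A13,
      z ∈ W ∨ z = p ∨ z = b ∨ z = c ∨ z = y := by
    intro z hz
    simp only [List.mem_append, List.mem_cons, List.not_mem_nil, or_false, or_assoc] at hz
    rcases hz with hz | hz | hz | hz | hz | hz | hz | hz | hz | hz | hz | hz
    · exact hM nf.ch02 (by simp) z (by simp [hz])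
    · exact hM nf.ch12 (by simp) z (by simp [hz])
    · exact hM' nf.ch02 z (by simp [hz])
    · exact hM' nf.ch03 z (by simp [hz])
    · exact hM' nf.chX z hz
    · exact hM' nf.chY z hz
    · exact hM' nf.chS z hz
    · exact hM' nf.chT z hz
    · exact hM' nf.ch02 z (by simp [hz])
    · exact hM' nf.ch03 z (by simp [hz])
    · exact hM' nf.ch12 z (by simp [hz])
    · exact hM' nf.ch13 z (by simp [hz])
  have hqn : ∀ z, (z ∈ W ∨ z = p ∨ z = b ∨ z = c ∨ z = y) → z ≠ q := by
    rintro z hz rfl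
    rcases hz with hz | hz | hz | hz | hz
    · exact h.notW.2.1 hz
    · exact h.pq hz.symm
    · exact h.qb hz
    · exact h.qc hz
    · exact aq.ne hz.symm
  have hqL : ∀ z ∈ L, z ≠ q := fun z hz => (h.Rs_notin (hL.mem z hz)).2.2.1
  have hdL : ∀ z ∈ [v0, v1, v2, v3] ++ X ++ Y ++ S ++ T ++ A02 ++ A03 ++ A12 ++ A13,
      ∀ z' ∈ L, z ≠ z' := by
    rintro z hz z' hz' rfl
    obtain ⟨g1, g2, -, g4, g5, g6⟩ := h.Rs_notin (hL.mem z hz')
    rcases mem z hz with hz | hz | hz | hz | hz
    · exact g1 hz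
    · exact g2 hz
    · exact g4 hz
    · exact g5 hz
    · exact g6 hz
  have nodL : ([v0, v1, v2, v3] ++ X ++ Y ++ S ++ T ++ A02 ++ A03 ++ A12 ++ A13 ++ L).Nodup :=
    List.nodup_append.2 ⟨nf.nodup, hL.nd, hdL⟩
  -- colours
  have c01 : κ v0 = κ v1 := eq_of_ne_of_ne nf.c02 nf.c12
  have c23 : κ v2 = κ v3 := eq_of_ne_of_ne nf.c02.symm nf.c03.symm
  have c13 : κ v1 ≠ κ v3 := by rw [← c01]; exact nf.c03
  have κy := h.κy
  -- parities
  have lX := chain_parity X v0 p (h.chκ nf.chX) nf.laX
  have lY := chain_parity Y v1 y (h.chκ nf.chY) nf.laY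
  have lS := chain_parity S v2 b (h.chκ nf.chS) nf.laS
  have lT := chain_parity T v3 c (h.chκ nf.chT) nf.laT
  have l02 := even_of_chain (h.chκ nf.ch02) nf.c02
  have l03 := even_of_chain (h.chκ nf.ch03) nf.c03
  have l12 := even_of_chain (h.chκ nf.ch12) nf.c12
  have l13 := even_of_chain (h.chκ nf.ch13) c13
  -- p occurs only in v0 :: X
  have hpX : p ∈ v0 :: X := mem_last nf.laX
  have nod1 : ((v0 :: X) ++ ((v1 :: Y) ++ (v2 :: S) ++ (v3 :: T) ++ A02 ++ A03 ++ A12 ++
      A13)).Nodup := by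
    have hp : ((v0 :: X) ++ ((v1 :: Y) ++ (v2 :: S) ++ (v3 :: T) ++ A02 ++ A03 ++ A12 ++
        A13)).Perm ([v0, v1, v2, v3] ++ X ++ Y ++ S ++ T ++ A02 ++ A03 ++ A12 ++ A13) := by
      rw [← Multiset.coe_eq_coe]
      simp only [← Multiset.coe_add, ← Multiset.cons_coe, ← Multiset.singleton_add,
        Multiset.coe_nil]
      abel
    exact hp.nodup_iff.2 nf.nodup
  have hprest : ∀ z ∈ (v1 :: Y) ++ (v2 :: S) ++ (v3 :: T) ++ A02 ++ A03 ++ A12 ++ A13,
      z ≠ p := fun z hz hzp => (List.nodup_append.1 nod1).2.2 p hpX z hz hzp.symm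
  have hpr : ∀ {M : List V}, (∀ z ∈ M, z ∈ (v1 :: Y) ++ (v2 :: S) ++ (v3 :: T) ++ A02 ++ A03 ++
      A12 ++ A13) → p ∉ M := fun hM hp => hprest p (hM p hp) rfl
  have gY : List.IsChain G.Adj (v1 :: Y) := chG nf.chY (hpr (by
    intro z hz; simp only [List.mem_append, List.mem_cons] at hz ⊢; clear * - hz; tauto))
  have gS : List.IsChain G.Adj (v2 :: S) := chG nf.chS (hpr (by
    intro z hz; simp only [List.mem_append, List.mem_cons] at hz ⊢; clear * - hz; tauto))
  have gT : List.IsChain G.Adj (v3 :: T) := chG nf.chT (hpr (by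
    intro z hz; simp only [List.mem_append, List.mem_cons] at hz ⊢; clear * - hz; tauto))
  have g12 : List.IsChain G.Adj (v1 :: (A12 ++ [v2])) := chG nf.ch12 (hpr (by
    intro z hz
    simp only [List.mem_append, List.mem_cons, List.not_mem_nil, or_false] at hz ⊢; clear * - hz; tauto))
  have g13 : List.IsChain G.Adj (v1 :: (A13 ++ [v3])) := chG nf.ch13 (hpr (by
    intro z hz
    simp only [List.mem_append, List.mem_cons, List.not_mem_nil, or_false] at hz ⊢; clear * - hz; tauto))
  have hp02 : p ∉ A02 ++ [v2] := hpr (by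
    intro z hz
    simp only [List.mem_append, List.mem_cons, List.not_mem_nil, or_false] at hz ⊢; clear * - hz; tauto)
  have hp03 : p ∉ A03 ++ [v3] := hpr (by
    intro z hz
    simp only [List.mem_append, List.mem_cons, List.not_mem_nil, or_false] at hz ⊢; clear * - hz; tauto)
  -- the frame can be realised
  have fin : ∀ (t v0' : V) (X' : List V), List.IsChain G.Adj (v0' :: X') →
      (v0' :: X').getLast? = some t → G.Adj t y → List.IsChain G.Adj (v0' :: (A02 ++ [v2])) →
      List.IsChain G.Adj (v0' :: (A03 ++ [v3])) →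
      ([v0', v1, v2, v3] ++ X' ++ Y ++ S ++ T ++ A02 ++ A03 ++ A12 ++ A13 ++ L).Nodup →
      X'.length = X.length → False := by
    intro t v0' X' k1 k2 k3 k4 k5 k6 k7
    refine h.base.noT (tok_of_nf k1 k2 gY nf.laY k3 gS nf.laS gT nf.laT hL.ch k4 k5 g12 g13 k6
      ?_ ?_ l02 l03 l12 l13)
    · apply zmod2_even
      rw [Nat.cast_add, k7, lX, lY, c01, κy]
      generalize κ v1 = a
      generalize κ p = d
      revert a d
      decide
    · apply zmod2_even
      rw [Nat.cast_add, Nat.cast_add, lS, lT, eL, c23]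
      generalize κ v3 = a
      generalize κ b = d
      generalize κ c = e
      revert a d e
      decide
  have swap : ∀ {t : V} {M : List V}, (p :: M).Nodup → (∀ z ∈ M, z ≠ q) → (t = p ∨ t = q) →
      (t :: M).Nodup := by
    intro t M k1 k2 k3
    rw [List.nodup_cons] at k1 ⊢
    refine ⟨?_, k1.2⟩
    rcases k3 with rfl | rfl
    · exact k1.1
    · exact fun hh => k2 _ hh rfl
  by_cases hX : X = []
  · -- p is a branch vertex
    subst hX
    have hv0 : v0 = p := by simpa using nf.laX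
    subst hv0
    have hne2 : A02 ++ [v2] ≠ [] := by simp
    have hne3 : A03 ++ [v3] ≠ [] := by simp
    obtain ⟨z2, L2, h2⟩ := List.exists_cons_of_ne_nil hne2
    obtain ⟨z3, L3, h3⟩ := List.exists_cons_of_ne_nil hne3
    have k2 := nf.ch02
    have k3 := nf.ch03
    rw [h2] at k2
    rw [h3] at k3
    have a2 := (h.Z2 (List.isChain_cons_cons.1 k2).1).2
    have a3 := (h.Z2 (List.isChain_cons_cons.1 k3).1).2
    have m2 : ∀ {t : V}, G.Adj t z2 → List.IsChain G.Adj (t :: (A02 ++ [v2])) := by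
      intro t ht
      rw [h2]
      exact chG' k2 (h2 ▸ hp02) ht
    have m3 : ∀ {t : V}, G.Adj t z3 → List.IsChain G.Adj (t :: (A03 ++ [v3])) := by
      intro t ht
      rw [h3]
      exact chG' k3 (h3 ▸ hp03) ht
    -- nonsplit
    have non : ∀ {t : V}, (t = v0 ∨ t = q) → G.Adj t z2 → G.Adj t z3 → False := by
      intro t ht b2 b3
      refine fin t t [] (by simp) (by simp) ?_ (m2 b2) (m3 b3) ?_ rfl
      · rcases ht with rfl | rfl
        · exact ap.symm
        · exact aq.symm
      · have k4 : (v0 :: ([v1, v2, v3] ++ Y ++ S ++ T ++ A02 ++ A03 ++ A12 ++ A13 ++ L)).Nodup := by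
          have e1 : [v0, v1, v2, v3] ++ [] ++ Y ++ S ++ T ++ A02 ++ A03 ++ A12 ++ A13 ++ L =
              v0 :: ([v1, v2, v3] ++ Y ++ S ++ T ++ A02 ++ A03 ++ A12 ++ A13 ++ L) := by simp
          rw [← e1]; exact nodL
        have k5 := swap (t := t) k4 ?_ ht
        · have e1 : [t, v1, v2, v3] ++ [] ++ Y ++ S ++ T ++ A02 ++ A03 ++ A12 ++ A13 ++ L =
              t :: ([v1, v2, v3] ++ Y ++ S ++ T ++ A02 ++ A03 ++ A12 ++ A13 ++ L) := by simp
          rw [e1]; exact k5
        · intro z hz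
          rw [List.mem_append] at hz
          rcases hz with hz | hz
          · apply hqn z
            apply mem z
            simp only [List.mem_append, List.mem_cons, List.not_mem_nil, or_false] at hz ⊢
            clear * - hz
            tauto
          · exact hqL z hz
    -- y is not a branch vertex
    have hY : Y ≠ [] := by
      rintro rfl
      have hv1 : v1 = y := by simpa using nf.laY
      subst hv1
      have hne2 : A12 ++ [v2] ≠ [] := by simp
      have hne3 : A13 ++ [v3] ≠ [] := by simp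
      obtain ⟨u2, M2, n2⟩ := List.exists_cons_of_ne_nil hne2
      obtain ⟨u3, M3, n3⟩ := List.exists_cons_of_ne_nil hne3
      have q2 := nf.ch12
      have q3 := nf.ch13
      rw [n2] at q2
      rw [n3] at q3
      have r2 := h.Z4 (List.isChain_cons_cons.1 q2).1
      have r3 := h.Z4 (List.isChain_cons_cons.1 q3).1
      have hr2 : r ∈ A12 ++ [v2] := by rw [n2, r2]; simp
      have hr3 : r ∈ A13 ++ [v3] := by rw [n3, r3]; simp
      have hp : ((A12 ++ [v2]) ++ (A13 ++ [v3]) ++ ([v0, v1] ++ S ++ T ++ A02 ++ A03)).Perm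
          ([v0, v1, v2, v3] ++ [] ++ [] ++ S ++ T ++ A02 ++ A03 ++ A12 ++ A13) := by
        rw [← Multiset.coe_eq_coe]
        simp only [← Multiset.coe_add, ← Multiset.cons_coe, ← Multiset.singleton_add,
          Multiset.coe_nil]
        abel
      have hn := (List.nodup_append.1 (hp.nodup_iff.2 nf.nodup)).1
      exact (List.nodup_append.1 hn).2.2 r hr2 r hr3 rfl
    have hYs := last_split nf.laY hY
    obtain ⟨Ly, rfl⟩ : ∃ Ly, Y = Ly ++ [y] := ⟨_, hYs⟩
    have c2 : κ v2 = κ v0 + 1 := by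
      have := nf.c02
      revert this
      generalize κ v0 = a
      generalize κ v2 = d
      revert a d
      decide
    have oL : Odd Ly.length := by
      rw [List.length_append, List.length_singleton, Nat.cast_add, Nat.cast_one, ← c01, κy] at lY
      rw [← ZMod.natCast_eq_one_iff_odd]
      revert lY
      generalize (Ly.length : ZMod 2) = n
      generalize κ v0 = a
      revert n a
      decide
    have nodq : (q :: ([v0, v1, v2, v3] ++ [] ++ (Ly ++ [y]) ++ S ++ T ++ A02 ++ A03 ++ A12 ++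
        A13)).Nodup := List.nodup_cons.2 ⟨fun hh => hqn q (mem q hh) rfl, nf.nodup⟩
    have perm1 : ([v0, q, v1, v2, v3] ++ (Ly ++ [y]) ++ S ++ T ++ A02 ++ A03 ++ A12 ++ A13).Perm
        (q :: ([v0, v1, v2, v3] ++ [] ++ (Ly ++ [y]) ++ S ++ T ++ A02 ++ A03 ++ A12 ++ A13)) :=
      List.Perm.swap _ _ _
    have perm2 : ([q, v0, v1, v2, v3] ++ (Ly ++ [y]) ++ S ++ T ++ A02 ++ A03 ++ A12 ++ A13).Perm
        (q :: ([v0, v1, v2, v3] ++ [] ++ (Ly ++ [y]) ++ S ++ T ++ A02 ++ A03 ++ A12 ++ A13)) :=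
      List.Perm.refl _
    have mem' : ∀ z ∈ q :: ([v0, v1, v2, v3] ++ [] ++ (Ly ++ [y]) ++ S ++ T ++ A02 ++ A03 ++
        A12 ++ A13), z ∈ W ∨ z = v0 ∨ z = q ∨ z = b ∨ z = c ∨ z = y := by
      intro z hz
      rw [List.mem_cons] at hz
      rcases hz with hz | hz
      · exact Or.inr (Or.inr (Or.inl hz))
      · rcases mem z hz with g | g | g
        · exact Or.inl g
        · exact Or.inr (Or.inl g)
        · exact Or.inr (Or.inr (Or.inr g))
    -- split
    have spl1 : G.Adj v0 z2 → G.Adj q z3 →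
        HasSplit G W v0 q b c y (κ v0 + 1 + κ b) (κ v0 + 1 + κ c) := by
      intro b2 b3
      exact split_of_lists (m2 b2) (m3 b3) g12 g13 gS nf.laS gT nf.laT gY
        (perm1.nodup_iff.2 nodq) l02 l03 l12 l13 oL (by rw [lS, c2]) (by rw [lT, ← c23, c2])
        (fun z hz => mem' z (perm1.mem_iff.1 hz))
    have spl2 : G.Adj q z2 → G.Adj v0 z3 →
        HasSplit G W q v0 b c y (κ v0 + 1 + κ b) (κ v0 + 1 + κ c) := by
      intro b2 b3
      refine split_of_lists (m2 b2) (m3 b3) g12 g13 gS nf.laS gT nf.laT gY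
        (perm2.nodup_iff.2 nodq) l02 l03 l12 l13 oL (by rw [lS, c2]) (by rw [lT, ← c23, c2]) ?_
      intro z hz
      rcases mem' z (perm2.mem_iff.1 hz) with g | g | g | g
      · exact Or.inl g
      · exact Or.inr (Or.inr (Or.inl g))
      · exact Or.inr (Or.inl g)
      · exact Or.inr (Or.inr (Or.inr g))
    by_cases b2 : G.Adj v0 z2
    · by_cases b3 : G.Adj v0 z3
      · exact absurd (non (Or.inl rfl) b2 b3) (fun hh => hh)
      · exact Or.inl (spl1 b2 (a3.resolve_left b3))
    · have b2' := a2.resolve_left b2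
      by_cases b3 : G.Adj q z3
      · exact absurd (non (Or.inr rfl) b2' b3) (fun hh => hh)
      · exact Or.inr (spl2 b2' (a3.resolve_right b3))
  · -- p is not a branch vertex
    exfalso
    have hXs := last_split nf.laX hX
    set X' := X.dropLast with hX'
    have hv0p : v0 ≠ p := by
      intro hh
      have h1 := (List.nodup_append.1 nod1).1
      rw [hXs, List.nodup_cons] at h1
      exact h1.1 (by simp [hh])
    have hpX' : p ∉ X' := by
      intro hh
      have h1 := (List.nodup_append.1 nod1).1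
      rw [hXs, List.nodup_cons, List.nodup_append] at h1
      exact h1.2.2.2 p hh p (by simp) rfl
    have kX := nf.chX
    rw [hXs] at kX
    have kr : List.IsChain (ZW G W p q).Adj (p :: (X'.reverse ++ [v0])) := by
      have he : p :: (X'.reverse ++ [v0]) = (v0 :: (X' ++ [p])).reverse := by simp
      rw [he, List.isChain_reverse]
      exact kX.imp (fun _ _ hab => hab.symm)
    have hne : X'.reverse ++ [v0] ≠ [] := by simp
    obtain ⟨z, L2, h2⟩ := List.exists_cons_of_ne_nil hne
    rw [h2] at kr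
    have hpz : p ∉ z :: L2 := by
      rw [← h2]
      simp only [List.mem_append, List.mem_reverse, List.mem_singleton]
      rintro (hh | hh)
      · exact hpX' hh
      · exact hv0p hh.symm
    have fin' : ∀ {t : V}, (t = p ∨ t = q) → G.Adj t z → False := by
      intro t ht htz
      have k1 := chG' kr hpz htz
      rw [← h2] at k1
      have k2 := chain_rev k1
      rw [List.reverse_reverse] at k2
      have g02 : List.IsChain G.Adj (v0 :: (A02 ++ [v2])) := chG nf.ch02 (by
        rw [List.mem_cons]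
        rintro (hh | hh)
        · exact hv0p hh.symm
        · exact hp02 hh)
      have g03 : List.IsChain G.Adj (v0 :: (A03 ++ [v3])) := chG nf.ch03 (by
        rw [List.mem_cons]
        rintro (hh | hh)
        · exact hv0p hh.symm
        · exact hp03 hh)
      refine fin t v0 (X' ++ [t]) k2
        (by rw [← List.cons_append]; exact List.getLast?_concat) ?_ g02 g03 ?_ ?_
      · rcases ht with rfl | rfl
        · exact ap.symm
        · exact aq.symm
      · have e1 : ∀ t : V, ([v0, v1, v2, v3] ++ (X' ++ [t]) ++ Y ++ S ++ T ++ A02 ++ A03 ++ A12 ++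
            A13 ++ L).Perm
            (t :: ([v0, v1, v2, v3] ++ X' ++ Y ++ S ++ T ++ A02 ++ A03 ++ A12 ++ A13 ++ L)) := by
          intro t
          rw [← Multiset.coe_eq_coe]
          simp only [← Multiset.coe_add, ← Multiset.cons_coe, ← Multiset.singleton_add,
            Multiset.coe_nil]
          abel
        refine (e1 t).nodup_iff.2 (swap ?_ ?_ ht)
        · refine (e1 p).nodup_iff.1 ?_
          rw [← hXs]; exact nodL
        · intro z' hz'
          rw [List.mem_append] at hz'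
          rcases hz' with hz' | hz'
          · apply hqn z'
            apply mem z'
            rw [hXs]
            simp only [List.mem_append, List.mem_cons, List.not_mem_nil, or_false] at hz' ⊢
            clear * - hz'
            tauto
          · exact hqL z' hz'
      · conv_rhs => rw [hXs]
        simp
    rcases (h.Z2 (List.isChain_cons_cons.1 kr).1).2 with h3 | h3
    · exact fin' (Or.inl rfl) h3
    · exact fin' (Or.inr rfl) h3

end Pool.Agent.Helper97.OT
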